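import Pool.Agent.Helper288.BSCochain

set_option autoImplicit false

namespace Pool.Agent.Helper288.BS

section
variable {σ : Type} [Fintype σ] (M : DFA (Fin 2 × Bool) σ)

/-- a shortest representative exists -/
lemma exists_rep (hsurj : ∀ g : G, ∃ w : Wd, w ∈ M.accepts ∧ E w = g) :
    ∃ rep : G → Wd, ∀ g, rep g ∈ M.accepts ∧ E (rep g) = g ∧
      ∀ v ∈ M.accepts, E v = g → (rep g).length ≤ v.length := by
  have : ∀ g : G, ∃ w : Wd, w ∈ M.accepts ∧ E w = g ∧
      ∀ v ∈ M.accepts, E v = g → w.length ≤ v.length := by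
    intro g
    have hne : ∃ n : ℕ, ∃ w : Wd, w ∈ M.accepts ∧ E w = g ∧ w.length = n := by
      obtain ⟨w, h1, h2⟩ := hsurj g
      exact ⟨_, w, h1, h2, rfl⟩
    classical
    obtain ⟨w, h1, h2, h3⟩ := Nat.find_spec hne
    refine ⟨w, h1, h2, fun v hv1 hv2 => ?_⟩
    rw [h3]
    exact Nat.find_min' hne ⟨v, hv1, hv2, rfl⟩
  choose rep h using this
  exact ⟨rep, h⟩

variable (k : ℕ)
  (hft : ∀ u v : Wd, u ∈ M.accepts → v ∈ M.accepts →
    ((E u)⁻¹ * E v = 1 ∨ ∃ x : Fin 2 × Bool, (E u)⁻¹ * E v = E [x]) →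
    ∀ s : ℕ, ∃ w : Wd, w.length ≤ k ∧ E (u.take s) * E w = E (v.take s))

include hft

lemma len_step (rep : G → Wd) (hrep : ∀ g, rep g ∈ M.accepts ∧ E (rep g) = g ∧
      ∀ v ∈ M.accepts, E v = g → (rep g).length ≤ v.length) :
    ∃ C : ℕ, ∀ (g : G) (x : Fin 2 × Bool), (rep (g * E [x])).length ≤ (rep g).length + C := by
  classical
  have hfin : Set.Finite (E '' {w : Wd | w.length ≤ k}) :=
    (List.finite_length_le (Fin 2 × Bool) k).image _
  let Ball : Finset G := hfin.toFinset
  refine ⟨Fintype.card (σ × Ball), fun g x => ?_⟩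
  by_contra hcon
  push Not at hcon
  set u := rep g with hu
  set v := rep (g * E [x]) with hv
  set C := Fintype.card (σ × Ball) with hC
  have hru := hrep g
  have hrv := hrep (g * E [x])
  rw [← hu] at hru
  rw [← hv] at hrv
  have hE : (E u)⁻¹ * E v = E [x] := by rw [hru.2.1, hrv.2.1]; group
  have hball : ∀ i : ℕ, (E u)⁻¹ * E (v.take (u.length + i)) ∈ Ball := by
    intro i
    obtain ⟨w, hw1, hw2⟩ := hft u v hru.1 hrv.1 (Or.inr ⟨x, hE⟩) (u.length + i)
    rw [List.take_of_length_le (by omega : u.length ≤ u.length + i)] at hw2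
    rw [Set.Finite.mem_toFinset]
    exact ⟨w, hw1, by rw [← hw2]; group⟩
  let F : Fin (C + 1) → σ × Ball := fun i =>
    (M.eval (v.take (u.length + i)), ⟨_, hball i⟩)
  obtain ⟨i, j, hij, hF⟩ := Fintype.exists_ne_map_eq_of_card_lt F (by
    rw [Fintype.card_fin, ← hC]; exact Nat.lt_succ_self C)
  wlog hlt : (i : ℕ) < j generalizing i j with H
  · have hne : (i : ℕ) ≠ j := fun h => hij (Fin.ext h)
    exact H j i hij.symm hF.symm (by omega)
  simp only [F, Prod.mk.injEq, Subtype.mk.injEq] at hF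
  obtain ⟨hF1, hF2⟩ := hF
  have hF3 : E (v.take (u.length + i)) = E (v.take (u.length + j)) := mul_left_cancel hF2
  have hj := j.2
  have hv' : v.take (u.length + j) ++ v.drop (u.length + j) = v := List.take_append_drop _ _
  set v' := v.take (u.length + i) ++ v.drop (u.length + j) with hv'def
  have hacc : v' ∈ M.accepts := by
    have h1 : M.eval v' = M.eval v := by
      rw [hv'def]
      conv_rhs => rw [← hv']
      unfold DFA.eval at hF1 ⊢
      rw [DFA.evalFrom_of_append, DFA.evalFrom_of_append, hF1]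
    have h2 := hrv.1
    rw [DFA.mem_accepts] at h2 ⊢
    rw [h1]; exact h2
  have hEv : E v' = g * E [x] := by
    rw [hv'def, E_append, hF3, ← E_append, hv', hrv.2.1]
  have hlen := hrv.2.2 v' hacc hEv
  rw [hv'def, List.length_append, List.length_take, List.length_drop] at hlen
  omega

lemma strip (C : ℕ)
    (hC : ∀ u v : Wd, u.length ≤ k + 1 → v.length ≤ k + 1 → E u = E v → ∀ g, |I u g - I v g| ≤ C)
    (u v : Wd) (hu : u ∈ M.accepts) (hv : v ∈ M.accepts) (x : Fin 2 × Bool)
    (hx : (E u)⁻¹ * E v = E [x]) :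
    |I u 1 + I [x] (E u) - I v 1| ≤ C * (max u.length v.length + 2) := by
  choose w hw1 hw2 using hft u v hu hv (Or.inr ⟨x, hx⟩)
  have key : ∀ s : ℕ, |I (u.take s) 1 + I (w s) (E (u.take s)) - I (v.take s) 1| ≤ C * (s + 1) := by
    intro s
    induction s with
    | zero =>
      have h0 := hw2 0
      simp only [List.take_zero, E_nil, one_mul] at h0
      have := hC (w 0) [] ((hw1 0).trans (by omega)) (by simp) (by rw [h0, E_nil]) 1
      rw [I_nil, sub_zero] at this
      simp only [List.take_zero, I_nil, E_nil, zero_add, sub_zero]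
      simpa using this
    | succ s ih =>
      set xs := (u.drop s).take 1 with hxs
      set ys := (v.drop s).take 1 with hys
      have e1 : u.take (s + 1) = u.take s ++ xs := List.take_add
      have e2 : v.take (s + 1) = v.take s ++ ys := List.take_add
      have lx : xs.length ≤ 1 := by rw [hxs, List.length_take]; omega
      have ly : ys.length ≤ 1 := by rw [hys, List.length_take]; omega
      have h1 := hw2 (s + 1)
      have h2 := hw2 s
      rw [e1, e2, E_append, E_append, ← h2, mul_assoc, mul_assoc] at h1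
      have h3 : E (xs ++ w (s + 1)) = E (w s ++ ys) := by
        rw [E_append, E_append]; exact mul_left_cancel h1
      have h4 := hC (xs ++ w (s + 1)) (w s ++ ys)
        (by rw [List.length_append]; have := hw1 (s + 1); omega)
        (by rw [List.length_append]; have := hw1 s; omega) h3 (E (u.take s))
      rw [I_append, I_append] at h4
      rw [e1, e2, I_append, I_append, E_append, one_mul, one_mul, ← h2]
      push_cast
      have h5 := abs_le.1 ih
      have h6 := abs_le.1 h4
      rw [abs_le]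
      constructor <;> linarith [h5.1, h5.2, h6.1, h6.2]
  set T := max u.length v.length with hT
  have h1 := key T
  have hwT := hw2 T
  rw [List.take_of_length_le (le_max_left _ _), List.take_of_length_le (le_max_right _ _)] at h1 hwT
  have h2 : E (w T) = E [x] := by rw [← hx, ← hwT]; group
  have h3 := hC (w T) [x] ((hw1 T).trans (by omega)) (by simp) h2 (E u)
  have h5 := abs_le.1 h1
  have h6 := abs_le.1 h3
  rw [abs_le]
  constructor <;> linarith [h5.1, h5.2, h6.1, h6.2]

lemma quadratic (hsurj : ∀ g : G, ∃ w : Wd, w ∈ M.accepts ∧ E w = g) :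
    ∃ A : ℕ, ∀ W : Wd, E W = 1 → |I W 1| ≤ A * (W.length + 1) ^ 2 := by
  obtain ⟨rep, hrep⟩ := exists_rep M hsurj
  obtain ⟨C1, hC1⟩ := len_step M k hft rep hrep
  obtain ⟨C, hC⟩ := I_bounded (k + 1)
  set R0 := (rep 1).length with hR0
  refine ⟨C * (R0 + C1 + 2), fun W hW => ?_⟩
  have hlen : ∀ i : ℕ, i ≤ W.length → (rep (E (W.take i))).length ≤ R0 + C1 * i := by
    intro i
    induction i with
    | zero => intro _; rw [List.take_zero, E_nil]; simp [hR0]
    | succ i ih =>
      intro hi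
      have e1 : W.take (i + 1) = W.take i ++ [W[i]'(by omega)] := by
        rw [List.take_succ_eq_append_getElem (by omega)]
      rw [e1, E_append]
      have h2 := hC1 (E (W.take i)) (W[i]'(by omega))
      have h3 := ih (by omega)
      calc _ ≤ _ := h2
        _ ≤ R0 + C1 * i + C1 := by omega
        _ = R0 + C1 * (i + 1) := by ring
  have key : ∀ i : ℕ, i ≤ W.length →
      |I (rep 1) 1 + I (W.take i) 1 - I (rep (E (W.take i))) 1| ≤
        i * (C * (R0 + C1 * W.length + 2)) := by
    intro i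
    induction i with
    | zero => intro _; rw [List.take_zero, E_nil, I_nil]; simp
    | succ i ih =>
      intro hi
      have e1 : W.take (i + 1) = W.take i ++ [W[i]'(by omega)] := by
        rw [List.take_succ_eq_append_getElem (by omega)]
      set x := W[i]'(by omega) with hx
      have h1 := ih (by omega)
      have hu := hrep (E (W.take i))
      have hv := hrep (E (W.take (i + 1)))
      have h2 := strip M k hft C hC (rep (E (W.take i))) (rep (E (W.take (i + 1)))) hu.1 hv.1 x (by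
        rw [hu.2.1, hv.2.1, e1, E_append]; group)
      rw [hu.2.1] at h2
      have l1 := hlen i (by omega)
      have l2 := hlen (i + 1) hi
      have l3 : C1 * i ≤ C1 * W.length := Nat.mul_le_mul_left _ (by omega)
      have l4 : C1 * (i + 1) ≤ C1 * W.length := Nat.mul_le_mul_left _ hi
      have l5 : max (rep (E (W.take i))).length (rep (E (W.take (i + 1)))).length ≤
          R0 + C1 * W.length := by
        apply max_le <;> omega
      have l6 : (C : ℤ) * (((max (rep (E (W.take i))).length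
          (rep (E (W.take (i + 1)))).length : ℕ) : ℤ) + 2) ≤ C * (R0 + C1 * W.length + 2) := by
        apply mul_le_mul_of_nonneg_left _ (by positivity)
        have : (((max (rep (E (W.take i))).length (rep (E (W.take (i + 1)))).length : ℕ) : ℤ)) ≤
            R0 + C1 * W.length := by exact_mod_cast l5
        linarith
      have h3 := h2.trans l6
      rw [e1, I_append, one_mul] at *
      have h5 := abs_le.1 h1
      have h6 := abs_le.1 h3
      rw [abs_le]
      push_cast
      constructor <;> linarith [h5.1, h5.2, h6.1, h6.2]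
  have hfinal := key W.length le_rfl
  rw [List.take_length, hW] at hfinal
  have e : I (rep 1) 1 + I W 1 - I (rep 1) 1 = I W 1 := by ring
  rw [e] at hfinal
  refine hfinal.trans ?_
  push_cast
  have n0 : (0 : ℤ) ≤ W.length := by positivity
  have n1 : (0 : ℤ) ≤ C := by positivity
  have n2 : (0 : ℤ) ≤ R0 := by positivity
  have n3 : (0 : ℤ) ≤ C1 := by positivity
  have n4 : (W.length : ℤ) * (R0 + C1 * W.length + 2) ≤ (R0 + C1 + 2) * (W.length + 1) ^ 2 := by
    have q1 : 0 ≤ (R0 : ℤ) * W.length := by positivity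
    have q2 : 0 ≤ (R0 : ℤ) * W.length ^ 2 := by positivity
    have q3 : 0 ≤ (C1 : ℤ) * W.length := by positivity
    have q4 : 0 ≤ (W.length : ℤ) ^ 2 := by positivity
    nlinarith
  calc (W.length : ℤ) * (C * (R0 + C1 * W.length + 2))
      = C * (W.length * (R0 + C1 * W.length + 2)) := by ring
    _ ≤ C * ((R0 + C1 + 2) * (W.length + 1) ^ 2) := mul_le_mul_of_nonneg_left n4 n1
    _ = C * (R0 + C1 + 2) * (W.length + 1) ^ 2 := by ring

end

/-- exponents -/
def mm : ℕ → ℕ
  | 0 => 1
  | j + 1 => 5 * ((mm j + (3 - mm j % 3) % 3) / 3)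

/-- words -/
def vv : ℕ → Wd
  | 0 => [(0, true)]
  | j + 1 => [(1, true)] ++ (vv j ++ List.replicate ((3 - mm j % 3) % 3) (0, true)) ++ [(1, false)]

lemma E_a : E [(0, true)] = a := rfl
lemma E_a' : E [(0, false)] = a⁻¹ := rfl
lemma E_t : E [(1, true)] = t := rfl
lemma E_t' : E [(1, false)] = t⁻¹ := rfl

lemma E_rep_a (n : ℕ) : E (List.replicate n (0, true)) = a ^ n := by
  induction n with
  | zero => simp [E_nil]
  | succ n ih => rw [List.replicate_succ', E_append, ih, E_a, pow_succ]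

lemma I_a (g : G) : I [(0, true)] g = 0 := J_a g
lemma I_t (g : G) : I [(1, true)] g = phi g := J_t g
lemma mk_a' : FreeGroup.mk [((0 : Fin 2), false)] = (FreeGroup.of 0)⁻¹ := rfl
lemma mk_t' : FreeGroup.mk [((1 : Fin 2), false)] = (FreeGroup.of 1)⁻¹ := rfl
lemma I_a' (g : G) : I [(0, false)] g = 0 := by
  unfold I; rw [mk_a', J_inv, J_a, neg_zero]
lemma I_t' (g : G) : I [(1, false)] g = - phi (g * t⁻¹) := by
  unfold I; rw [mk_t', J_inv, J_t, pr_t]

lemma I_rep_a (n : ℕ) (g : G) : I (List.replicate n (0, true)) g = 0 := by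
  induction n generalizing g with
  | zero => simp [I_nil]
  | succ n ih => rw [List.replicate_succ', I_append, ih, I_a, add_zero]

lemma t_conj (s : ℕ) : t * a ^ (3 * s) * t⁻¹ = a ^ (5 * s) := by
  rw [pow_mul, pow_mul, ← rel_eq, conj_pow]

lemma mm_div (j : ℕ) : ∃ s, mm j + (3 - mm j % 3) % 3 = 3 * s ∧ mm (j + 1) = 5 * s := by
  refine ⟨(mm j + (3 - mm j % 3) % 3) / 3, by omega, ?_⟩
  rw [mm]

lemma E_vv (j : ℕ) : E (vv j) = a ^ (mm j) := by
  induction j with
  | zero => rw [vv, mm, pow_one]; rfl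
  | succ j ih =>
    obtain ⟨s, h1, h2⟩ := mm_div j
    rw [vv, E_append, E_append, E_append, ih, E_rep_a, E_t, E_t', ← pow_add, h1, t_conj, h2]

lemma I_vv_succ (j : ℕ) (g : G) :
    I (vv (j + 1)) g = phi g - phi (g * a ^ mm (j + 1)) + I (vv j) (g * t) := by
  have hE := E_vv (j + 1)
  rw [vv] at hE
  rw [E_append] at hE
  rw [vv, I_append, I_t', mul_assoc]
  rw [E_t'] at hE
  rw [hE, I_append, I_append, I_rep_a, I_t, E_t]
  ring

lemma I_vv_zero (j : ℕ) (g : G) (h : 0 < sig g) : I (vv j) g = 0 := by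
  induction j generalizing g with
  | zero => exact I_a g
  | succ j ih =>
    rw [I_vv_succ, phi_of_sig g h.ne', phi_of_sig, ih]
    · ring
    · rw [sig_mul, sig_t]; omega
    · rw [sig_mul, sig_pow, sig_a, mul_zero, add_zero]; exact h.ne'

lemma vv_length (j : ℕ) : (vv j).length ≤ 1 + 4 * j := by
  induction j with
  | zero => simp [vv]
  | succ j ih =>
    rw [vv]
    simp only [List.length_append, List.length_replicate, List.length_singleton]
    omega

/-- test loops -/
def WW (j : ℕ) : Wd := vv (j + 1) ++ [(0, true)] ++ FreeGroup.invRev (vv (j + 1)) ++ [(0, false)]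

lemma E_invRev (u : Wd) : E (FreeGroup.invRev u) = (E u)⁻¹ := by
  unfold E; rw [← FreeGroup.inv_mk, map_inv]

lemma I_invRev (u : Wd) (g : G) : I (FreeGroup.invRev u) g = - I u (g * (E u)⁻¹) := by
  unfold I E; rw [← FreeGroup.inv_mk, J_inv]; rfl

lemma E_WW (j : ℕ) : E (WW j) = 1 := by
  unfold WW
  rw [E_append, E_append, E_append, E_invRev, E_vv, E_a, E_a', ← pow_succ, pow_succ']
  group

lemma WW_length (j : ℕ) : (WW j).length ≤ 8 * j + 12 := by
  unfold WW
  have := vv_length (j + 1)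
  simp only [List.length_append, List.length_singleton, FreeGroup.invRev_length]
  omega

lemma I_WW (j : ℕ) : I (WW j) 1 = - (mm (j + 1) / 5 : ℕ) := by
  obtain ⟨s, h1, h2⟩ := mm_div j
  unfold WW
  rw [I_append, I_append, I_append, I_invRev, I_a', I_a, one_mul, E_append, E_vv, E_a]
  have e1 : a ^ mm (j + 1) * a * (a ^ mm (j + 1))⁻¹ = a := by group
  rw [e1, I_vv_succ, I_vv_succ, I_vv_zero j (1 * t), I_vv_zero j (a * t), one_mul]
  · have p1 : phi (1 : G) = 0 := by
      have := phi_a_pow 0 (by norm_num)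
      simpa using this
    have p2 : phi (a ^ mm (j + 1)) = (mm (j + 1) / 5 : ℕ) := phi_a_pow _ (by omega)
    have p3 : phi a = 0 := by
      have := phi_a_pow' 1 (by norm_num)
      simpa using this
    have p4 : phi (a * a ^ mm (j + 1)) = 0 := by
      rw [← pow_succ']
      exact phi_a_pow' _ (by omega)
    rw [p1, p2, p3, p4]; ring
  · rw [sig_mul, sig_a, sig_t]; norm_num
  · rw [one_mul, sig_t]; norm_num

lemma mm_growth (j : ℕ) : 5 ^ j ≤ mm j * 3 ^ j := by
  induction j with
  | zero => simp [mm]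
  | succ j ih =>
    obtain ⟨s, h1, h2⟩ := mm_div j
    have h3 : 5 * mm j ≤ mm (j + 1) * 3 := by omega
    calc 5 ^ (j + 1) = 5 * 5 ^ j := by ring
      _ ≤ 5 * (mm j * 3 ^ j) := Nat.mul_le_mul_left _ ih
      _ = (5 * mm j) * 3 ^ j := by ring
      _ ≤ (mm (j + 1) * 3) * 3 ^ j := Nat.mul_le_mul_right _ h3
      _ = mm (j + 1) * 3 ^ (j + 1) := by ring

theorem not_automatic :
    ¬ ∃ (σ : Type) (_ : Fintype σ) (M : DFA (Fin 2 × Bool) σ),
        (∀ g : G, ∃ w : Wd, w ∈ M.accepts ∧ E w = g) ∧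
        ∃ k : ℕ, ∀ u v : Wd, u ∈ M.accepts → v ∈ M.accepts →
          ((E u)⁻¹ * E v = 1 ∨ ∃ x : Fin 2 × Bool, (E u)⁻¹ * E v = E [x]) →
          ∀ s : ℕ, ∃ w : Wd, w.length ≤ k ∧ E (u.take s) * E w = E (v.take s) := by
  rintro ⟨σ, hσ, M, hsurj, k, hft⟩
  obtain ⟨A, hA⟩ := quadratic M k hft hsurj
  have hbound : ∀ j : ℕ, (mm (j + 1) / 5 : ℕ) ≤ A * (8 * j + 13) ^ 2 := by
    intro j
    have h1 := hA (WW j) (E_WW j)
    rw [I_WW, abs_neg] at h1
    have h2 : ((mm (j + 1) / 5 : ℕ) : ℤ) ≤ A * ((WW j).length + 1) ^ 2 := (le_abs_self _).trans h1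
    have h3 : mm (j + 1) / 5 ≤ A * ((WW j).length + 1) ^ 2 := by exact_mod_cast h2
    refine h3.trans (Nat.mul_le_mul_left _ (Nat.pow_le_pow_left ?_ 2))
    have := WW_length j
    omega
  have hb2 : ∀ j : ℕ, (5 / 3 : ℝ) ^ j ≤ 1521 * A * ((j : ℝ) + 1) ^ 2 := by
    intro j
    obtain ⟨s, h1, h2⟩ := mm_div j
    have h3 := hbound j
    rw [h2, Nat.mul_div_cancel_left _ (by norm_num)] at h3
    have h4 : mm j ≤ 3 * s := by omega
    have h5 := mm_growth j
    have h6 : (5 : ℝ) ^ j ≤ mm j * 3 ^ j := by exact_mod_cast h5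
    have h7 : (5 / 3 : ℝ) ^ j ≤ mm j := by
      rw [div_pow, div_le_iff₀ (by positivity)]; exact h6
    have h8 : (mm j : ℝ) ≤ 3 * (A * (8 * j + 13) ^ 2) := by
      have : mm j ≤ 3 * (A * (8 * j + 13) ^ 2) := by omega
      exact_mod_cast this
    refine (h7.trans h8).trans ?_
    have hj : (0 : ℝ) ≤ j := by positivity
    have hA0 : (0 : ℝ) ≤ A := by positivity
    have : (8 * (j : ℝ) + 13) ^ 2 ≤ 507 * ((j : ℝ) + 1) ^ 2 := by nlinarith
    nlinarith [mul_le_mul_of_nonneg_left this hA0]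
  have hlim := tendsto_pow_const_div_const_pow_of_one_lt 2 (by norm_num : (1 : ℝ) < 5 / 3)
  have hlim2 := hlim.const_mul (1521 * (A : ℝ) * 4)
  rw [mul_zero] at hlim2
  have hev := (hlim2.eventually (gt_mem_nhds (show (0 : ℝ) < 1 by norm_num))).and
    (Filter.eventually_ge_atTop 1)
  obtain ⟨j, hj, hj1⟩ := hev.exists
  have h1 := hb2 j
  have hpos : (0 : ℝ) < (5 / 3 : ℝ) ^ j := by positivity
  have hj1' : (1 : ℝ) ≤ j := by exact_mod_cast hj1
  have h2 : ((j : ℝ) + 1) ^ 2 ≤ 4 * (j : ℝ) ^ 2 := by nlinarith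
  have hA0 : (0 : ℝ) ≤ A := by positivity
  have h3 : (5 / 3 : ℝ) ^ j ≤ 1521 * A * 4 * (j : ℝ) ^ 2 := by
    refine h1.trans ?_
    nlinarith [mul_le_mul_of_nonneg_left h2 hA0]
  rw [← mul_div_assoc, div_lt_one hpos] at hj
  linarith

end Pool.Agent.Helper288.BS
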