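import Mathlib

set_option autoImplicit false

namespace Pool.Agent.Helper288.BS

/-- digits modulus -/
def p (e : Bool) : ℤ := if e then 5 else 3

lemma p_pos (e : Bool) : 0 < p e := by cases e <;> simp [p]

/-- odometer on lists of letters -/
def shiftL : ℤ → List (ℤ × Bool) → List (ℤ × Bool)
  | _, [] => []
  | j, (i, e) :: x => ((j + i) % p e, e) :: shiftL (p (!e) * ((j + i) / p e)) x

/-- carry out of the odometer -/
def shiftC : ℤ → List (ℤ × Bool) → ℤ
  | j, [] => j
  | j, (i, e) :: x => shiftC (p (!e) * ((j + i) / p e)) x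

/-- reducedness of a list of letters -/
def Red : List (ℤ × Bool) → Prop
  | [] => True
  | (i, e) :: x => (0 ≤ i ∧ i < p e) ∧ x.head? ≠ some (0, !e) ∧ Red x

@[simp] lemma Red_nil : Red [] := trivial

lemma Red_cons (i : ℤ) (e : Bool) (x : List (ℤ × Bool)) :
    Red ((i, e) :: x) ↔ (0 ≤ i ∧ i < p e) ∧ x.head? ≠ some (0, !e) ∧ Red x := Iff.rfl

@[simp] lemma shiftL_nil (j : ℤ) : shiftL j [] = [] := rfl
@[simp] lemma shiftC_nil (j : ℤ) : shiftC j [] = j := rfl
lemma shiftL_cons (j i : ℤ) (e : Bool) (x : List (ℤ × Bool)) :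
    shiftL j ((i, e) :: x) = ((j + i) % p e, e) :: shiftL (p (!e) * ((j + i) / p e)) x := rfl
lemma shiftC_cons (j i : ℤ) (e : Bool) (x : List (ℤ × Bool)) :
    shiftC j ((i, e) :: x) = shiftC (p (!e) * ((j + i) / p e)) x := rfl

@[simp] lemma shiftL_length (j : ℤ) (x : List (ℤ × Bool)) : (shiftL j x).length = x.length := by
  induction x generalizing j with
  | nil => rfl
  | cons l x ih => obtain ⟨i, e⟩ := l; simp [shiftL_cons, ih]

lemma shiftL_head_ne (m : ℤ) (e : Bool) (x : List (ℤ × Bool)) (hx : Red x)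
    (h : x.head? ≠ some (0, !e)) : (shiftL (p (!e) * m) x).head? ≠ some (0, !e) := by
  cases x with
  | nil => simp
  | cons l x =>
    obtain ⟨i, e'⟩ := l
    rw [Red_cons] at hx
    simp only [shiftL_cons, List.head?_cons, ne_eq, Option.some.injEq, Prod.mk.injEq, not_and]
    intro h1 h2
    subst h2
    apply h
    simp only [List.head?_cons, Option.some.injEq, Prod.mk.injEq, and_true]
    rw [add_comm, Int.add_mul_emod_self_left] at h1
    rw [Int.emod_eq_of_lt hx.1.1 hx.1.2] at h1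
    exact h1

lemma shiftL_red (j : ℤ) (x : List (ℤ × Bool)) (hx : Red x) : Red (shiftL j x) := by
  induction x generalizing j with
  | nil => simp
  | cons l x ih =>
    obtain ⟨i, e⟩ := l
    rw [Red_cons] at hx
    rw [shiftL_cons, Red_cons]
    refine ⟨⟨Int.emod_nonneg _ (p_pos e).ne', Int.emod_lt_of_pos _ (p_pos e)⟩, ?_, ih _ hx.2.2⟩
    exact shiftL_head_ne _ _ _ hx.2.2 hx.2.1

lemma carry_add (j k i : ℤ) (e : Bool) :
    p (!e) * ((j + (k + i) % p e) / p e) + p (!e) * ((k + i) / p e) =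
      p (!e) * ((j + k + i) / p e) := by
  have hp := (p_pos e).ne'
  rw [← mul_add]
  congr 1
  have h1 : j + k + i = (j + (k + i) % p e) + p e * ((k + i) / p e) := by
    have := Int.emod_add_mul_ediv (k + i) (p e)
    linarith
  rw [h1, Int.add_mul_ediv_left _ _ hp]

lemma shiftL_add (j k : ℤ) (x : List (ℤ × Bool)) : shiftL j (shiftL k x) = shiftL (j + k) x := by
  induction x generalizing j k with
  | nil => simp
  | cons l x ih =>
    obtain ⟨i, e⟩ := l
    simp only [shiftL_cons, ih, carry_add]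
    congr 2
    rw [Int.add_emod, Int.emod_emod, ← Int.add_emod, add_assoc]

lemma shiftC_add (j k : ℤ) (x : List (ℤ × Bool)) :
    shiftC j (shiftL k x) + shiftC k x = shiftC (j + k) x := by
  induction x generalizing j k with
  | nil => simp
  | cons l x ih =>
    obtain ⟨i, e⟩ := l
    simp only [shiftL_cons, shiftC_cons, ih, carry_add]

lemma shift_zero (x : List (ℤ × Bool)) (hx : Red x) : shiftL 0 x = x ∧ shiftC 0 x = 0 := by
  induction x with
  | nil => simp
  | cons l x ih =>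
    obtain ⟨i, e⟩ := l
    rw [Red_cons] at hx
    simp only [shiftL_cons, shiftC_cons, zero_add, Int.emod_eq_of_lt hx.1.1 hx.1.2,
      Int.ediv_eq_zero_of_lt hx.1.1 hx.1.2, mul_zero]
    exact ⟨by rw [(ih hx.2.2).1], (ih hx.2.2).2⟩

/-- multiplication by the stable letter on lists -/
def tmul (e : Bool) (x : List (ℤ × Bool)) : List (ℤ × Bool) :=
  if x.head? = some (0, !e) then x.tail else (0, e) :: x

lemma tmul_of_head (e : Bool) (x : List (ℤ × Bool)) : tmul e ((0, !e) :: x) = x := by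
  simp [tmul]

lemma tmul_of_not (e : Bool) (x : List (ℤ × Bool)) (h : x.head? ≠ some (0, !e)) :
    tmul e x = (0, e) :: x := by
  simp [tmul, h]

lemma tmul_cases (e : Bool) (x : List (ℤ × Bool)) :
    (∃ y, x = (0, !e) :: y ∧ tmul e x = y) ∨ (x.head? ≠ some (0, !e) ∧ tmul e x = (0, e) :: x) := by
  by_cases h : x.head? = some (0, !e)
  · left
    cases x with
    | nil => simp at h
    | cons l y =>
      simp only [List.head?_cons, Option.some.injEq] at h
      subst h
      exact ⟨y, rfl, tmul_of_head e y⟩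
  · right
    exact ⟨h, tmul_of_not e x h⟩

lemma tmul_red (e : Bool) (x : List (ℤ × Bool)) (hx : Red x) : Red (tmul e x) := by
  rcases tmul_cases e x with ⟨y, hy, h⟩ | ⟨h1, h⟩
  · rw [h]; subst hy; exact ((Red_cons _ _ _).1 hx).2.2
  · rw [h, Red_cons]; exact ⟨⟨le_refl _, p_pos e⟩, h1, hx⟩

lemma tmul_tmul (e : Bool) (x : List (ℤ × Bool)) (hx : Red x) : tmul (!e) (tmul e x) = x := by
  rcases tmul_cases e x with ⟨y, hy, h⟩ | ⟨h1, h⟩
  · rw [h]; subst hy
    have := ((Red_cons _ _ _).1 hx).2.1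
    rw [tmul_of_not _ _ this]
  · rw [h]
    have := tmul_of_head (!e) x
    rwa [Bool.not_not] at this

lemma shift_tmul (e : Bool) (m : ℤ) (x : List (ℤ × Bool)) (hx : Red x) :
    shiftL (p e * m) (tmul e x) = tmul e (shiftL (p (!e) * m) x) ∧
    shiftC (p e * m) (tmul e x) = shiftC (p (!e) * m) x := by
  rcases tmul_cases e x with ⟨y, hy, h⟩ | ⟨h1, h⟩
  · rw [h]; subst hy
    have hp := (p_pos (!e)).ne'
    simp only [shiftL_cons, shiftC_cons, add_zero, Int.mul_emod_right, Bool.not_not,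
      Int.mul_ediv_cancel_left _ hp, and_true]
    rw [tmul_of_head]
  · rw [h, tmul_of_not _ _ (shiftL_head_ne m e x hx h1)]
    have hp := (p_pos e).ne'
    simp only [shiftL_cons, shiftC_cons, add_zero, Int.mul_emod_right,
      Int.mul_ediv_cancel_left _ hp, and_self]

/-- normal forms -/
abbrev NF := {x : List (ℤ × Bool) // Red x} × ℤ

/-- the odometer as a permutation of normal forms -/
def permA : Equiv.Perm NF where
  toFun ν := (⟨shiftL 1 ν.1.1, shiftL_red _ _ ν.1.2⟩, shiftC 1 ν.1.1 + ν.2)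
  invFun ν := (⟨shiftL (-1) ν.1.1, shiftL_red _ _ ν.1.2⟩, shiftC (-1) ν.1.1 + ν.2)
  left_inv := by
    rintro ⟨⟨x, hx⟩, k⟩
    have h := shift_zero x hx
    have h2 := shiftC_add (-1) 1 x
    have h3 := shiftL_add (-1) 1 x
    norm_num at h2 h3
    simp only [Prod.mk.injEq, Subtype.mk.injEq]
    rw [h3, h.1]
    refine ⟨rfl, ?_⟩
    rw [← add_assoc, h2, h.2, zero_add]
  right_inv := by
    rintro ⟨⟨x, hx⟩, k⟩
    have h := shift_zero x hx
    have h2 := shiftC_add 1 (-1) x
    have h3 := shiftL_add 1 (-1) x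
    norm_num at h2 h3
    simp only [Prod.mk.injEq, Subtype.mk.injEq]
    rw [h3, h.1]
    refine ⟨rfl, ?_⟩
    rw [← add_assoc, h2, h.2, zero_add]

/-- the stable letter as a permutation of normal forms -/
def permT : Equiv.Perm NF where
  toFun ν := (⟨tmul true ν.1.1, tmul_red _ _ ν.1.2⟩, ν.2)
  invFun ν := (⟨tmul false ν.1.1, tmul_red _ _ ν.1.2⟩, ν.2)
  left_inv := by
    rintro ⟨⟨x, hx⟩, k⟩
    simp only [Prod.mk.injEq, Subtype.mk.injEq, and_true]
    exact tmul_tmul true x hx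
  right_inv := by
    rintro ⟨⟨x, hx⟩, k⟩
    simp only [Prod.mk.injEq, Subtype.mk.injEq, and_true]
    exact tmul_tmul false x hx

lemma NF_ext {ν μ : NF} (h1 : ν.1.1 = μ.1.1) (h2 : ν.2 = μ.2) : ν = μ := by
  obtain ⟨⟨x, hx⟩, k⟩ := ν
  obtain ⟨⟨y, hy⟩, l⟩ := μ
  simp only at h1 h2
  subst h1; subst h2; rfl

lemma permA_pow (n : ℕ) (ν : NF) :
    ((permA ^ n) ν).1.1 = shiftL n ν.1.1 ∧ ((permA ^ n) ν).2 = shiftC n ν.1.1 + ν.2 := by
  induction n generalizing ν with
  | zero =>
    have := shift_zero ν.1.1 ν.1.2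
    simp [this.1, this.2]
  | succ n ih =>
    rw [pow_succ, Equiv.Perm.mul_apply]
    obtain ⟨h1, h2⟩ := ih (permA ν)
    rw [h1, h2]
    constructor
    · change shiftL n (shiftL 1 ν.1.1) = _
      rw [shiftL_add]; push_cast; rfl
    · change shiftC n (shiftL 1 ν.1.1) + (shiftC 1 ν.1.1 + ν.2) = _
      rw [← add_assoc, shiftC_add]; push_cast; rfl

lemma perm_rel : permT * permA ^ 3 = permA ^ 5 * permT := by
  ext1 ν
  rw [Equiv.Perm.mul_apply, Equiv.Perm.mul_apply]
  obtain ⟨h1, h2⟩ := permA_pow 3 ν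
  obtain ⟨h3, h4⟩ := permA_pow 5 (permT ν)
  obtain ⟨h5, h6⟩ := shift_tmul true 1 ν.1.1 ν.1.2
  simp only [p, mul_one, if_true, Bool.not_true] at h5 h6
  apply NF_ext
  · rw [h3]
    change tmul true ((permA ^ 3) ν).1.1 = shiftL 5 (tmul true ν.1.1)
    rw [h1, h5]; norm_num
  · rw [h4]
    change ((permA ^ 3) ν).2 = shiftC 5 (tmul true ν.1.1) + ν.2
    rw [h2, h6]; norm_num

/-- the relator -/
def rel : FreeGroup (Fin 2) :=
  FreeGroup.of 1 * FreeGroup.of 0 ^ 3 * (FreeGroup.of 1)⁻¹ * (FreeGroup.of 0 ^ 5)⁻¹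

/-- the group BS(3,5) -/
abbrev G := PresentedGroup ({rel} : Set (FreeGroup (Fin 2)))

/-- generator a -/
def a : G := PresentedGroup.of 0
/-- generator t -/
def t : G := PresentedGroup.of 1

lemma rel_eq : t * a ^ 3 * t⁻¹ = a ^ 5 := by
  have h : PresentedGroup.mk ({rel} : Set (FreeGroup (Fin 2))) rel = 1 :=
    PresentedGroup.one_of_mem (Set.mem_singleton _)
  have h2 : PresentedGroup.mk ({rel} : Set (FreeGroup (Fin 2))) rel =
      t * a ^ 3 * t⁻¹ * (a ^ 5)⁻¹ := by
    conv_lhs => arg 2; unfold rel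
    simp only [map_mul, map_pow, map_inv, a, t, PresentedGroup.of]
  rw [h2, mul_inv_eq_one] at h
  exact h

/-- induction on the group -/
lemma G_induction {P : G → Prop} (h1 : P 1) (ha : ∀ g, P g → P (a * g))
    (ha' : ∀ g, P g → P (a⁻¹ * g)) (ht : ∀ g, P g → P (t * g)) (ht' : ∀ g, P g → P (t⁻¹ * g))
    (g : G) : P g := by
  obtain ⟨w, rfl⟩ := PresentedGroup.mk_surjective _ g
  obtain ⟨u, rfl⟩ : ∃ u, FreeGroup.mk u = w := ⟨w.toWord, FreeGroup.mk_toWord⟩
  induction u with
  | nil => exact h1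
  | cons x u ih =>
    have hx : FreeGroup.mk (x :: u) = FreeGroup.mk [x] * FreeGroup.mk u := by
      rw [FreeGroup.mul_mk]; rfl
    rw [hx, map_mul]
    obtain ⟨i, b⟩ := x
    fin_cases i
    · cases b
      · exact ha' _ ih
      · exact ha _ ih
    · cases b
      · exact ht' _ ih
      · exact ht _ ih

/-- generator images -/
def genPerm : Fin 2 → Equiv.Perm NF := fun i => if i = 0 then permA else permT

/-- the action on normal forms -/
def Φ : G →* Equiv.Perm NF :=
  PresentedGroup.toGroup (f := genPerm) (rels := {rel}) (by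
    intro r hr
    rw [Set.mem_singleton_iff] at hr
    subst hr
    simp only [rel, map_mul, map_pow, map_inv, FreeGroup.lift_apply_of, genPerm]
    simp only [if_true, Fin.isValue, one_ne_zero, if_false]
    rw [perm_rel]
    group)

lemma Φ_a : Φ a = permA := by
  unfold Φ a
  rw [PresentedGroup.toGroup.of]; rfl

lemma Φ_t : Φ t = permT := by
  unfold Φ t
  rw [PresentedGroup.toGroup.of]; rfl

end Pool.Agent.Helper288.BS
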