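import Pool.Agent.Helper288.BSEll

set_option autoImplicit false

namespace Pool.Agent.Helper288.BS

/-- the projection from words in the free group -/
def pr (w : FreeGroup (Fin 2)) : G := PresentedGroup.mk ({rel} : Set (FreeGroup (Fin 2))) w

lemma pr_mul (u v : FreeGroup (Fin 2)) : pr (u * v) = pr u * pr v := map_mul _ _ _
lemma pr_one : pr 1 = 1 := map_one _
lemma pr_inv (u : FreeGroup (Fin 2)) : pr u⁻¹ = (pr u)⁻¹ := map_inv _ _
lemma pr_pow (u : FreeGroup (Fin 2)) (n : ℕ) : pr (u ^ n) = pr u ^ n := map_pow _ _ _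
lemma pr_a : pr (FreeGroup.of 0) = a := rfl
lemma pr_t : pr (FreeGroup.of 1) = t := rfl

/-- the cochain -/
def phi (g : G) : ℤ := if nl g = [] ∧ (nf g).2 % 5 = 0 then (nf g).2 / 5 else 0

lemma phi_step (g : G) : |phi g - phi (g * a ^ 5)| ≤ 1 := by
  have h := nf_mul_zpow g 5
  have e : g * a ^ (5 : ℤ) = g * a ^ 5 := by norm_cast
  rw [e] at h
  unfold phi
  rw [h.1, h.2]
  by_cases h1 : nl g = [] ∧ (nf g).2 % 5 = 0
  · rw [if_pos h1, if_pos ⟨h1.1, by omega⟩]
    have : ((nf g).2 + 5) / 5 = (nf g).2 / 5 + 1 := by omega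
    rw [this]; norm_num
  · rw [if_neg h1, if_neg]
    · simp
    · rintro ⟨h2, h3⟩
      exact h1 ⟨h2, by omega⟩

lemma phi_of_sig (g : G) (h : sig g ≠ 0) : phi g = 0 := by
  unfold phi
  rw [if_neg]
  rintro ⟨h1, -⟩
  apply h
  rw [nf_eq g, h1, ev_nil, one_mul, sig_a_zpow]

lemma phi_a_pow (m : ℕ) (h : m % 5 = 0) : phi (a ^ m) = (m / 5 : ℕ) := by
  have h1 := nf_zpow (m : ℤ)
  rw [zpow_natCast] at h1
  unfold phi
  rw [h1.1, h1.2, if_pos ⟨rfl, by omega⟩]
  push_cast; rfl

lemma phi_a_pow' (m : ℕ) (h : m % 5 ≠ 0) : phi (a ^ m) = 0 := by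
  have h1 := nf_zpow (m : ℤ)
  rw [zpow_natCast] at h1
  unfold phi
  rw [h1.1, h1.2, if_neg]
  rintro ⟨-, h2⟩
  omega

/-- generators acting on the cochain extension -/
def permP : Fin 2 → Equiv.Perm (G × ℤ) := fun i =>
  if i = 0 then
    { toFun := fun x => (x.1 * a, x.2)
      invFun := fun x => (x.1 * a⁻¹, x.2)
      left_inv := by intro x; simp
      right_inv := by intro x; simp }
  else
    { toFun := fun x => (x.1 * t, x.2 + phi x.1)
      invFun := fun x => (x.1 * t⁻¹, x.2 - phi (x.1 * t⁻¹))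
      left_inv := by intro x; simp
      right_inv := by intro x; simp }

/-- the action of the free group from the right -/
def actHom : FreeGroup (Fin 2) →* (Equiv.Perm (G × ℤ))ᵐᵒᵖ :=
  FreeGroup.lift (fun i => MulOpposite.op (permP i))

/-- right action -/
def act (w : FreeGroup (Fin 2)) : Equiv.Perm (G × ℤ) := (actHom w).unop

lemma act_mul (u v : FreeGroup (Fin 2)) (x : G × ℤ) : act (u * v) x = act v (act u x) := by
  unfold act; rw [map_mul, MulOpposite.unop_mul, Equiv.Perm.mul_apply]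

lemma act_one (x : G × ℤ) : act 1 x = x := by
  unfold act; rw [map_one]; rfl

lemma act_a (x : G × ℤ) : act (FreeGroup.of 0) x = (x.1 * a, x.2) := by
  unfold act actHom; rw [FreeGroup.lift_apply_of]; rfl

lemma act_t (x : G × ℤ) : act (FreeGroup.of 1) x = (x.1 * t, x.2 + phi x.1) := by
  unfold act actHom; rw [FreeGroup.lift_apply_of]; rfl

/-- the integral of the cochain along a word from a base point -/
def J (w : FreeGroup (Fin 2)) (g : G) : ℤ := (act w (g, 0)).2

lemma act_eq (w : FreeGroup (Fin 2)) (g : G) (n : ℤ) : act w (g, n) = (g * pr w, n + J w g) := by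
  have hof : ∀ i : Fin 2, ∀ (g : G) (n : ℤ),
      act (FreeGroup.of i) (g, n) = (g * pr (FreeGroup.of i), n + J (FreeGroup.of i) g) := by
    intro i g n
    unfold J
    fin_cases i
    · simp only [Fin.zero_eta, Fin.isValue]
      rw [act_a, act_a, pr_a]; simp
    · simp only [Fin.mk_one, Fin.isValue]
      rw [act_t, act_t, pr_t]; simp
  induction w using FreeGroup.induction_on generalizing g n with
  | C1 =>
    have : J 1 g = 0 := by unfold J; rw [act_one]
    rw [this, act_one, pr_one]; simp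
  | of i => exact hof i g n
  | inv_of i ih =>
    have key : ∀ (g : G) (n : ℤ), act (FreeGroup.of i)⁻¹ (g, n) =
        (g * (pr (FreeGroup.of i))⁻¹, n - J (FreeGroup.of i) (g * (pr (FreeGroup.of i))⁻¹)) := by
      intro g n
      have h1 := hof i (g * (pr (FreeGroup.of i))⁻¹)
        (n - J (FreeGroup.of i) (g * (pr (FreeGroup.of i))⁻¹))
      have h2 : act (FreeGroup.of i)⁻¹ (act (FreeGroup.of i) (g * (pr (FreeGroup.of i))⁻¹,
        n - J (FreeGroup.of i) (g * (pr (FreeGroup.of i))⁻¹))) = (g * (pr (FreeGroup.of i))⁻¹,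
        n - J (FreeGroup.of i) (g * (pr (FreeGroup.of i))⁻¹)) := by
        rw [← act_mul, mul_inv_cancel, act_one]
      rw [h1] at h2
      simp only [inv_mul_cancel_right, sub_add_cancel] at h2
      exact h2
    have h3 : J (FreeGroup.of i)⁻¹ g = - J (FreeGroup.of i) (g * (pr (FreeGroup.of i))⁻¹) := by
      have : J (FreeGroup.of i)⁻¹ g = (act (FreeGroup.of i)⁻¹ (g, 0)).2 := rfl
      rw [this, key]; simp
    rw [key, h3, pr_inv]; rfl
  | mul u v ihu ihv =>
    have h1 : J (u * v) g = J u g + J v (g * pr u) := by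
      have : J (u * v) g = (act (u * v) (g, 0)).2 := rfl
      rw [this, act_mul, ihu, ihv]; simp
    rw [act_mul, ihu, ihv, h1, pr_mul]
    simp only [Prod.mk.injEq]
    exact ⟨by group, by ring⟩

lemma J_mul (u v : FreeGroup (Fin 2)) (g : G) : J (u * v) g = J u g + J v (g * pr u) := by
  have : J (u * v) g = (act (u * v) (g, 0)).2 := rfl
  rw [this, act_mul, act_eq, act_eq]; simp

lemma J_one (g : G) : J 1 g = 0 := by unfold J; rw [act_one]

lemma J_inv (u : FreeGroup (Fin 2)) (g : G) : J u⁻¹ g = - J u (g * (pr u)⁻¹) := by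
  have h := J_mul u⁻¹ u g
  rw [inv_mul_cancel, J_one, pr_inv] at h
  linarith

lemma J_a (g : G) : J (FreeGroup.of 0) g = 0 := by unfold J; rw [act_a]
lemma J_t (g : G) : J (FreeGroup.of 1) g = phi g := by unfold J; rw [act_t]; simp

lemma J_a_pow (n : ℕ) (g : G) : J (FreeGroup.of 0 ^ n) g = 0 := by
  induction n generalizing g with
  | zero => simp [J_one]
  | succ n ih => rw [pow_succ, J_mul, ih, J_a, add_zero]

lemma J_rel (g : G) : J rel g = phi g - phi (g * a ^ 5) := by
  have h := rel_eq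
  unfold rel
  rw [J_mul, J_mul, J_mul, J_t, J_a_pow, J_inv, J_inv, J_a_pow, J_t, pr_mul, pr_pow, pr_a, pr_t]
  have : g * (t * a ^ 3) * t⁻¹ = g * a ^ 5 := by rw [← h]; group
  rw [this, add_zero, neg_zero, add_zero, ← sub_eq_add_neg]
  rfl

lemma J_bounded (w : FreeGroup (Fin 2)) (h : pr w = 1) : ∃ B : ℤ, ∀ g, |J w g| ≤ B := by
  have hw : w ∈ Subgroup.normalClosure ({rel} : Set (FreeGroup (Fin 2))) :=
    PresentedGroup.mk_eq_one_iff.1 h
  have hpr : ∀ u ∈ Subgroup.normalClosure ({rel} : Set (FreeGroup (Fin 2))), pr u = 1 :=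
    fun u hu => PresentedGroup.mk_eq_one_iff.2 hu
  unfold Subgroup.normalClosure at hw
  induction hw using Subgroup.closure_induction with
  | mem x hx =>
    obtain ⟨r, hr, hc⟩ := Group.mem_conjugatesOfSet_iff.1 hx
    rw [Set.mem_singleton_iff] at hr
    subst hr
    obtain ⟨c, rfl⟩ := isConj_iff.1 hc
    refine ⟨1, fun g => ?_⟩
    have h1 : pr rel = 1 := PresentedGroup.one_of_mem (Set.mem_singleton _)
    rw [J_mul, J_mul, J_inv, pr_mul, h1, mul_one]
    have h2 : g * pr c * (pr c)⁻¹ = g := by group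
    rw [h2, J_rel]
    have := phi_step (g * pr c)
    have e : J c g + (phi (g * pr c) - phi (g * pr c * a ^ 5)) + -J c g =
      phi (g * pr c) - phi (g * pr c * a ^ 5) := by ring
    rw [e]; exact this
  | one => exact ⟨0, fun g => by rw [J_one]; simp⟩
  | mul x y hx hy ihx ihy =>
    have hx1 : pr x = 1 := hpr x hx
    have hy1 : pr y = 1 := hpr y hy
    obtain ⟨B1, h1⟩ := ihx hx1
    obtain ⟨B2, h2⟩ := ihy hy1
    refine ⟨B1 + B2, fun g => ?_⟩
    rw [J_mul]
    exact (abs_add_le _ _).trans (add_le_add (h1 _) (h2 _))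
  | inv x hx ihx =>
    have hx1 : pr x = 1 := hpr x hx
    obtain ⟨B1, h1⟩ := ihx hx1
    refine ⟨B1, fun g => ?_⟩
    rw [J_inv, abs_neg]
    exact h1 _

/-- words -/
abbrev Wd := List (Fin 2 × Bool)

/-- evaluation of words -/
def E (u : Wd) : G := PresentedGroup.mk ({rel} : Set (FreeGroup (Fin 2))) (FreeGroup.mk u)

/-- integral along words -/
def I (u : Wd) (g : G) : ℤ := J (FreeGroup.mk u) g

lemma E_append (u v : Wd) : E (u ++ v) = E u * E v := by
  unfold E; rw [← FreeGroup.mul_mk, map_mul]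

lemma E_nil : E [] = 1 := by
  unfold E; rw [← FreeGroup.one_eq_mk, map_one]

lemma I_append (u v : Wd) (g : G) : I (u ++ v) g = I u g + I v (g * E u) := by
  unfold I; rw [← FreeGroup.mul_mk, J_mul]; rfl

lemma I_nil (g : G) : I [] g = 0 := by
  unfold I; rw [← FreeGroup.one_eq_mk, J_one]

lemma I_bounded (n : ℕ) : ∃ C : ℕ, ∀ u v : Wd, u.length ≤ n → v.length ≤ n → E u = E v →
    ∀ g, |I u g - I v g| ≤ C := by
  have hfin : Set.Finite {x : Wd × Wd | x.1.length ≤ n ∧ x.2.length ≤ n} := by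
    have h := List.finite_length_le (Fin 2 × Bool) n
    exact (h.prod h)
  have hex : ∀ x : Wd × Wd, ∃ B : ℕ, E x.1 = E x.2 → ∀ g, |I x.1 g - I x.2 g| ≤ B := by
    rintro ⟨u, v⟩
    by_cases h : E u = E v
    · have h1 : pr (FreeGroup.mk u * (FreeGroup.mk v)⁻¹) = 1 := by
        rw [pr_mul, pr_inv]
        exact mul_inv_eq_one.2 h
      obtain ⟨B, hB⟩ := J_bounded _ h1
      refine ⟨B.toNat, fun _ g => ?_⟩
      have h2 := hB g
      rw [J_mul, J_inv] at h2
      have h3 : g * pr (FreeGroup.mk u) * (pr (FreeGroup.mk v))⁻¹ = g := by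
        have : pr (FreeGroup.mk u) = pr (FreeGroup.mk v) := h
        rw [this]; group
      rw [h3] at h2
      have h4 : I u g - I v g = J (FreeGroup.mk u) g + -J (FreeGroup.mk v) g := by
        unfold I; ring
      simp only
      rw [h4]
      exact h2.trans (Int.self_le_toNat B)
    · exact ⟨0, fun h' => absurd h' h⟩
  choose B hB using hex
  obtain ⟨C, hC⟩ := (hfin.image B).bddAbove
  refine ⟨C, fun u v hu hv huv g => ?_⟩
  have h1 := hB (u, v) huv g
  have h2 : B (u, v) ≤ C := hC ⟨(u, v), ⟨hu, hv⟩, rfl⟩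
  exact h1.trans (by exact_mod_cast h2)

end Pool.Agent.Helper288.BS
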