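import Pool.Agent.Helper288.BSLen

set_option autoImplicit false

namespace Pool.Agent.Helper288.BS

/-- exponent sum of the stable letter -/
def sigHom : G →* Multiplicative ℤ :=
  PresentedGroup.toGroup (f := fun i : Fin 2 => Multiplicative.ofAdd (if i = 0 then 0 else 1))
    (rels := {rel}) (by
    intro r hr
    rw [Set.mem_singleton_iff] at hr
    subst hr
    simp only [rel, map_mul, map_pow, map_inv, FreeGroup.lift_apply_of]
    simp)

/-- exponent sum of the stable letter -/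
def sig (g : G) : ℤ := Multiplicative.toAdd (sigHom g)

lemma sig_one : sig 1 = 0 := by simp [sig]
lemma sig_mul (g h : G) : sig (g * h) = sig g + sig h := by simp [sig]
lemma sig_inv (g : G) : sig g⁻¹ = - sig g := by simp [sig]
lemma sig_zpow (g : G) (k : ℤ) : sig (g ^ k) = k * sig g := by simp [sig]
lemma sig_pow (g : G) (k : ℕ) : sig (g ^ k) = k * sig g := by simp [sig]
lemma sig_a : sig a = 0 := by
  unfold sig sigHom a; rw [PresentedGroup.toGroup.of]; simp
lemma sig_t : sig t = 1 := by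
  unfold sig sigHom t; rw [PresentedGroup.toGroup.of]; simp
lemma sig_tz (e : Bool) : sig (tz e) = if e then 1 else -1 := by
  cases e <;> simp [tz, sig_inv, sig_t]
lemma sig_a_zpow (k : ℤ) : sig (a ^ k) = 0 := by rw [sig_zpow, sig_a, mul_zero]

/-- minimal displacement -/
noncomputable def ell (g : G) : ℕ := sInf (Set.range (fun q : G => L (q⁻¹ * g * q)))

lemma ell_spec (g : G) : ∃ q : G, L (q⁻¹ * g * q) = ell g :=
  Nat.sInf_mem (Set.range_nonempty (fun q : G => L (q⁻¹ * g * q)))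

lemma ell_le (g q : G) : ell g ≤ L (q⁻¹ * g * q) := Nat.sInf_le ⟨q, rfl⟩

lemma ell_conj_le (h g : G) : ell (h * g * h⁻¹) ≤ ell g := by
  obtain ⟨q, hq⟩ := ell_spec g
  rw [← hq]
  have := ell_le (h * g * h⁻¹) (h * q)
  have e : (h * q)⁻¹ * (h * g * h⁻¹) * (h * q) = q⁻¹ * g * q := by group
  rwa [e] at this

lemma ell_conj (h g : G) : ell (h * g * h⁻¹) = ell g := by
  apply le_antisymm (ell_conj_le h g)
  have := ell_conj_le h⁻¹ (h * g * h⁻¹)
  have e : h⁻¹ * (h * g * h⁻¹) * h⁻¹⁻¹ = g := by group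
  rwa [e] at this

lemma nl_tz (e : Bool) : nl (tz e) = [(0, e)] := by
  have := (nf_tz_mul e 1).1
  rw [mul_one, nf_one.1] at this
  rw [this]; simp [tmul]

lemma nl_letter (i : ℤ) (e : Bool) (h0 : 0 ≤ i) (h1 : i < p e) : nl (a ^ i * tz e) = [(i, e)] := by
  rw [(nf_zpow_mul i (tz e)).1, nl_tz, shiftL_cons, shiftL_nil, add_zero, Int.emod_eq_of_lt h0 h1]

lemma L_sq_of_min (g : G) (hg : L g = ell g) (hpos : 0 < L g) : L (g * g) = 2 * L g := by
  have h1 := L_inv_mul g⁻¹ g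
  rw [inv_inv] at h1
  have hLi : ((nl g⁻¹).length : ℤ) = L g := by
    have := L_inv g
    unfold L at this ⊢
    exact_mod_cast this
  have hL : ((nl g).length : ℤ) = L g := rfl
  unfold D at h1
  rw [hLi, hL] at h1
  by_contra hne
  have hcp : 0 < cp (nl g⁻¹) (nl g) := by
    rcases Nat.eq_zero_or_pos (cp (nl g⁻¹) (nl g)) with h | h
    · exfalso; apply hne
      rw [h] at h1
      have : (L (g * g) : ℤ) = 2 * L g := by rw [h1]; ring
      exact_mod_cast this
    · exact h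
  -- heads
  rcases hx : nl g with _ | ⟨⟨i, e⟩, x⟩
  · rw [hx] at hcp; simp at hcp
  rcases hy : nl g⁻¹ with _ | ⟨⟨i', e'⟩, y⟩
  · rw [hy] at hcp; simp at hcp
  rw [hx, hy, cp_cons] at hcp
  have hie : (i', e') = (i, e) := by
    by_contra h
    rw [if_neg h] at hcp
    exact lt_irrefl _ hcp
  rw [hie] at hy
  have hred := nl_red g
  rw [hx, Red_cons] at hred
  have hnq : nl (a ^ i * tz e) = [(i, e)] := nl_letter i e hred.1.1 hred.1.2
  have hqq : ∃ q : G, nl q = [(i, e)] ∧ sig q = (if e then 1 else -1) := by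
    refine ⟨a ^ i * tz e, hnq, ?_⟩
    rw [sig_mul, sig_a_zpow, sig_tz, zero_add]
  obtain ⟨q, hnq, hsq⟩ := hqq
  have c1 : cp (nl q) (nl g) = 1 := by rw [hnq, hx, cp_cons]; simp
  have c2 : cp (nl q) (nl g⁻¹) = 1 := by rw [hnq, hy, cp_cons]; simp
  have d1 : D (nl g) (nl (g * q)) = 1 := by
    have := D_mul g 1 q
    rw [mul_one] at this
    rw [this, nf_one.1, hnq]
    simp [D]
  have d2 : D (nl 1) (nl (g * q)) = L g - 1 := by
    have := D_mul g g⁻¹ q
    rw [mul_inv_cancel] at this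
    rw [this, D_comm]
    unfold D
    rw [c2, hLi, hnq]; simp; ring
  have hw : ((nl (g * q)).length : ℤ) = L g - 1 := by
    rw [← d2, nf_one.1]; simp [D]
  have c3 : (cp (nl g) (nl (g * q)) : ℤ) = L g - 1 := by
    unfold D at d1
    rw [hw, hL] at d1
    omega
  have d3 : (L (q⁻¹ * g * q) : ℤ) = L g - 2 * cp (nl q) (nl (g * q)) := by
    rw [mul_assoc, L_inv_mul]
    unfold D
    rw [hw, hnq]; simp
  have hmin := cp_ultra (nl q) (nl g) (nl (g * q))
  rw [c1] at hmin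
  have hle := ell_le g q
  rw [← hg] at hle
  by_cases h2 : 2 ≤ L g
  · have : 1 ≤ cp (nl q) (nl (g * q)) := by omega
    omega
  · have hL1 : L g = 1 := by omega
    -- g * q is a power of a
    have hz : L (g * q) = 0 := by
      unfold L
      have : ((nl (g * q)).length : ℤ) = 0 := by rw [hw, hL1]; simp
      exact_mod_cast this
    obtain ⟨k, hk⟩ := L_eq_zero _ hz
    have s1 : sig g + sig q = 0 := by rw [← sig_mul, hk, sig_a_zpow]
    have hx0 : x = [] := by
      have : (nl g).length = 1 := hL1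
      rw [hx] at this
      simpa using this
    have s2 : sig g = sig q := by
      rw [nf_eq g, sig_mul, sig_a_zpow, hx, hx0, ev_cons, ev_nil, mul_one, sig_mul, sig_a_zpow,
        sig_tz, hsq]
      ring
    rw [s2, hsq] at s1
    cases e <;> simp at s1

lemma L_pow_of_sq (g : G) (h : L (g * g) = 2 * L g) (n : ℕ) : L (g ^ n) = n * L g := by
  rcases Nat.eq_zero_or_pos (L g) with h0 | hpos
  · obtain ⟨k, hk⟩ := L_eq_zero g h0
    rw [h0, mul_zero, hk, ← zpow_natCast, ← zpow_mul, L_zpow_a]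
  have key : ∀ n : ℕ, L (g ^ n) = n * L g ∧ L (g ^ (n + 1)) = (n + 1) * L g := by
    intro n
    induction n with
    | zero => simp [L_one]
    | succ n ih =>
      obtain ⟨ih1, ih2⟩ := ih
      refine ⟨by exact_mod_cast ih2, ?_⟩
      have hub : L (g ^ (n + 1 + 1)) ≤ (n + 1 + 1) * L g := by
        have h3 := L_mul_le (g ^ (n + 1)) g
        rw [← pow_succ] at h3
        rw [ih2] at h3
        calc _ ≤ _ := h3
          _ = _ := by ring
      have h4 := L_four 1 (g ^ (n + 1)) (g ^ n) (g ^ (n + 1 + 1))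
      have e1 : (1 : G)⁻¹ * g ^ (n + 1) = g ^ (n + 1) := by group
      have e2 : (g ^ n)⁻¹ * g ^ (n + 1 + 1) = g * g := by
        rw [pow_succ, pow_succ, ← mul_assoc, ← mul_assoc]; simp
      have e3 : (1 : G)⁻¹ * g ^ n = g ^ n := by group
      have e4 : (g ^ (n + 1))⁻¹ * g ^ (n + 1 + 1) = g := by
        rw [pow_succ g (n + 1)]; group
      have e5 : (1 : G)⁻¹ * g ^ (n + 1 + 1) = g ^ (n + 1 + 1) := by group
      have e6 : (g ^ (n + 1))⁻¹ * g ^ n = g⁻¹ := by
        rw [pow_succ]; group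
      rw [e1, e2, e3, e4, e5, e6, ih1, ih2, h, L_inv] at h4
      apply le_antisymm (by exact_mod_cast hub)
      rcases le_max_iff.1 h4 with h5 | h5
      · exfalso; nlinarith
      · push_cast; nlinarith
  exact (key n).1

lemma ell_pow_conj (g : G) : ∃ q : G, ∀ n : ℕ, L (q⁻¹ * g ^ n * q) = n * ell g := by
  obtain ⟨q, hq⟩ := ell_spec g
  refine ⟨q, fun n => ?_⟩
  have hc : q⁻¹ * g ^ n * q = (q⁻¹ * g * q) ^ n := by
    have := conj_pow (i := n) (a := q⁻¹) (b := g)
    rw [inv_inv] at this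
    rw [this]
  have he : ell (q⁻¹ * g * q) = ell g := by
    have := ell_conj q⁻¹ g
    rwa [inv_inv] at this
  rw [hc]
  rcases Nat.eq_zero_or_pos (ell g) with h0 | hpos
  · rw [h0] at hq ⊢
    obtain ⟨k, hk⟩ := L_eq_zero _ hq
    rw [hk, ← zpow_natCast, ← zpow_mul, L_zpow_a, mul_zero]
  · rw [L_pow_of_sq, hq]
    apply L_sq_of_min
    · rw [hq, he]
    · rw [hq]; exact hpos

lemma ell_asymp (g : G) : ∃ C : ℕ, ∀ n : ℕ, n * ell g ≤ L (g ^ n) + C ∧ L (g ^ n) ≤ n * ell g + C := by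
  obtain ⟨q, hq⟩ := ell_pow_conj g
  refine ⟨2 * L q, fun n => ?_⟩
  constructor
  · rw [← hq n]
    have h1 := L_mul_le (q⁻¹ * g ^ n) q
    have h2 := L_mul_le q⁻¹ (g ^ n)
    rw [L_inv] at h2
    omega
  · rw [← hq n]
    have e : g ^ n = q * (q⁻¹ * g ^ n * q) * q⁻¹ := by group
    have h1 := L_mul_le (q * (q⁻¹ * g ^ n * q)) q⁻¹
    rw [L_inv] at h1
    have h2 := L_mul_le q (q⁻¹ * g ^ n * q)
    rw [← e] at h1
    omega

lemma le_of_asymp {α β C : ℕ} (h : ∀ n : ℕ, n * α ≤ n * β + C) : α ≤ β := by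
  by_contra hc
  push Not at hc
  have := h (C + 1)
  nlinarith

lemma ell_pow (g : G) (m : ℕ) : ell (g ^ m) = m * ell g := by
  obtain ⟨C, hC⟩ := ell_asymp g
  obtain ⟨C', hC'⟩ := ell_asymp (g ^ m)
  apply le_antisymm
  · apply le_of_asymp (C := C + C')
    intro n
    have h1 := (hC' n).1
    have h2 := (hC (m * n)).2
    rw [← pow_mul] at h1
    have : m * n * ell g = n * (m * ell g) := by ring
    omega
  · apply le_of_asymp (C := C + C')
    intro n
    have h1 := (hC' n).2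
    have h2 := (hC (m * n)).1
    rw [← pow_mul] at h1
    have : m * n * ell g = n * (m * ell g) := by ring
    omega

lemma ell_elliptic (g : G) (h : ell g = 0) : ∃ (q : G) (k : ℤ), g = q * a ^ k * q⁻¹ := by
  obtain ⟨q, hq⟩ := ell_spec g
  rw [h] at hq
  obtain ⟨k, hk⟩ := L_eq_zero _ hq
  exact ⟨q, k, by rw [← hk]; group⟩

lemma ell_inv (g : G) : ell g⁻¹ = ell g := by
  have key : ∀ g : G, ell g⁻¹ ≤ ell g := by
    intro g
    obtain ⟨q, hq⟩ := ell_spec g
    rw [← hq, ← L_inv]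
    have := ell_le g⁻¹ q
    have e : (q⁻¹ * g * q)⁻¹ = q⁻¹ * g⁻¹ * q := by group
    rwa [e]
  apply le_antisymm (key g)
  have := key g⁻¹
  rwa [inv_inv] at this

/-- four point inequalities on translation lengths of commuting elements -/
lemma four_commute (z w : G) (h : Commute z w) :
    (2 * ell z ≤ max (2 * ell w) (ell (z * w) + ell (z * w⁻¹))) ∧
    (2 * ell w ≤ max (2 * ell z) (ell (z * w) + ell (z * w⁻¹))) ∧
    (ell (z * w) + ell (z * w⁻¹) ≤ max (2 * ell z) (2 * ell w)) := by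
  obtain ⟨C1, h1⟩ := ell_asymp z
  obtain ⟨C2, h2⟩ := ell_asymp w
  obtain ⟨C3, h3⟩ := ell_asymp (z * w)
  obtain ⟨C4, h4⟩ := ell_asymp (z * w⁻¹)
  have hw' : Commute z w⁻¹ := h.inv_right
  have S : ∀ n : ℕ,
      (2 * L (z ^ n) ≤ max (2 * L (w ^ n)) (L ((z * w) ^ n) + L ((z * w⁻¹) ^ n))) ∧
      (2 * L (w ^ n) ≤ max (2 * L (z ^ n)) (L ((z * w) ^ n) + L ((z * w⁻¹) ^ n))) ∧
      (L ((z * w) ^ n) + L ((z * w⁻¹) ^ n) ≤ max (2 * L (z ^ n)) (2 * L (w ^ n))) := by
    intro n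
    have hn : Commute (z ^ n) (w ^ n) := h.pow_pow n n
    have p1 : (z * w) ^ n = z ^ n * w ^ n := h.mul_pow n
    have p2 : (z * w⁻¹) ^ n = z ^ n * (w ^ n)⁻¹ := by rw [hw'.mul_pow, inv_pow]
    have e1 : (1 : G)⁻¹ * z ^ n = z ^ n := by group
    have e2 : (w ^ n)⁻¹ * (z ^ n * w ^ n) = z ^ n := by rw [hn.eq]; group
    have e3 : (1 : G)⁻¹ * w ^ n = w ^ n := by group
    have e4 : (z ^ n)⁻¹ * (z ^ n * w ^ n) = w ^ n := by group
    have e5 : (1 : G)⁻¹ * (z ^ n * w ^ n) = z ^ n * w ^ n := by group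
    have e6 : L ((z ^ n)⁻¹ * w ^ n) = L (z ^ n * (w ^ n)⁻¹) := by
      rw [← L_inv]
      have : ((z ^ n)⁻¹ * w ^ n)⁻¹ = z ^ n * (w ^ n)⁻¹ := by
        rw [mul_inv_rev, inv_inv]
        exact (hn.symm.inv_left).eq
      rw [this]
    have e7 : L ((w ^ n)⁻¹ * z ^ n) = L (z ^ n * (w ^ n)⁻¹) := by
      rw [← e6, ← L_inv]; congr 1; group
    have e8 : L ((z ^ n * w ^ n)⁻¹ * w ^ n) = L (z ^ n) := by
      rw [← L_inv]
      congr 1
      rw [hn.eq]; group
    have e9 : L ((z ^ n * w ^ n)⁻¹ * z ^ n) = L (w ^ n) := by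
      rw [← L_inv]
      congr 1
      group
    have f1 := L_four 1 (z ^ n) (w ^ n) (z ^ n * w ^ n)
    have f2 := L_four 1 (w ^ n) (z ^ n) (z ^ n * w ^ n)
    have f3 := L_four 1 (z ^ n * w ^ n) (z ^ n) (w ^ n)
    rw [e1, e2, e3, e4, e5, e6] at f1
    rw [e1, e2, e3, e4, e5, e7] at f2
    rw [e1, e3, e5, e6, e8, e9] at f3
    rw [p1, p2]
    refine ⟨?_, ?_, ?_⟩
    · rw [two_mul, two_mul]; exact f1
    · rw [two_mul, two_mul]; exact f2
    · rw [two_mul, two_mul]; exact f3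
  have big : ∀ {α β γ : ℕ} (C : ℕ), (∀ n : ℕ, n * α ≤ max (n * β) (n * γ) + C) → α ≤ max β γ := by
    intro α β γ C hh
    apply le_of_asymp (C := C)
    intro n
    have := hh n
    rw [Nat.mul_max_mul_left] at this
    exact this
  refine ⟨?_, ?_, ?_⟩
  · apply big (2 * C1 + 2 * C2 + C3 + C4)
    intro n
    have := (S n).1
    have a1 := h1 n
    have a2 := h2 n
    have a3 := h3 n
    have a4 := h4 n
    have r1 : n * (2 * ell z) = 2 * (n * ell z) := by ring
    have r2 : n * (2 * ell w) = 2 * (n * ell w) := by ring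
    rw [r1, r2, mul_add]
    omega
  · apply big (2 * C1 + 2 * C2 + C3 + C4)
    intro n
    have := (S n).2.1
    have a1 := h1 n
    have a2 := h2 n
    have a3 := h3 n
    have a4 := h4 n
    have r1 : n * (2 * ell z) = 2 * (n * ell z) := by ring
    have r2 : n * (2 * ell w) = 2 * (n * ell w) := by ring
    rw [r1, r2, mul_add]
    omega
  · apply big (2 * C1 + 2 * C2 + C3 + C4)
    intro n
    have := (S n).2.2
    have a1 := h1 n
    have a2 := h2 n
    have a3 := h3 n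
    have a4 := h4 n
    have r1 : n * (2 * ell z) = 2 * (n * ell z) := by ring
    have r2 : n * (2 * ell w) = 2 * (n * ell w) := by ring
    rw [r1, r2, mul_add]
    omega

end Pool.Agent.Helper288.BS
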