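import Pool.Agent.Helper288.BSBasic

set_option autoImplicit false

namespace Pool.Agent.Helper288.BS

lemma Φ_a_apply (ν : NF) :
    (Φ a ν).1.1 = shiftL 1 ν.1.1 ∧ (Φ a ν).2 = shiftC 1 ν.1.1 + ν.2 := by
  rw [Φ_a]; exact ⟨rfl, rfl⟩

lemma Φ_a_inv_apply (ν : NF) :
    (Φ a⁻¹ ν).1.1 = shiftL (-1) ν.1.1 ∧ (Φ a⁻¹ ν).2 = shiftC (-1) ν.1.1 + ν.2 := by
  rw [map_inv, Φ_a]; exact ⟨rfl, rfl⟩

/-- signed stable letter -/
def tz (e : Bool) : G := if e then t else t⁻¹

lemma Φ_tz_apply (e : Bool) (ν : NF) :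
    (Φ (tz e) ν).1.1 = tmul e ν.1.1 ∧ (Φ (tz e) ν).2 = ν.2 := by
  cases e
  · simp only [tz, Bool.false_eq_true, if_false]
    rw [map_inv, Φ_t]; exact ⟨rfl, rfl⟩
  · simp only [tz, if_true]
    rw [Φ_t]; exact ⟨rfl, rfl⟩

lemma Φ_zpow (k : ℤ) (ν : NF) :
    (Φ (a ^ k) ν).1.1 = shiftL k ν.1.1 ∧ (Φ (a ^ k) ν).2 = shiftC k ν.1.1 + ν.2 := by
  induction k using Int.induction_on generalizing ν with
  | zero =>
    have := shift_zero ν.1.1 ν.1.2
    simp [this.1, this.2]
  | succ n ih =>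
    rw [zpow_add, zpow_one, map_mul, Equiv.Perm.mul_apply]
    obtain ⟨h1, h2⟩ := ih (Φ a ν)
    obtain ⟨h3, h4⟩ := Φ_a_apply ν
    rw [h1, h2, h3, h4, shiftL_add, ← add_assoc, shiftC_add]
    exact ⟨rfl, rfl⟩
  | pred n ih =>
    rw [sub_eq_add_neg, zpow_add, zpow_neg_one, map_mul, Equiv.Perm.mul_apply]
    obtain ⟨h1, h2⟩ := ih (Φ a⁻¹ ν)
    obtain ⟨h3, h4⟩ := Φ_a_inv_apply ν
    rw [h1, h2, h3, h4, shiftL_add, ← add_assoc, shiftC_add]
    exact ⟨rfl, rfl⟩

lemma tz_rel (e : Bool) : a ^ (p e) * tz e = tz e * a ^ (p (!e)) := by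
  have h := rel_eq
  have h5 : a ^ (5 : ℤ) = a ^ 5 := by norm_cast
  have h3 : a ^ (3 : ℤ) = a ^ 3 := by norm_cast
  cases e
  · simp only [p, tz, Bool.false_eq_true, if_false, Bool.not_false, if_true]
    rw [h5, h3, ← h]; group
  · simp only [p, tz, if_true, Bool.not_true, Bool.false_eq_true, if_false]
    rw [h5, h3, ← h]; group

lemma tz_rel_mul (e : Bool) (m : ℤ) : a ^ (p e * m) * tz e = tz e * a ^ (p (!e) * m) := by
  have h := tz_rel e
  have h2 : a ^ (p e) = tz e * a ^ (p (!e)) * (tz e)⁻¹ := by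
    rw [← h]; group
  rw [zpow_mul, zpow_mul, h2, conj_zpow]
  group

/-- evaluation of a list -/
def ev : List (ℤ × Bool) → G
  | [] => 1
  | (i, e) :: x => a ^ i * tz e * ev x

@[simp] lemma ev_nil : ev [] = 1 := rfl
lemma ev_cons (i : ℤ) (e : Bool) (x : List (ℤ × Bool)) : ev ((i, e) :: x) = a ^ i * tz e * ev x := rfl

lemma ev_shift (j : ℤ) (x : List (ℤ × Bool)) : a ^ j * ev x = ev (shiftL j x) * a ^ shiftC j x := by
  induction x generalizing j with
  | nil => simp
  | cons l x ih =>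
    obtain ⟨i, e⟩ := l
    rw [shiftL_cons, shiftC_cons, ev_cons, ev_cons, mul_assoc _ (ev _) (a ^ _), ← ih,
      ← mul_assoc, ← mul_assoc, ← zpow_add]
    have h1 : j + i = (j + i) % p e + p e * ((j + i) / p e) :=
      (Int.emod_add_mul_ediv _ _).symm
    conv_lhs => rw [h1, zpow_add, mul_assoc (a ^ _) _ (tz e), tz_rel_mul]
    group

lemma tz_not (e : Bool) : tz e * tz (!e) = 1 := by
  cases e <;> simp [tz]

lemma ev_tmul (e : Bool) (x : List (ℤ × Bool)) : tz e * ev x = ev (tmul e x) := by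
  rcases tmul_cases e x with ⟨y, hy, h⟩ | ⟨h1, h⟩
  · rw [h]; subst hy
    rw [ev_cons, zpow_zero, one_mul, ← mul_assoc, tz_not, one_mul]
  · rw [h, ev_cons, zpow_zero, one_mul]

/-- evaluation of a normal form -/
def eN (ν : NF) : G := ev ν.1.1 * a ^ ν.2

lemma eN_step_a (k : ℤ) (ν : NF) : a ^ k * eN ν = eN (Φ (a ^ k) ν) := by
  obtain ⟨h1, h2⟩ := Φ_zpow k ν
  unfold eN
  rw [h1, h2, zpow_add, ← mul_assoc, ← mul_assoc, ev_shift]

lemma eN_step_t (e : Bool) (ν : NF) : tz e * eN ν = eN (Φ (tz e) ν) := by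
  obtain ⟨h1, h2⟩ := Φ_tz_apply e ν
  unfold eN
  rw [h1, h2, ← mul_assoc, ev_tmul]

lemma eN_act (g : G) (ν : NF) : g * eN ν = eN (Φ g ν) := by
  induction g using G_induction with
  | h1 => simp
  | ha g ih =>
    rw [mul_assoc, ih, map_mul, Equiv.Perm.mul_apply]
    have := eN_step_a 1 (Φ g ν)
    rwa [zpow_one] at this
  | ha' g ih =>
    rw [mul_assoc, ih, map_mul, Equiv.Perm.mul_apply]
    have := eN_step_a (-1) (Φ g ν)
    rwa [zpow_neg_one] at this
  | ht g ih =>
    rw [mul_assoc, ih, map_mul, Equiv.Perm.mul_apply]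
    exact eN_step_t true (Φ g ν)
  | ht' g ih =>
    rw [mul_assoc, ih, map_mul, Equiv.Perm.mul_apply]
    exact eN_step_t false (Φ g ν)

/-- base normal form -/
def base : NF := (⟨[], Red_nil⟩, 0)

/-- normal form of a group element -/
def nf (g : G) : NF := Φ g base

lemma eN_nf (g : G) : eN (nf g) = g := by
  unfold nf
  rw [← eN_act]
  simp [eN, base]

/-- underlying list -/
def nl (g : G) : List (ℤ × Bool) := (nf g).1.1

lemma nf_eq (g : G) : g = ev (nl g) * a ^ (nf g).2 := (eN_nf g).symm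

lemma nf_inj {g h : G} (h1 : nl g = nl h) (h2 : (nf g).2 = (nf h).2) : g = h := by
  rw [nf_eq g, nf_eq h, h1, h2]

lemma nl_red (g : G) : Red (nl g) := (nf g).1.2

/-- the right translation commutes with the action -/
lemma Φ_right (g : G) (ν : NF) (j : ℤ) :
    Φ g (ν.1, ν.2 + j) = ((Φ g ν).1, (Φ g ν).2 + j) := by
  induction g using G_induction generalizing ν j with
  | h1 => simp
  | ha g ih =>
    rw [map_mul, Equiv.Perm.mul_apply, ih, Equiv.Perm.mul_apply]
    apply NF_ext
    · rw [(Φ_a_apply _).1]; exact ((Φ_a_apply _).1).symm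
    · rw [(Φ_a_apply _).2, (Φ_a_apply _).2]; ring
  | ha' g ih =>
    rw [map_mul, Equiv.Perm.mul_apply, ih, Equiv.Perm.mul_apply]
    apply NF_ext
    · rw [(Φ_a_inv_apply _).1]; exact ((Φ_a_inv_apply _).1).symm
    · rw [(Φ_a_inv_apply _).2, (Φ_a_inv_apply _).2]; ring
  | ht g ih =>
    rw [map_mul, Equiv.Perm.mul_apply, ih, Equiv.Perm.mul_apply]
    apply NF_ext
    · exact ((Φ_tz_apply true _).1).trans ((Φ_tz_apply true _).1).symm
    · exact ((Φ_tz_apply true _).2).trans
        (by rw [show t = tz true from rfl, (Φ_tz_apply true _).2])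
  | ht' g ih =>
    rw [map_mul, Equiv.Perm.mul_apply, ih, Equiv.Perm.mul_apply]
    apply NF_ext
    · exact ((Φ_tz_apply false _).1).trans ((Φ_tz_apply false _).1).symm
    · exact ((Φ_tz_apply false _).2).trans
        (by rw [show t⁻¹ = tz false from rfl, (Φ_tz_apply false _).2])

lemma nf_mul_zpow (g : G) (j : ℤ) : nl (g * a ^ j) = nl g ∧ (nf (g * a ^ j)).2 = (nf g).2 + j := by
  have h : nf (g * a ^ j) = ((nf g).1, (nf g).2 + j) := by
    unfold nf
    rw [map_mul, Equiv.Perm.mul_apply]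
    have h2 : Φ (a ^ j) base = (base.1, base.2 + j) := by
      apply NF_ext
      · rw [(Φ_zpow j base).1]; rfl
      · rw [(Φ_zpow j base).2]; simp [base]
    rw [h2, Φ_right]
  unfold nl
  rw [h]
  exact ⟨rfl, rfl⟩

lemma nf_zpow_mul (k : ℤ) (g : G) :
    nl (a ^ k * g) = shiftL k (nl g) ∧ (nf (a ^ k * g)).2 = shiftC k (nl g) + (nf g).2 := by
  unfold nl nf
  rw [map_mul, Equiv.Perm.mul_apply]
  exact Φ_zpow k _

lemma nf_tz_mul (e : Bool) (g : G) :
    nl (tz e * g) = tmul e (nl g) ∧ (nf (tz e * g)).2 = (nf g).2 := by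
  unfold nl nf
  rw [map_mul, Equiv.Perm.mul_apply]
  exact Φ_tz_apply e _

lemma nf_one : nl 1 = [] ∧ (nf 1).2 = 0 := by
  unfold nl nf; simp [base]

lemma nf_zpow (k : ℤ) : nl (a ^ k) = [] ∧ (nf (a ^ k)).2 = k := by
  have := nf_mul_zpow 1 k
  rw [one_mul, nf_one.1, nf_one.2, zero_add] at this
  exact this

lemma a_zpow_inj {j k : ℤ} (h : a ^ j = a ^ k) : j = k := by
  rw [← (nf_zpow j).2, ← (nf_zpow k).2, h]

/-- common beginning length -/
def cp : List (ℤ × Bool) → List (ℤ × Bool) → ℕ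
  | l :: x, m :: y => if l = m then cp x y + 1 else 0
  | _, _ => 0

@[simp] lemma cp_nil_left (y : List (ℤ × Bool)) : cp [] y = 0 := by simp [cp]
@[simp] lemma cp_nil_right (x : List (ℤ × Bool)) : cp x [] = 0 := by cases x <;> simp [cp]
lemma cp_cons (l m : ℤ × Bool) (x y : List (ℤ × Bool)) :
    cp (l :: x) (m :: y) = if l = m then cp x y + 1 else 0 := by simp [cp]

lemma cp_comm (x y : List (ℤ × Bool)) : cp x y = cp y x := by
  induction x generalizing y with
  | nil => simp
  | cons l x ih =>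
    cases y with
    | nil => simp
    | cons m y =>
      rw [cp_cons, cp_cons, ih]
      by_cases h : l = m
      · simp [h]
      · simp [h, Ne.symm h]

lemma cp_le_left (x y : List (ℤ × Bool)) : cp x y ≤ x.length := by
  induction x generalizing y with
  | nil => simp
  | cons l x ih =>
    cases y with
    | nil => simp
    | cons m y =>
      rw [cp_cons]
      split_ifs
      · simpa using ih y
      · simp

lemma cp_le_right (x y : List (ℤ × Bool)) : cp x y ≤ y.length := by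
  rw [cp_comm]; exact cp_le_left y x

lemma cp_self (x : List (ℤ × Bool)) : cp x x = x.length := by
  induction x with
  | nil => simp
  | cons l x ih => rw [cp_cons]; simp [ih]

lemma cp_ultra (x y z : List (ℤ × Bool)) : min (cp x y) (cp y z) ≤ cp x z := by
  induction x generalizing y z with
  | nil => simp
  | cons l x ih =>
    cases y with
    | nil => simp
    | cons m y =>
      cases z with
      | nil => simp
      | cons n z =>
        rw [cp_cons, cp_cons, cp_cons]
        by_cases h1 : l = m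
        · by_cases h2 : m = n
          · subst h1; subst h2
            have := ih y z
            simp only [if_true]
            omega
          · simp [h2]
        · simp [h1]

lemma cp_shift (j : ℤ) (x y : List (ℤ × Bool)) (hx : Red x) (hy : Red y) :
    cp (shiftL j x) (shiftL j y) = cp x y := by
  induction x generalizing y j with
  | nil => simp
  | cons l x ih =>
    cases y with
    | nil => simp
    | cons m y =>
      obtain ⟨i, e⟩ := l
      obtain ⟨i', e'⟩ := m
      rw [Red_cons] at hx hy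
      rw [shiftL_cons, shiftL_cons, cp_cons, cp_cons]
      by_cases h : (i, e) = (i', e')
      · simp only [Prod.mk.injEq] at h
        obtain ⟨rfl, rfl⟩ := h
        simp [ih _ _ hx.2.2 hy.2.2]
      · rw [if_neg h, if_neg]
        intro h2
        apply h
        simp only [Prod.mk.injEq] at h2 ⊢
        obtain ⟨h3, rfl⟩ := h2
        refine ⟨?_, rfl⟩
        have h4 : (j + i) ≡ (j + i') [ZMOD p e] := h3
        have h5 : i ≡ i' [ZMOD p e] := Int.ModEq.add_left_cancel' j h4
        have h6 : i % p e = i' % p e := h5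
        rwa [Int.emod_eq_of_lt hx.1.1 hx.1.2, Int.emod_eq_of_lt hy.1.1 hy.1.2] at h6

/-- tree distance on lists -/
def D (x y : List (ℤ × Bool)) : ℤ := x.length + y.length - 2 * cp x y

lemma D_comm (x y : List (ℤ × Bool)) : D x y = D y x := by
  unfold D; rw [cp_comm]; ring

lemma D_shift (j : ℤ) (x y : List (ℤ × Bool)) (hx : Red x) (hy : Red y) :
    D (shiftL j x) (shiftL j y) = D x y := by
  unfold D; rw [cp_shift j x y hx hy]; simp

lemma D_tmul (e : Bool) (x y : List (ℤ × Bool)) (hx : Red x) (hy : Red y) :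
    D (tmul e x) (tmul e y) = D x y := by
  have key : ∀ (x' y : List (ℤ × Bool)), x'.head? ≠ some (0, e) →
      y.head? ≠ some (0, !e) → D x' ((0, e) :: y) = D ((0, !e) :: x') y := by
    intro x' y h1 h2
    have c1 : cp x' ((0, e) :: y) = 0 := by
      cases x' with
      | nil => simp
      | cons l x' =>
        rw [cp_cons, if_neg]
        intro h; apply h1; simp [h]
    have c2 : cp ((0, !e) :: x') y = 0 := by
      cases y with
      | nil => simp
      | cons l y =>
        rw [cp_cons, if_neg]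
        intro h; apply h2; simp [h]
    unfold D
    rw [c1, c2]
    simp only [List.length_cons]
    push_cast; ring
  rcases tmul_cases e x with ⟨x', hx', h⟩ | ⟨h1, h⟩
  · rcases tmul_cases e y with ⟨y', hy', h'⟩ | ⟨h1', h'⟩
    · rw [h, h']
      subst hx'; subst hy'
      unfold D
      rw [cp_cons, if_pos rfl]
      simp only [List.length_cons]
      push_cast; ring
    · rw [h, h']
      subst hx'
      have h3 := ((Red_cons _ _ _).1 hx).2.1
      rw [Bool.not_not] at h3
      exact key x' y h3 h1'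
  · rcases tmul_cases e y with ⟨y', hy', h'⟩ | ⟨h1', h'⟩
    · rw [h, h']
      subst hy'
      have h3 := ((Red_cons _ _ _).1 hy).2.1
      rw [Bool.not_not] at h3
      rw [D_comm, key y' x h3 h1, D_comm]
    · rw [h, h']
      unfold D
      rw [cp_cons, if_pos rfl]
      simp only [List.length_cons]
      push_cast; ring

lemma D_act (g : G) (ν μ : NF) : D (Φ g ν).1.1 (Φ g μ).1.1 = D ν.1.1 μ.1.1 := by
  induction g using G_induction with
  | h1 => simp
  | ha g ih =>
    rw [map_mul, Equiv.Perm.mul_apply, Equiv.Perm.mul_apply, (Φ_a_apply _).1, (Φ_a_apply _).1,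
      D_shift _ _ _ (Φ g ν).1.2 (Φ g μ).1.2, ih]
  | ha' g ih =>
    rw [map_mul, Equiv.Perm.mul_apply, Equiv.Perm.mul_apply, (Φ_a_inv_apply _).1,
      (Φ_a_inv_apply _).1, D_shift _ _ _ (Φ g ν).1.2 (Φ g μ).1.2, ih]
  | ht g ih =>
    rw [map_mul, Equiv.Perm.mul_apply, Equiv.Perm.mul_apply, show t = tz true from rfl,
      (Φ_tz_apply true _).1, (Φ_tz_apply true _).1,
      D_tmul _ _ _ (Φ g ν).1.2 (Φ g μ).1.2, ih]
  | ht' g ih =>
    rw [map_mul, Equiv.Perm.mul_apply, Equiv.Perm.mul_apply, show t⁻¹ = tz false from rfl,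
      (Φ_tz_apply false _).1, (Φ_tz_apply false _).1,
      D_tmul _ _ _ (Φ g ν).1.2 (Φ g μ).1.2, ih]

/-- the length function -/
def L (g : G) : ℕ := (nl g).length

lemma L_one : L 1 = 0 := by unfold L; rw [nf_one.1]; rfl

/-- tree distance between group elements -/
lemma D_mul (g x y : G) : D (nl (g * x)) (nl (g * y)) = D (nl x) (nl y) := by
  have := D_act g (nf x) (nf y)
  unfold nl nf at *
  rw [map_mul, map_mul, Equiv.Perm.mul_apply, Equiv.Perm.mul_apply]
  exact this

lemma L_inv_mul (x y : G) : (L (x⁻¹ * y) : ℤ) = D (nl x) (nl y) := by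
  have := D_mul x⁻¹ x y
  rw [inv_mul_cancel] at this
  rw [← this, nf_one.1]
  unfold D L; simp

lemma L_inv (g : G) : L g⁻¹ = L g := by
  have h1 := L_inv_mul g 1
  have h2 := L_inv_mul 1 g
  rw [mul_one] at h1
  rw [inv_one, one_mul] at h2
  rw [D_comm] at h1
  exact_mod_cast h1.trans h2.symm

/-- four point inequality for lists -/
lemma D_four (x y z w : List (ℤ × Bool)) :
    D x y + D z w ≤ max (D x z + D y w) (D x w + D y z) := by
  have u : ∀ a b c : List (ℤ × Bool), min (cp a b) (cp b c) ≤ cp a c := cp_ultra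
  have h1 := u x z y
  have h2 := u x w y
  have h3 := u z x w
  have h4 := u z y w
  rw [cp_comm z x] at h3
  rw [cp_comm z y] at h4
  rw [cp_comm z y] at h1
  rw [cp_comm w y] at h2
  unfold D
  rw [le_max_iff]
  by_contra hcon
  push Not at hcon
  omega

lemma L_four (x y z w : G) :
    L (x⁻¹ * y) + L (z⁻¹ * w) ≤
      max (L (x⁻¹ * z) + L (y⁻¹ * w)) (L (x⁻¹ * w) + L (y⁻¹ * z)) := by
  have h := D_four (nl x) (nl y) (nl z) (nl w)
  rw [← L_inv_mul, ← L_inv_mul, ← L_inv_mul, ← L_inv_mul, ← L_inv_mul, ← L_inv_mul] at h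
  exact_mod_cast h

lemma L_mul_le (x y : G) : L (x * y) ≤ L x + L y := by
  have h := L_inv_mul x⁻¹ y
  rw [inv_inv] at h
  have h2 : D (nl x⁻¹) (nl y) ≤ (L x⁻¹ : ℤ) + L y := by unfold D L; omega
  rw [L_inv] at h2
  have : (L (x * y) : ℤ) ≤ L x + L y := by rw [h]; exact h2
  exact_mod_cast this

lemma L_eq_zero (g : G) (h : L g = 0) : ∃ k : ℤ, g = a ^ k := by
  unfold L at h
  rw [List.length_eq_zero_iff] at h
  refine ⟨(nf g).2, ?_⟩
  conv_lhs => rw [nf_eq g]
  rw [h]; simp

lemma L_zpow_a (k : ℤ) : L (a ^ k) = 0 := by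
  unfold L; rw [(nf_zpow k).1]; rfl

lemma L_mul_zpow_a (g : G) (k : ℤ) : L (g * a ^ k) = L g := by
  unfold L; rw [(nf_mul_zpow g k).1]

end Pool.Agent.Helper288.BS
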