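import Pool.Agent.Helper288.BSMetab

set_option autoImplicit false

namespace Pool.Agent.Helper288.BS

open scoped commutatorElement

lemma asymp_add (z u v : G) (hz : 0 < ell z) (hu : Commute u z) :
    ∃ k0 : ℕ, ∀ k ≥ k0, L (z ^ k * (u * v)) + L (z ^ k) = L (z ^ k * u) + L (z ^ k * v) := by
  obtain ⟨C, hC⟩ := ell_asymp z
  refine ⟨C + L u + L v + 1, fun k hk => ?_⟩
  have hbig : L u + L v < L (z ^ k) := by
    have := (hC k).1
    nlinarith
  have huk : Commute u (z ^ k) := hu.pow_right k
  have f1 := L_four (z ^ k)⁻¹ v ((z ^ k)⁻¹ * u⁻¹) 1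
  have f2 := L_four (z ^ k)⁻¹ 1 ((z ^ k)⁻¹ * u⁻¹) v
  have e1 : (z ^ k)⁻¹⁻¹ * v = z ^ k * v := by rw [inv_inv]
  have e2 : ((z ^ k)⁻¹ * u⁻¹)⁻¹ * 1 = z ^ k * u := by
    rw [mul_one, mul_inv_rev, inv_inv, inv_inv]; exact huk.eq
  have e3 : (z ^ k)⁻¹⁻¹ * ((z ^ k)⁻¹ * u⁻¹) = u⁻¹ := by group
  have e4 : v⁻¹ * 1 = v⁻¹ := by rw [mul_one]
  have e5 : (z ^ k)⁻¹⁻¹ * 1 = z ^ k := by rw [inv_inv, mul_one]
  have e6 : v⁻¹ * ((z ^ k)⁻¹ * u⁻¹) = (z ^ k * (u * v))⁻¹ := by
    rw [← mul_assoc (z ^ k), ← huk.eq]; group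
  have e7 : ((z ^ k)⁻¹ * u⁻¹)⁻¹ * v = z ^ k * (u * v) := by
    rw [mul_inv_rev, inv_inv, inv_inv, huk.eq, mul_assoc]
  have e8 : (1 : G)⁻¹ * v = v := by group
  have e9 : (1 : G)⁻¹ * ((z ^ k)⁻¹ * u⁻¹) = (z ^ k * u)⁻¹ := by
    rw [← huk.eq]; group
  rw [e1, e2, e3, e4, e5, e6, L_inv, L_inv, L_inv] at f1
  rw [e5, e7, e3, e8, e1, e9, L_inv, L_inv] at f2
  have g1 : L (z ^ k) ≤ L (z ^ k * u) + L u := by
    have := L_mul_le (z ^ k * u) u⁻¹
    rw [L_inv, mul_inv_cancel_right] at this
    exact this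
  have g2 : L (z ^ k) ≤ L (z ^ k * v) + L v := by
    have := L_mul_le (z ^ k * v) v⁻¹
    rw [L_inv, mul_inv_cancel_right] at this
    exact this
  omega

lemma central_elliptic (H : Subgroup G) (z : H) (hz : z ∈ commutator H)
    (hc : ∀ g : H, g * z = z * g) : ell (z : G) = 0 := by
  by_contra hne
  have hpos : 0 < ell (z : G) := Nat.pos_of_ne_zero hne
  have hcomm : ∀ g : H, Commute (g : G) (z : G) := by
    intro g
    have := congrArg (Subtype.val) (hc g)
    exact this
  let f : H →* Multiplicative (Filter.Germ (Filter.atTop : Filter ℕ) ℤ) :=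
    MonoidHom.mk' (fun u => Multiplicative.ofAdd
      ((fun k : ℕ => (L ((z : G) ^ k * u) : ℤ) - L ((z : G) ^ k) : ℕ → ℤ) :
        Filter.Germ (Filter.atTop : Filter ℕ) ℤ)) (by
      intro u v
      rw [← ofAdd_add]
      congr 1
      rw [← Filter.Germ.coe_add]
      apply Filter.Germ.coe_eq.2
      obtain ⟨k0, hk0⟩ := asymp_add (z : G) u v hpos (hcomm u)
      filter_upwards [Filter.eventually_ge_atTop k0] with k hk
      have := hk0 k hk
      simp only [Pi.add_apply, Subgroup.coe_mul]
      omega)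
  have hker : commutator H ≤ f.ker := Abelianization.commutator_subset_ker f
  have hfz : f z = 1 := hker hz
  have hgerm : ((fun k : ℕ => (L ((z : G) ^ k * z) : ℤ) - L ((z : G) ^ k) : ℕ → ℤ) :
        Filter.Germ (Filter.atTop : Filter ℕ) ℤ) = ((fun _ => 0 : ℕ → ℤ) : Filter.Germ _ ℤ) := hfz
  rw [Filter.Germ.coe_eq] at hgerm
  obtain ⟨k0, hk0⟩ := Filter.eventually_atTop.1 hgerm
  have hstab : ∀ m : ℕ, L ((z : G) ^ (k0 + m)) = L ((z : G) ^ k0) := by
    intro m
    induction m with
    | zero => rfl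
    | succ m ih =>
      have := hk0 (k0 + m) (by omega)
      simp only at this
      rw [← pow_succ, ih] at this
      have h2 : (L ((z : G) ^ (k0 + m + 1)) : ℤ) = L ((z : G) ^ k0) := by
        simpa [sub_eq_zero] using this
      exact_mod_cast h2
  obtain ⟨C, hC⟩ := ell_asymp (z : G)
  have h1 := (hC (k0 + (L ((z : G) ^ k0) + C + 1))).1
  rw [hstab] at h1
  nlinarith

lemma caseB (H : Subgroup G) (hN : ∀ x ∈ commutator H, ∀ y ∈ commutator H, x * y = y * x)
    (z : H) (hz : z ∈ commutator H) (ht : tau (z : G) = 0) : z = 1 := by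
  by_contra hz1
  have hz1' : (z : G) ≠ 1 := by
    intro h; apply hz1; exact Subtype.ext h
  have hsig : ∀ y : H, y ∈ commutator H → sig (y : G) = 0 := by
    intro y hy
    have : commutator H ≤ (sigHom.comp H.subtype).ker := Abelianization.commutator_subset_ker _
    have h2 := this hy
    have h3 : sigHom (y : G) = 1 := h2
    unfold sig; rw [h3]; rfl
  have hkey : ∀ g : H, g * z * g⁻¹ = z := by
    intro g
    have hmem : g * z * g⁻¹ ∈ commutator H :=
      (inferInstance : (commutator H).Normal).conj_mem z hz g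
    have hcm : Commute (z : G) ((g * z * g⁻¹ : H) : G) := by
      have := hN z hz _ hmem
      exact congrArg Subtype.val this
    have hcoe : ((g * z * g⁻¹ : H) : G) = (g : G) * z * (g : G)⁻¹ := by simp
    have htw : tau ((g * z * g⁻¹ : H) : G) = 0 := by
      rw [hcoe, tau_conj _ _ (hsig z hz), ht, mul_zero]
    have hell : ell ((g * z * g⁻¹ : H) : G) = ell (z : G) := by
      rw [hcoe, ell_conj]
    rcases pm_of_commute _ _ hcm ht htw hell with h | h
    · exact Subtype.ext h
    · exfalso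
      rw [hcoe] at h
      exact no_inversion (g : G) (z : G) hz1' ht h
  have hc : ∀ g : H, g * z = z * g := fun g => mul_inv_eq_iff_eq_mul.1 (hkey g)
  have := central_elliptic H z hz hc
  exact hz1' (K_elliptic _ ht this)

lemma cont_pow_three (k : ℕ) : cont (3 ^ k) = k := by
  induction k with
  | zero => simp [cont]
  | succ k ih => rw [pow_succ, cont_mul _ _ (by positivity) (by norm_num), ih, cont_three]

theorem metabelian_abelian (H : Subgroup G) (hH : derivedSeries H 2 = ⊥) :
    ∀ x y : H, x * y = y * x := by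
  have hN : ∀ x ∈ commutator H, ∀ y ∈ commutator H, x * y = y * x := by
    intro x hx y hy
    rw [← commutatorElement_eq_one_iff_mul_comm]
    have h1 : ⁅x, y⁆ ∈ derivedSeries H 2 := by
      rw [derivedSeries_succ, derivedSeries_one]
      exact Subgroup.commutator_mem_commutator hx hy
    rw [hH] at h1
    exact Subgroup.mem_bot.1 h1
  have hsig : ∀ y : H, y ∈ commutator H → sig (y : G) = 0 := by
    intro y hy
    have : commutator H ≤ (sigHom.comp H.subtype).ker := Abelianization.commutator_subset_ker _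
    have h2 := this hy
    have h3 : sigHom (y : G) = 1 := h2
    unfold sig; rw [h3]; rfl
  by_cases hs : ∀ h : H, sig (h : G) = 0
  · intro x y
    rw [← commutatorElement_eq_one_iff_mul_comm]
    apply caseB H hN
    · exact Subgroup.commutator_mem_commutator (Subgroup.mem_top x) (Subgroup.mem_top y)
    · have : ((⁅x, y⁆ : H) : G) = (x : G) * y * (x : G)⁻¹ * (y : G)⁻¹ := by
        rw [commutatorElement_def]; simp
      rw [this]
      simp only [tau_mul, tau_inv, sig_mul, sig_inv, hs x, hs y]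
      simp
  · push Not at hs
    obtain ⟨h, k, hk1, hk⟩ : ∃ (h : H) (k : ℕ), 1 ≤ k ∧ sig (h : G) = k := by
      obtain ⟨h, hh⟩ := hs
      rcases lt_or_gt_of_ne hh with h1 | h1
      · refine ⟨h⁻¹, (-(sig (h : G))).toNat, ?_, ?_⟩
        · omega
        · have : ((h⁻¹ : H) : G) = (h : G)⁻¹ := by simp
          rw [this, sig_inv]; omega
      · exact ⟨h, (sig (h : G)).toNat, by omega, by omega⟩
    -- properties of elements of N
    have h53 : (3 : ℚ) ^ k * (5 / 3 : ℚ) ^ k = 5 ^ k := by
      rw [← mul_pow]; norm_num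
    have hprop : ∀ c : H, c ∈ commutator H →
        ell (c : G) = 0 ∧ ∃ f : H, f ∈ commutator H ∧ f ^ (3 ^ k) = c := by
      intro c hc
      have hmem : h * c * h⁻¹ ∈ commutator H :=
        (inferInstance : (commutator H).Normal).conj_mem c hc h
      set c' : H := h * c * h⁻¹ with hc'
      have hcoe : (c' : G) = (h : G) * c * (h : G)⁻¹ := by simp [hc']
      have hsc := hsig c hc
      have hsc' := hsig c' hmem
      have htc' : tau (c' : G) = (5 / 3 : ℚ) ^ k * tau (c : G) := by
        rw [hcoe, tau_conj _ _ hsc, hk, zpow_natCast]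
      have heq : c' ^ (3 ^ k) = c ^ (5 ^ k) := by
        rw [← mul_inv_eq_one]
        apply caseB H hN
        · exact mul_mem (pow_mem hmem _) (inv_mem (pow_mem hc _))
        · have e : ((c' ^ (3 ^ k) * (c ^ (5 ^ k))⁻¹ : H) : G) =
              (c' : G) ^ (3 ^ k) * ((c : G) ^ (5 ^ k))⁻¹ := by simp
          rw [e, tau_mul, tau_inv, sig_pow, sig_pow, hsc, hsc', tau_pow _ hsc, tau_pow _ hsc',
            htc']
          push_cast
          simp only [mul_zero, zpow_zero, inv_one, one_mul]
          rw [← mul_assoc, h53]; ring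
      have hell : ell (c : G) = 0 := by
        have h1 : ell ((c' : G) ^ (3 ^ k)) = ell ((c : G) ^ (5 ^ k)) := by
          have := congrArg (Subtype.val) heq
          have h2 : (c' : G) ^ (3 ^ k) = (c : G) ^ (5 ^ k) := by simpa using this
          rw [h2]
        rw [ell_pow, ell_pow, hcoe, ell_conj] at h1
        have h2 : (3 : ℕ) ^ k < 5 ^ k := Nat.pow_lt_pow_left (by norm_num) (by omega)
        rcases Nat.eq_zero_or_pos (ell (c : G)) with h3 | h3
        · exact h3
        · nlinarith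
      refine ⟨hell, ?_⟩
      have hcop : IsCoprime ((3 : ℤ) ^ k) ((5 : ℤ) ^ k) := by
        apply IsCoprime.pow
        exact ⟨2, -1, by norm_num⟩
      obtain ⟨u, v, huv⟩ := hcop
      refine ⟨c ^ u * c' ^ v, mul_mem (zpow_mem hc _) (zpow_mem hmem _), ?_⟩
      rw [← mul_inv_eq_one]
      apply caseB H hN
      · exact mul_mem (pow_mem (mul_mem (zpow_mem hc _) (zpow_mem hmem _)) _) (inv_mem hc)
      · have e : (((c ^ u * c' ^ v) ^ (3 ^ k) * c⁻¹ : H) : G) =
            ((c : G) ^ u * (c' : G) ^ v) ^ (3 ^ k) * (c : G)⁻¹ := by simp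
        have hsf : sig ((c : G) ^ u * (c' : G) ^ v) = 0 := by
          rw [sig_mul, sig_zpow, sig_zpow, hsc, hsc']; ring
        rw [e, tau_mul, sig_pow, hsf, tau_pow _ hsf, tau_mul, sig_zpow, tau_zpow _ hsc,
          tau_zpow _ hsc', tau_inv, hsc, htc']
        have huv' : (u : ℚ) * 3 ^ k + v * 5 ^ k = 1 := by exact_mod_cast huv
        push_cast
        simp only [mul_zero, zpow_zero, inv_one, one_mul]
        rw [← h53] at huv'
        linear_combination (tau (c : G)) * huv'
    have hdesc : ∀ n : ℕ, ∀ c : H, c ∈ commutator H → c ≠ 1 → ∀ (q : G) (m : ℤ),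
        (c : G) = q * a ^ m * q⁻¹ → cont m ≠ n := by
      intro n
      induction n using Nat.strong_induction_on with
      | _ n ih =>
        intro c hc hc1 q m hcq hn
        obtain ⟨-, f, hf, hfc⟩ := hprop c hc
        have hf1 : f ≠ 1 := by
          rintro rfl; apply hc1; rw [← hfc, one_pow]
        obtain ⟨r, j, hrj⟩ := ell_elliptic (f : G) (hprop f hf).1
        have hm0 : m ≠ 0 := by
          rintro rfl; apply hc1; apply Subtype.ext; rw [hcq]; simp
        have hj0 : j ≠ 0 := by
          rintro rfl; apply hf1; apply Subtype.ext; rw [hrj]; simp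
        have hpow : r * a ^ ((3 : ℤ) ^ k * j) * r⁻¹ = q * a ^ m * q⁻¹ := by
          have h1 : (f : G) ^ (3 ^ k) = (c : G) := by
            have := congrArg (Subtype.val) hfc
            simpa using this
          rw [← hcq, ← h1, hrj, conj_pow, ← zpow_natCast (a ^ j), ← zpow_mul]
          congr 2
          push_cast; ring_nf
        have h2 : (q⁻¹ * r) * a ^ ((3 : ℤ) ^ k * j) * (q⁻¹ * r)⁻¹ = a ^ m := by
          have : (q⁻¹ * r) * a ^ ((3 : ℤ) ^ k * j) * (q⁻¹ * r)⁻¹ =
              q⁻¹ * (r * a ^ ((3 : ℤ) ^ k * j) * r⁻¹) * q := by group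
          rw [this, hpow]; group
        have h3 := (conj_cont _ _ _ h2 hm0).2
        rw [cont_mul _ _ (by positivity) hj0, cont_pow_three] at h3
        exact ih (cont j) (by omega) f hf hf1 r j hrj rfl
    intro x y
    rw [← commutatorElement_eq_one_iff_mul_comm]
    by_contra hne
    have hmem : ⁅x, y⁆ ∈ commutator H :=
      Subgroup.commutator_mem_commutator (Subgroup.mem_top x) (Subgroup.mem_top y)
    obtain ⟨q, m, hqm⟩ := ell_elliptic _ (hprop _ hmem).1
    exact hdesc (cont m) _ hmem hne q m hqm rfl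

end Pool.Agent.Helper288.BS
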