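import Pool.Agent.Helper288.BSEll

set_option autoImplicit false

namespace Pool.Agent.Helper288.BS

/-- generators acting on the affine line -/
def genAff : Fin 2 → Equiv.Perm ℚ := fun i =>
  if i = 0 then Equiv.addRight (1 : ℚ) else Equiv.mulLeft₀ (5 / 3 : ℚ) (by norm_num)

lemma addRight_pow (n : ℕ) (x : ℚ) : ((Equiv.addRight (1 : ℚ)) ^ n) x = x + n := by
  induction n generalizing x with
  | zero => simp
  | succ n ih => rw [pow_succ, Equiv.Perm.mul_apply, ih]; simp; ring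

/-- affine representation -/
def rho : G →* Equiv.Perm ℚ :=
  PresentedGroup.toGroup (f := genAff) (rels := {rel}) (by
    intro r hr
    rw [Set.mem_singleton_iff] at hr
    subst hr
    simp only [rel, map_mul, map_pow, map_inv, FreeGroup.lift_apply_of, genAff]
    simp only [if_true, Fin.isValue, one_ne_zero, if_false]
    rw [mul_inv_eq_one, mul_inv_eq_iff_eq_mul]
    ext1 x
    rw [Equiv.Perm.mul_apply, Equiv.Perm.mul_apply, addRight_pow, addRight_pow]
    simp only [Equiv.mulLeft₀_apply]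
    push_cast; ring)

lemma rho_a (x : ℚ) : rho a x = x + 1 := by
  unfold rho a
  rw [PresentedGroup.toGroup.of]; simp [genAff]

lemma rho_t (x : ℚ) : rho t x = 5 / 3 * x := by
  unfold rho t
  rw [PresentedGroup.toGroup.of]; simp [genAff]

lemma rho_a_inv (x : ℚ) : rho a⁻¹ x = x - 1 := by
  rw [map_inv, Equiv.Perm.inv_eq_iff_eq, rho_a]; ring

lemma rho_t_inv (x : ℚ) : rho t⁻¹ x = 3 / 5 * x := by
  rw [map_inv, Equiv.Perm.inv_eq_iff_eq, rho_t]; ring

/-- translation part -/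
def tau (g : G) : ℚ := rho g 0

lemma rho_apply (g : G) (x : ℚ) : rho g x = (5 / 3 : ℚ) ^ (sig g) * x + tau g := by
  unfold tau
  induction g using G_induction generalizing x with
  | h1 => simp [sig_one]
  | ha g ih =>
    rw [map_mul, Equiv.Perm.mul_apply, Equiv.Perm.mul_apply, rho_a, rho_a, sig_mul, sig_a,
      zero_add, ih]; ring
  | ha' g ih =>
    rw [map_mul, Equiv.Perm.mul_apply, Equiv.Perm.mul_apply, rho_a_inv, rho_a_inv, sig_mul,
      sig_inv, sig_a, neg_zero, zero_add, ih]; ring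
  | ht g ih =>
    rw [map_mul, Equiv.Perm.mul_apply, Equiv.Perm.mul_apply, rho_t, rho_t, sig_mul, sig_t, ih,
      zpow_add₀ (by norm_num), zpow_one]; ring
  | ht' g ih =>
    rw [map_mul, Equiv.Perm.mul_apply, Equiv.Perm.mul_apply, rho_t_inv, rho_t_inv, sig_mul,
      sig_inv, sig_t, ih, zpow_add₀ (by norm_num), zpow_neg_one]; ring

lemma tau_mul (g h : G) : tau (g * h) = tau g + (5 / 3 : ℚ) ^ (sig g) * tau h := by
  have : tau (g * h) = rho g (tau h) := by
    unfold tau; rw [map_mul, Equiv.Perm.mul_apply]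
  rw [this, rho_apply]; ring

lemma tau_one : tau 1 = 0 := by simp [tau]

lemma tau_a : tau a = 1 := by unfold tau; rw [rho_a]; ring

lemma tau_inv (g : G) : tau g⁻¹ = - ((5 / 3 : ℚ) ^ (sig g))⁻¹ * tau g := by
  have h := tau_mul g g⁻¹
  rw [mul_inv_cancel, tau_one] at h
  have hp : (5 / 3 : ℚ) ^ (sig g) ≠ 0 := zpow_ne_zero _ (by norm_num)
  field_simp
  linarith

lemma tau_pow (c : G) (hc : sig c = 0) (n : ℕ) : tau (c ^ n) = n * tau c := by
  induction n with
  | zero => simp [tau_one]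
  | succ n ih => rw [pow_succ, tau_mul, ih, sig_pow, hc]; push_cast; simp; ring

lemma tau_zpow (c : G) (hc : sig c = 0) (n : ℤ) : tau (c ^ n) = n * tau c := by
  cases n with
  | ofNat n => simp only [Int.ofNat_eq_natCast, zpow_natCast]; rw [tau_pow c hc]; simp
  | negSucc n =>
    rw [zpow_negSucc, tau_inv, sig_pow, hc, tau_pow c hc]
    rw [Int.cast_negSucc]; simp
    ring

lemma tau_conj (h c : G) (hc : sig c = 0) : tau (h * c * h⁻¹) = (5 / 3 : ℚ) ^ (sig h) * tau c := by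
  rw [tau_mul, tau_mul, sig_mul, hc, tau_inv, add_zero]
  have hp : (5 / 3 : ℚ) ^ (sig h) ≠ 0 := zpow_ne_zero _ (by norm_num)
  field_simp
  ring

lemma tau_a_zpow (k : ℤ) : tau (a ^ k) = k := by
  rw [tau_zpow _ sig_a, tau_a, mul_one]

lemma sig_conj (h c : G) : sig (h * c * h⁻¹) = sig c := by
  rw [sig_mul, sig_mul, sig_inv]; ring

lemma K_elliptic (g : G) (h2 : tau g = 0) (h3 : ell g = 0) : g = 1 := by
  obtain ⟨q, k, rfl⟩ := ell_elliptic g h3
  rw [tau_conj _ _ (sig_a_zpow k), tau_a_zpow] at h2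
  have hp : (5 / 3 : ℚ) ^ (sig q) ≠ 0 := zpow_ne_zero _ (by norm_num)
  have : (k : ℚ) = 0 := by
    rcases mul_eq_zero.1 h2 with h | h
    · exact absurd h hp
    · exact h
  have hk : k = 0 := by exact_mod_cast this
  rw [hk]; simp

lemma conj_zpow_iff (q : G) (m k : ℤ) :
    q * a ^ m * q⁻¹ = a ^ k ↔ shiftL k (nl q) = nl q ∧ shiftC k (nl q) = m := by
  rw [mul_inv_eq_iff_eq_mul]
  constructor
  · intro h
    have h1 := nf_mul_zpow q m
    have h2 := nf_zpow_mul k q
    rw [h] at h1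
    refine ⟨h2.1.symm.trans h1.1, ?_⟩
    have := h2.2.symm.trans h1.2
    linarith
  · rintro ⟨h1, h2⟩
    apply nf_inj
    · rw [(nf_mul_zpow q m).1, (nf_zpow_mul k q).1, h1]
    · rw [(nf_mul_zpow q m).2, (nf_zpow_mul k q).2, h2]; ring

/-- total valuation at 3 and 5 -/
def cont (k : ℤ) : ℕ := padicValInt 3 k + padicValInt 5 k

instance fact3 : Fact (Nat.Prime 3) := ⟨by norm_num⟩
instance fact5 : Fact (Nat.Prime 5) := ⟨by norm_num⟩

lemma cont_mul (m n : ℤ) (hm : m ≠ 0) (hn : n ≠ 0) : cont (m * n) = cont m + cont n := by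
  unfold cont
  rw [padicValInt.mul hm hn, padicValInt.mul hm hn]; ring

lemma cont_three : cont 3 = 1 := by
  unfold cont
  have h1 : padicValInt 3 3 = 1 := by
    have := padicValInt_self (p := 3); exact_mod_cast this
  have h2 : padicValInt 5 3 = 0 := padicValInt.eq_zero_of_not_dvd (by norm_num)
  rw [h1, h2]

lemma cont_five : cont 5 = 1 := by
  unfold cont
  have h1 : padicValInt 5 5 = 1 := by
    have := padicValInt_self (p := 5); exact_mod_cast this
  have h2 : padicValInt 3 5 = 0 := padicValInt.eq_zero_of_not_dvd (by norm_num)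
  rw [h1, h2]

lemma cont_p (e : Bool) : cont (p e) = 1 := by
  cases e
  · exact cont_three
  · exact cont_five

lemma dvd_of_emod (k i : ℤ) (e : Bool) (h : (k + i) % p e = i) :
    ∃ s, k = p e * s ∧ (k + i) / p e = s := by
  have h2 : k = p e * ((k + i) / p e) := by
    have := Int.emod_add_mul_ediv (k + i) (p e)
    linarith
  exact ⟨_, h2, rfl⟩

lemma cont_shift (x : List (ℤ × Bool)) (hx : Red x) (k : ℤ) (h : shiftL k x = x) (hk : k ≠ 0) :
    shiftC k x ≠ 0 ∧ cont (shiftC k x) = cont k := by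
  induction x generalizing k with
  | nil => exact ⟨hk, rfl⟩
  | cons l x ih =>
    obtain ⟨i, e⟩ := l
    rw [Red_cons] at hx
    rw [shiftL_cons, List.cons.injEq, Prod.mk.injEq] at h
    obtain ⟨⟨h1, -⟩, h2⟩ := h
    obtain ⟨s, hs, hs2⟩ := dvd_of_emod k i e h1
    rw [shiftC_cons]
    rw [hs2] at h2 ⊢
    have hs0 : s ≠ 0 := by
      rintro rfl; apply hk; rw [hs]; ring
    have h3 := ih hx.2.2 _ h2 (mul_ne_zero (p_pos _).ne' hs0)
    refine ⟨h3.1, ?_⟩
    rw [h3.2, hs, cont_mul _ _ (p_pos _).ne' hs0, cont_mul _ _ (p_pos _).ne' hs0, cont_p, cont_p]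

lemma two_shift (x : List (ℤ × Bool)) (hx : Red x) (k : ℤ) (h : shiftL (2 * k) x = x) :
    shiftL k x = x ∧ shiftC (2 * k) x = 2 * shiftC k x := by
  induction x generalizing k with
  | nil => simp
  | cons l x ih =>
    obtain ⟨i, e⟩ := l
    rw [Red_cons] at hx
    rw [shiftL_cons, List.cons.injEq, Prod.mk.injEq] at h
    obtain ⟨⟨h1, -⟩, h2⟩ := h
    obtain ⟨s, hs, hs2⟩ := dvd_of_emod (2 * k) i e h1
    have hp := (p_pos e).ne'
    have hs3 : ∃ r, s = 2 * r ∧ k = p e * r := by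
      have h5 : p e = 3 ∨ p e = 5 := by cases e <;> simp [p]
      refine ⟨s / 2, ?_, ?_⟩
      · rcases h5 with h5 | h5 <;> rw [h5] at hs <;> omega
      · rcases h5 with h5 | h5 <;> rw [h5] at hs ⊢ <;> omega
    obtain ⟨r, hr, hk⟩ := hs3
    have h4 : (k + i) / p e = r := by
      rw [hk, add_comm, Int.add_mul_ediv_left _ _ hp, Int.ediv_eq_zero_of_lt hx.1.1 hx.1.2,
        zero_add]
    have h6 : (k + i) % p e = i := by
      rw [hk, add_comm, Int.add_mul_emod_self_left, Int.emod_eq_of_lt hx.1.1 hx.1.2]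
    rw [shiftL_cons, shiftC_cons, shiftC_cons, h4, h6, hs2, hr]
    rw [hs2, hr] at h2
    have e1 : p (!e) * (2 * r) = 2 * (p (!e) * r) := by ring
    rw [e1] at h2 ⊢
    have h7 := ih hx.2.2 _ h2
    exact ⟨by rw [h7.1], h7.2⟩

lemma conj_cont (q : G) (m k : ℤ) (h : q * a ^ m * q⁻¹ = a ^ k) (hk : k ≠ 0) :
    m ≠ 0 ∧ cont m = cont k := by
  obtain ⟨h1, h2⟩ := (conj_zpow_iff q m k).1 h
  have := cont_shift (nl q) (nl_red q) k h1 hk
  rwa [h2] at this

lemma sqrt_unique (g b : G) (hg : ell g = 0) (h : b * b = g * g) : b = g := by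
  have hb : ell b = 0 := by
    have h1 := ell_pow b 2
    have h2 := ell_pow g 2
    rw [pow_two, h, ← pow_two, h2, hg] at h1
    omega
  obtain ⟨q, m, rfl⟩ := ell_elliptic b hb
  obtain ⟨r, k, rfl⟩ := ell_elliptic g hg
  have h1 : (r⁻¹ * q) * a ^ (2 * m) * (r⁻¹ * q)⁻¹ = a ^ (2 * k) := by
    have e1 : (r⁻¹ * q) * a ^ (2 * m) * (r⁻¹ * q)⁻¹ =
        r⁻¹ * ((q * a ^ m * q⁻¹) * (q * a ^ m * q⁻¹)) * r := by
      rw [two_mul, zpow_add]; group
    rw [e1, h, two_mul, zpow_add]; group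
  have h2 := (conj_zpow_iff _ _ _).1 h1
  have h3 := two_shift _ (nl_red _) _ h2.1
  have h4 : (r⁻¹ * q) * a ^ m * (r⁻¹ * q)⁻¹ = a ^ k := by
    rw [conj_zpow_iff]
    refine ⟨h3.1, ?_⟩
    have := h3.2.symm.trans h2.2
    linarith
  rw [← h4]; group

lemma pm_of_commute (z w : G) (hc : Commute z w)
    (htz : tau z = 0) (htw : tau w = 0) (he : ell w = ell z) : w = z ∨ w = z⁻¹ := by
  have h1 := (four_commute z w hc).2.2
  rw [he, max_self] at h1
  have hc2 : Commute (z * w) (z * w⁻¹) := by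
    apply Commute.mul_left
    · exact Commute.mul_right (Commute.refl z) hc.inv_right
    · exact Commute.mul_right hc.symm (Commute.refl w).inv_right
  have h2 := (four_commute (z * w) (z * w⁻¹) hc2).2.2
  have e1 : z * w * (z * w⁻¹) = z ^ 2 := by
    rw [mul_assoc, ← mul_assoc w z, ← hc.eq, pow_two]; group
  have e2 : z * w * (z * w⁻¹)⁻¹ = w ^ 2 := by
    rw [mul_inv_rev, inv_inv]
    have : z * w * (w * z⁻¹) = (z * (w * w)) * z⁻¹ := by group
    rw [this, (hc.mul_right hc).eq, pow_two]; group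
  rw [e1, e2, ell_pow, ell_pow, he] at h2
  have h3 : ell (z * w) = 0 ∨ ell (z * w⁻¹) = 0 := by omega
  have htw' : tau w⁻¹ = 0 := by rw [tau_inv, htw]; ring
  rcases h3 with h3 | h3
  · right
    have := K_elliptic (z * w) (by rw [tau_mul, htz, htw]; ring) h3
    exact (inv_eq_of_mul_eq_one_right this).symm
  · left
    have := K_elliptic (z * w⁻¹) (by rw [tau_mul, htz, htw']; ring) h3
    exact (mul_inv_eq_one.1 this).symm

lemma no_inversion (g z : G) (hz : z ≠ 1) (htz : tau z = 0) (h : g * z * g⁻¹ = z⁻¹) : False := by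
  have hzpos : 0 < ell z := by
    rcases Nat.eq_zero_or_pos (ell z) with h0 | h0
    · exact absurd (K_elliptic z htz h0) hz
    · exact h0
  -- g^2 commutes with z
  have hc : Commute (g ^ 2) z := by
    have h1 : g * z⁻¹ * g⁻¹ = z := by
      have : (g * z * g⁻¹)⁻¹ = g * z⁻¹ * g⁻¹ := by group
      rw [← this, h, inv_inv]
    have h2 : g ^ 2 * z * (g ^ 2)⁻¹ = z := by
      calc g ^ 2 * z * (g ^ 2)⁻¹ = g * (g * z * g⁻¹) * g⁻¹ := by rw [pow_two]; group
        _ = z := by rw [h, h1]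
    exact mul_inv_eq_iff_eq_mul.1 h2
  have hgz : (g * z) * (g * z) = g * g := by
    have h1 : g * z = z⁻¹ * g := by rw [← h]; group
    calc (g * z) * (g * z) = z⁻¹ * (g ^ 2 * z) := by
          conv_lhs => arg 1; rw [h1]
          rw [pow_two]; group
      _ = g * g := by rw [hc.eq, pow_two]; group
  rcases Nat.eq_zero_or_pos (ell g) with h0 | hpos
  · have := sqrt_unique g (g * z) h0 hgz
    exact hz (mul_eq_left.1 this)
  · -- both hyperbolic
    have hP : 0 < ell (g ^ 2) := by rw [ell_pow]; omega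
    have hs : ell (g ^ 2 * z) = ell (g ^ 2 * z⁻¹) := by
      rw [← ell_conj g (g ^ 2 * z)]
      congr 1
      rw [← h, pow_two]; group
    have h1 := (four_commute (g ^ 2) z hc).2.2
    have hc2 : Commute (g ^ 2 * z) (g ^ 2 * z⁻¹) := by
      apply Commute.mul_left
      · exact Commute.mul_right (Commute.refl _) hc.inv_right
      · exact Commute.mul_right hc.symm (Commute.refl z).inv_right
    have h2 := (four_commute _ _ hc2).2.2
    have e1 : g ^ 2 * z * (g ^ 2 * z⁻¹) = (g ^ 2) ^ 2 := by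
      rw [mul_assoc, ← mul_assoc z (g ^ 2), ← hc.eq, pow_two (g ^ 2)]; group
    have e2 : g ^ 2 * z * (g ^ 2 * z⁻¹)⁻¹ = z ^ 2 := by
      rw [mul_inv_rev, inv_inv]
      have : g ^ 2 * z * (z * (g ^ 2)⁻¹) = (g ^ 2 * (z * z)) * (g ^ 2)⁻¹ := by group
      rw [this, (hc.mul_right hc).eq, pow_two z]; group
    rw [e1, e2, ell_pow (g ^ 2) 2, ell_pow z 2, hs] at h2
    rw [hs] at h1
    omega

end Pool.Agent.Helper288.BS
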