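import Mathlib

set_option autoImplicit false

namespace Pool.Agent.Helper288.Cone

/-- `InCone L N` : the language `N` is the image `g (h⁻¹ L ∩ R)` of `L` under a rational
transduction given in Nivat form: `h : Z* → X*`, `g : Z* → Y*` are morphisms of free monoids over
finite alphabets and `R` is a regular language. So `InCone L N` says `N ∈ T(L)`. -/
def InCone {X Y : Type} (L : Language X) (N : Language Y) : Prop :=
  ∃ (Z : Type) (_ : Fintype Z) (h : Z → List X) (g : Z → List Y) (R : Language Z),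
    R.IsRegular ∧ N = {v | ∃ z ∈ R, z.flatMap h ∈ L ∧ z.flatMap g = v}

/-- The word `w_0 ^ n_0 w_1 ^ n_1 ... w_(k-1) ^ n_(k-1)`. -/
def wpow {X : Type} {k : ℕ} (w : Fin k → List X) (n : Fin k → ℕ) : List X :=
  (List.ofFn fun j => (List.replicate (n j) (w j)).flatten).flatten

/-- The language of words `a_0 ^ n_0 a_1 ^ n_1 ... a_(k-1) ^ n_(k-1)` with `n_j ≠ n_(j+1)` for some
`j`; the letter `a_j` is `j : Fin k`. -/
def SNeq (k : ℕ) : Language (Fin k) :=
  {u | ∃ n : Fin k → ℕ, (∃ i j : Fin k, (i : ℕ) + 1 = j ∧ n i ≠ n j) ∧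
    u = wpow (fun a => [a]) n}

end Pool.Agent.Helper288.Cone
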