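import Pool.Agent.Helper288.ConeRec

set_option autoImplicit false

namespace Pool.Agent.Helper288.Cone

variable {k : ℕ}

/-- a positive line -/
def Ln (α β : Fin k → ℚ) (n : Fin k → ℕ) : Prop := ∀ b b', α b * n b + β b = α b' * n b' + β b'

/-- finite unions of a recognizable set and of recognizable sets minus lines -/
def Comb (K : Set (Fin k → ℕ)) : Prop :=
  ∃ (R0 : Set (Fin k → ℕ)) (l : List (Set (Fin k → ℕ) × (Fin k → ℚ) × (Fin k → ℚ))),
    Rec R0 ∧ (∀ t ∈ l, Rec t.1 ∧ ∀ b, 0 < t.2.1 b) ∧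
    ∀ n, n ∈ K ↔ n ∈ R0 ∨ ∃ t ∈ l, n ∈ t.1 ∧ ¬ Ln t.2.1 t.2.2 n

lemma Comb.union {K K' : Set (Fin k → ℕ)} (h : Comb K) (h' : Comb K') : Comb (K ∪ K') := by
  obtain ⟨R, l, h1, h2, h3⟩ := h
  obtain ⟨R', l', h1', h2', h3'⟩ := h'
  refine ⟨R ∪ R', l ++ l', h1.union h1', ?_, ?_⟩
  · intro t ht
    rcases List.mem_append.1 ht with ht | ht
    · exact h2 t ht
    · exact h2' t ht
  · intro n
    rw [Set.mem_union, h3, h3']
    constructor
    · rintro ((h | ⟨t, ht, h⟩) | (h | ⟨t, ht, h⟩))
      · left; left; exact h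
      · right; exact ⟨t, List.mem_append_left _ ht, h⟩
      · left; right; exact h
      · right; exact ⟨t, List.mem_append_right _ ht, h⟩
    · rintro ((h | h) | ⟨t, ht, h⟩)
      · left; left; exact h
      · right; left; exact h
      · rcases List.mem_append.1 ht with ht | ht
        · left; right; exact ⟨t, ht, h⟩
        · right; right; exact ⟨t, ht, h⟩

lemma Comb.empty : Comb (∅ : Set (Fin k → ℕ)) :=
  ⟨∅, [], Rec.empty, by simp, by simp⟩

lemma common_TM (R0 : Set (Fin k → ℕ)) (l : List (Set (Fin k → ℕ) × (Fin k → ℚ) × (Fin k → ℚ)))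
    (h0 : Rec R0) (hl : ∀ t ∈ l, Rec t.1) :
    ∃ T M, 0 < M ∧ RecTM T M R0 ∧ ∀ t ∈ l, RecTM T M t.1 := by
  induction l with
  | nil =>
    obtain ⟨T, M, hM, h⟩ := h0
    exact ⟨T, M, hM, h, by simp⟩
  | cons t l ih =>
    obtain ⟨T, M, hM, h1, h2⟩ := ih (fun t ht => hl t (List.mem_cons_of_mem _ ht))
    obtain ⟨T', M', hM', h'⟩ := hl t List.mem_cons_self
    refine ⟨max T T', M * M', Nat.mul_pos hM hM', h1.mono (le_max_left _ _) (dvd_mul_right _ _), ?_⟩
    intro t' ht'
    rcases List.mem_cons.1 ht' with rfl | ht'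
    · exact h'.mono (le_max_right _ _) (dvd_mul_left _ _)
    · exact (h2 t' ht').mono (le_max_left _ _) (dvd_mul_right _ _)

lemma RecTM.add_mul {T M : ℕ} {A : Set (Fin k → ℕ)} (h : RecTM T M A) (x : Fin k → ℕ)
    (hx : ∀ b, T ≤ x b) (t : Fin k → ℕ) : x ∈ A ↔ (fun b => x b + t b * M) ∈ A := by
  have key : ∀ s : Finset (Fin k), x ∈ A ↔ x + ∑ b ∈ s, Pi.single b (t b * M) ∈ A := by
    intro s
    induction s using Finset.induction_on with
    | empty => simp
    | insert b s hb ih =>
      rw [ih, Finset.sum_insert hb]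
      have h1 : T ≤ (x + ∑ b ∈ s, Pi.single b (t b * M) : Fin k → ℕ) b := by
        rw [Pi.add_apply]; have := hx b; omega
      rw [h.iter _ b h1 (t b)]
      have : x + (Pi.single b (t b * M) + ∑ b ∈ s, Pi.single b (t b * M)) =
        x + ∑ b ∈ s, Pi.single b (t b * M) + Pi.single b (t b * M) := by abel
      rw [this]
  have h2 := key Finset.univ
  rw [Finset.univ_sum_single] at h2
  exact h2

lemma RecTM.congr {T M : ℕ} {A : Set (Fin k → ℕ)} (h : RecTM T M A) (x y : Fin k → ℕ)
    (hx : ∀ b, T ≤ x b) (hy : ∀ b, T ≤ y b) (hxy : ∀ b, x b % M = y b % M) :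
    x ∈ A ↔ y ∈ A := by
  have h1 : ∀ b, ∃ t, max (x b) (y b) = x b + t * M := by
    intro b
    rcases le_total (x b) (y b) with hle | hle
    · rw [max_eq_right hle]
      have : M ∣ y b - x b := (Nat.modEq_iff_dvd' hle).1 (hxy b)
      obtain ⟨t, ht⟩ := this
      exact ⟨t, by rw [mul_comm, ← ht]; omega⟩
    · rw [max_eq_left hle]; exact ⟨0, by simp⟩
  have h2 : ∀ b, ∃ t, max (x b) (y b) = y b + t * M := by
    intro b
    rcases le_total (y b) (x b) with hle | hle
    · rw [max_eq_left hle]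
      have : M ∣ x b - y b := (Nat.modEq_iff_dvd' hle).1 (hxy b).symm
      obtain ⟨t, ht⟩ := this
      exact ⟨t, by rw [mul_comm, ← ht]; omega⟩
    · rw [max_eq_right hle]; exact ⟨0, by simp⟩
  choose t ht using h1
  choose t' ht' using h2
  rw [h.add_mul x hx t, h.add_mul y hy t']
  have e1 : (fun b => x b + t b * M) = fun b => max (x b) (y b) := funext fun b => (ht b).symm
  have e2 : (fun b => y b + t' b * M) = fun b => max (x b) (y b) := funext fun b => (ht' b).symm
  rw [e1, e2]

lemma Ln_subsingleton (α β : Fin k → ℚ) (hα : ∀ b, 0 < α b) (b : Fin k) (v : ℕ) :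
    {n : Fin k → ℕ | Ln α β n ∧ n b = v}.Subsingleton := by
  rintro n ⟨h1, h2⟩ m ⟨h3, h4⟩
  funext b'
  have e1 := h1 b b'
  have e2 := h3 b b'
  rw [h2] at e1
  rw [h4] at e2
  have e3 : α b' * n b' = α b' * m b' := by linarith
  have := mul_left_cancel₀ (hα b').ne' e3
  exact_mod_cast this

lemma Ln_order (α β : Fin k → ℚ) (hα : ∀ b, 0 < α b) (x y : Fin k → ℕ) (hx : Ln α β x)
    (hy : Ln α β y) (hne : x ≠ y) : (∀ b, x b < y b) ∨ (∀ b, y b < x b) := by
  obtain ⟨b0, hb0⟩ := Function.ne_iff.1 hne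
  rcases lt_or_gt_of_ne hb0 with h | h
  · left
    intro b
    have e1 := hx b b0
    have e2 := hy b b0
    have h' : (x b0 : ℚ) < y b0 := by exact_mod_cast h
    have h2 := mul_lt_mul_of_pos_left h' (hα b0)
    have h3 : α b * x b < α b * y b := by linarith
    have := lt_of_mul_lt_mul_left h3 (hα b).le
    exact_mod_cast this
  · right
    intro b
    have e1 := hx b b0
    have e2 := hy b b0
    have h' : (y b0 : ℚ) < x b0 := by exact_mod_cast h
    have h2 := mul_lt_mul_of_pos_left h' (hα b0)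
    have h3 : α b * y b < α b * x b := by linarith
    have := lt_of_mul_lt_mul_left h3 (hα b).le
    exact_mod_cast this

lemma Rec_list_union (l : List (Set (Fin k → ℕ) × (Fin k → ℚ) × (Fin k → ℚ)))
    (hl : ∀ t ∈ l, Rec t.1) : Rec {n | ∃ t ∈ l, n ∈ t.1} := by
  induction l with
  | nil => simpa using Rec.empty
  | cons t l ih =>
    have e : {n | ∃ t' ∈ t :: l, n ∈ t'.1} = t.1 ∪ {n | ∃ t ∈ l, n ∈ t.1} := by
      ext n; simp
    rw [e]
    exact (hl t List.mem_cons_self).union (ih fun t ht => hl t (List.mem_cons_of_mem _ ht))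

theorem dichotomy [NeZero k] (K : Set (Fin k → ℕ)) (hK : Comb K) : Rec K ∨
    ∃ x D : Fin k → ℕ, (∀ b, 0 < D b) ∧
      ∀ n : Fin k → ℕ, (fun b => x b + n b * D b) ∈ K ↔ ¬ IsConst n := by
  obtain ⟨R0, l, h0, hl, hmem⟩ := hK
  obtain ⟨T, M, hM, hT0, hTl⟩ := common_TM R0 l h0 (fun t ht => (hl t ht).1)
  set X : Set (Fin k → ℕ) := {n | n ∉ K ∧ ∃ t ∈ l, n ∈ t.1} with hX
  have hXln : ∀ n ∈ X, ∀ t ∈ l, n ∈ t.1 → Ln t.2.1 t.2.2 n := by
    rintro n ⟨hn, -⟩ t ht hnt
    by_contra hcon
    exact hn ((hmem n).2 (Or.inr ⟨t, ht, hnt, hcon⟩))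
  by_cases hfin : X.Finite
  · left
    have e : K = (R0 ∪ {n | ∃ t ∈ l, n ∈ t.1}) ∩ Xᶜ := by
      ext n
      constructor
      · intro hn
        refine ⟨?_, fun h => h.1 hn⟩
        rcases (hmem n).1 hn with h | ⟨t, ht, h, -⟩
        · left; exact h
        · right; exact ⟨t, ht, h⟩
      · rintro ⟨h | h, h'⟩
        · exact (hmem n).2 (Or.inl h)
        · by_contra hcon
          exact h' ⟨hcon, h⟩
    rw [e]
    exact (h0.union (Rec_list_union l (fun t ht => (hl t ht).1))).inter (Rec.finite hfin).compl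
  · right
    have hX1 : (X ∩ {n | ∀ b, T ≤ n b}).Infinite := by
      intro hf
      apply hfin
      have hsub : X ⊆ (X ∩ {n | ∀ b, T ≤ n b}) ∪
          ⋃ t ∈ {t | t ∈ l}, ⋃ b : Fin k, ⋃ v ∈ Set.Iio T, {n : Fin k → ℕ |
            Ln t.2.1 t.2.2 n ∧ n b = v} := by
        intro n hn
        by_cases h : ∀ b, T ≤ n b
        · left; exact ⟨hn, h⟩
        · right
          push Not at h
          obtain ⟨b, hb⟩ := h
          obtain ⟨t, ht, hnt⟩ := hn.2
          simp only [Set.mem_iUnion]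
          exact ⟨t, ht, b, n b, hb, hXln n hn t ht hnt, rfl⟩
      refine (hf.union ?_).subset hsub
      refine Set.Finite.biUnion (List.finite_toSet l) fun t ht => ?_
      refine Set.finite_iUnion fun b => ?_
      refine Set.Finite.biUnion (Set.finite_Iio T) fun v _ => ?_
      exact (Ln_subsingleton _ _ (hl t ht).2 b v).finite
    let f : (Fin k → ℕ) → (Fin k → Fin M) := fun n b => ⟨n b % M, Nat.mod_lt _ hM⟩
    obtain ⟨x, hx, y, hy, hxy, hf⟩ :=
      hX1.exists_ne_map_eq_of_mapsTo (f := f) (t := Set.univ) (Set.mapsTo_univ _ _)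
        Set.finite_univ
    have hmod : ∀ b, x b % M = y b % M := by
      intro b
      have := congrFun hf b
      exact Fin.mk.inj_iff.1 this
    obtain ⟨t0, ht0, hxt0⟩ := hx.1.2
    have hyt0 : y ∈ t0.1 := ((hTl t0 ht0).congr x y hx.2 hy.2 hmod).1 hxt0
    have hord := Ln_order _ _ (hl t0 ht0).2 x y (hXln x hx.1 t0 ht0 hxt0)
      (hXln y hy.1 t0 ht0 hyt0) hxy
    have main : ∀ x y : Fin k → ℕ, x ∈ X → y ∈ X → (∀ b, T ≤ x b) → (∀ b, T ≤ y b) →
        (∀ b, x b % M = y b % M) → (∀ b, x b < y b) →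
        ∃ x D : Fin k → ℕ, (∀ b, 0 < D b) ∧
          ∀ n : Fin k → ℕ, (fun b => x b + n b * D b) ∈ K ↔ ¬ IsConst n := by
      intro x y hxX hyX hxT hyT hmod hlt
      refine ⟨x, fun b => y b - x b, fun b => Nat.sub_pos_of_lt (hlt b), fun n => ?_⟩
      have hzT : ∀ b, T ≤ x b + n b * (y b - x b) := fun b => (hxT b).trans (Nat.le_add_right _ _)
      have hzmod : ∀ b, x b % M = (x b + n b * (y b - x b)) % M := by
        intro b
        have : M ∣ y b - x b := (Nat.modEq_iff_dvd' (hlt b).le).1 (hmod b)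
        obtain ⟨s, hs⟩ := this
        rw [hs, show n b * (M * s) = M * (n b * s) by ring, Nat.add_mul_mod_self_left]
      have hz0 : (fun b => x b + n b * (y b - x b)) ∉ R0 := by
        intro hz
        have := (hT0.congr x _ hxT hzT hzmod).2 hz
        exact hxX.1 ((hmem x).2 (Or.inl this))
      have hLn : ∀ t ∈ l, x ∈ t.1 →
          (Ln t.2.1 t.2.2 (fun b => x b + n b * (y b - x b)) ↔ IsConst n) := by
        intro t ht hxt
        have hyt : y ∈ t.1 := ((hTl t ht).congr x y hxT hyT hmod).1 hxt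
        have hlx := hXln x hxX t ht hxt
        have hly := hXln y hyX t ht hyt
        have hα := (hl t ht).2
        constructor
        · intro hl' b b'
          have e1 := hl' b b'
          have e2 := hlx b b'
          have e3 := hly b b'
          push_cast [Nat.cast_sub (hlt b).le, Nat.cast_sub (hlt b').le] at e1
          have hpos : 0 < t.2.1 b * ((y b : ℚ) - x b) := by
            apply mul_pos (hα b)
            have : (x b : ℚ) < y b := by exact_mod_cast hlt b
            linarith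
          have e4 : t.2.1 b * ((y b : ℚ) - x b) = t.2.1 b' * ((y b' : ℚ) - x b') := by
            linarith
          have e5 : (n b : ℚ) * (t.2.1 b * ((y b : ℚ) - x b)) =
              (n b' : ℚ) * (t.2.1 b * ((y b : ℚ) - x b)) := by
            conv_rhs => rw [e4]
            linarith
          have := mul_right_cancel₀ hpos.ne' e5
          exact_mod_cast this
        · intro hc b b'
          have e2 := hlx b b'
          have e3 := hly b b'
          push_cast [Nat.cast_sub (hlt b).le, Nat.cast_sub (hlt b').le]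
          rw [hc b b']
          have e4 : t.2.1 b * ((y b : ℚ) - x b) = t.2.1 b' * ((y b' : ℚ) - x b') := by
            linarith
          linear_combination e2 + (n b' : ℚ) * e4
      rw [hmem]
      constructor
      · rintro (h | ⟨t, ht, h, hne⟩)
        · exact absurd h hz0
        · have hxt : x ∈ t.1 := ((hTl t ht).congr x _ hxT hzT hzmod).2 h
          intro hc
          exact hne ((hLn t ht hxt).2 hc)
      · intro hc
        obtain ⟨t, ht, hxt⟩ := hxX.2
        right
        refine ⟨t, ht, ((hTl t ht).congr x _ hxT hzT hzmod).1 hxt, ?_⟩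
        intro h
        exact hc ((hLn t ht hxt).1 h)
    rcases hord with hord | hord
    · exact main x y hx.1 hy.1 hx.2 hy.2 hmod hord
    · exact main y x hy.1 hx.1 hy.2 hx.2 (fun b => (hmod b).symm) hord

end Pool.Agent.Helper288.Cone
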