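import Pool.Agent.Helper288.ConeDich

set_option autoImplicit false

namespace Pool.Agent.Helper288.Cone

variable {k : ℕ}

/-- the letter word -/
def word (n : Fin k → ℕ) : List (Fin k) := wpow (fun a => [a]) n

lemma word_eq (n : Fin k → ℕ) : word n = (List.ofFn fun j => List.replicate (n j) j).flatten := by
  unfold word wpow
  congr 2
  funext j
  simp

lemma flatMap_word {X : Type} (w : Fin k → List X) (n : Fin k → ℕ) :
    (word n).flatMap w = wpow w n := by
  rw [word_eq, List.flatMap_def, List.map_flatten, List.flatten_flatten, List.map_map,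
    List.map_ofFn]
  unfold wpow
  congr 2
  funext j
  simp

lemma word_sorted (n : Fin k → ℕ) : (word n).Pairwise (· ≤ ·) := by
  rw [word_eq, List.pairwise_flatten]
  constructor
  · intro l hl
    rw [List.mem_ofFn] at hl
    obtain ⟨j, rfl⟩ := hl
    rw [List.pairwise_replicate]
    right; exact le_refl _
  · rw [List.pairwise_ofFn]
    intro i j hij x hx y hy
    rw [List.eq_of_mem_replicate hx, List.eq_of_mem_replicate hy]
    exact hij.le

lemma cnt_word (n : Fin k → ℕ) : cnt (word n) = n := by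
  funext b
  unfold cnt
  rw [word_eq, List.count_flatten, List.map_ofFn, List.sum_ofFn]
  have : ∀ j : Fin k, (List.count b ∘ fun j => List.replicate (n j) j) j =
      if j = b then n j else 0 := by
    intro j
    simp only [Function.comp, List.count_replicate, beq_iff_eq]
  rw [Finset.sum_congr rfl (fun j _ => this j)]
  simp

lemma eq_word (u : List (Fin k)) (hu : u.Pairwise (· ≤ ·)) : u = word (cnt u) := by
  apply List.Perm.eq_of_pairwise (le := (· ≤ ·)) _ hu (word_sorted _)
  · rw [List.perm_iff_count]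
    intro a
    exact (congrFun (cnt_word (cnt u)) a).symm
  · intro a b _ _ h1 h2
    exact le_antisymm h1 h2

lemma isConst_iff (n : Fin k → ℕ) : ¬ IsConst n ↔ ∃ i j : Fin k, (i : ℕ) + 1 = j ∧ n i ≠ n j := by
  constructor
  · intro h
    by_contra hcon
    push Not at hcon
    apply h
    have key : ∀ m : ℕ, ∀ hm : m < k, n ⟨m, hm⟩ = n ⟨0, by omega⟩ := by
      intro m
      induction m with
      | zero => intro _; rfl
      | succ m ih =>
        intro hm
        rw [← ih (by omega)]
        exact (hcon ⟨m, by omega⟩ ⟨m + 1, hm⟩ rfl).symm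
    intro a b
    have h1 := key a.1 a.2
    have h2 := key b.1 b.2
    exact h1.trans h2.symm
  · rintro ⟨i, j, -, h⟩ hc
    exact h (hc i j)

lemma mem_SNeq (u : List (Fin k)) : u ∈ SNeq k ↔ ∃ m : Fin k → ℕ, ¬ IsConst m ∧ u = word m := by
  constructor
  · rintro ⟨n, h, rfl⟩
    exact ⟨n, (isConst_iff n).2 h, rfl⟩
  · rintro ⟨n, h, rfl⟩
    exact ⟨n, (isConst_iff n).1 h, rfl⟩

lemma mem_PP (T : Tr (Fin k) (Fin k)) (m n : Fin k → ℕ) :
    (m, n) ∈ PP T ↔ T.rel (word m) (word n) := by
  constructor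
  · rintro ⟨u, v, hr, hu, hv, he⟩
    rw [Prod.mk.injEq] at he
    rw [he.1, he.2, ← eq_word u hu, ← eq_word v hv]
    exact hr
  · intro h
    exact ⟨_, _, h, word_sorted m, word_sorted n, by rw [cnt_word, cnt_word]⟩

/-- automaton accepting everything -/
def allDFA (W : Type) : DFA W Unit where
  step := fun _ _ => ()
  start := ()
  accept := Set.univ

lemma allDFA_accepts (W : Type) (z : List W) : z ∈ (allDFA W).accepts := by
  rw [DFA.mem_accepts]; exact Set.mem_univ _

lemma comb_piece (hk : 2 ≤ k) (B : Set ((Fin k → ℕ) × (Fin k → ℕ))) (hB : Lin (Per k) B) :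
    Comb {n | ∃ m, (m, n) ∈ B ∧ ¬ IsConst m} := by
  classical
  obtain ⟨c, Ω, h1, h2⟩ := hB
  have h1' : ∀ s : Ω, ∃ (i j : Fin k) (q p : ℕ), s.1 = (Pi.single i q, Pi.single j p) :=
    fun s => h1 s.1 s.2
  choose i j q p hs using h1'
  have e : {n | ∃ m, (m, n) ∈ B ∧ ¬ IsConst m} = KB c.1 c.2 i j q p := by
    ext n
    have hsum : ∀ x : Ω → ℕ, c + ∑ s, x s • s.1 = (lin c.1 i q x, lin c.2 j p x) := by
      intro x
      have e1 : ∑ s, x s • s.1 = (∑ s, x s • Pi.single (i s) (q s), ∑ s, x s • Pi.single (j s) (p s)) := by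
        rw [Prod.ext_iff]
        constructor
        · rw [Prod.fst_sum]
          apply Finset.sum_congr rfl
          intro s _
          rw [hs s]; rfl
        · rw [Prod.snd_sum]
          apply Finset.sum_congr rfl
          intro s _
          rw [hs s]; rfl
      have e2 : ∀ (d : Fin k → ℕ) (i : Ω → Fin k) (q : Ω → ℕ),
          d + ∑ s, x s • Pi.single (i s) (q s) = lin d i q x := by
        intro d i q
        funext b
        simp only [lin, Pi.add_apply, Finset.sum_apply, Pi.smul_apply, smul_eq_mul]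
        congr 1
        apply Finset.sum_congr rfl
        intro s _
        by_cases hb : i s = b
        · subst hb; simp
        · rw [if_neg hb, Pi.single_eq_of_ne (Ne.symm hb), mul_zero]
      rw [e1]
      have : c + (∑ s, x s • Pi.single (i s) (q s), ∑ s, x s • Pi.single (j s) (p s)) =
        (c.1 + ∑ s, x s • Pi.single (i s) (q s), c.2 + ∑ s, x s • Pi.single (j s) (p s)) := rfl
      rw [this, e2, e2]
    constructor
    · rintro ⟨m, hm, hc⟩
      obtain ⟨y, hy, hmy⟩ := (h2 _).1 hm
      obtain ⟨x, rfl⟩ := AddSubmonoid.mem_closure_finset'.1 hy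
      rw [hsum, Prod.mk.injEq] at hmy
      exact ⟨x, hmy.2, by rw [← hmy.1]; exact hc⟩
    · rintro ⟨x, rfl, hc⟩
      refine ⟨lin c.1 i q x, ?_, hc⟩
      rw [h2]
      exact ⟨_, AddSubmonoid.mem_closure_finset'.2 ⟨x, rfl⟩, (hsum x).symm⟩
  rw [e]
  rcases KB_cases hk c.1 c.2 i j q p with h | ⟨R, α, β, hR, hα, hmem⟩
  · exact ⟨_, [], h, by simp, by simp⟩
  · refine ⟨∅, [(R, α, β)], Rec.empty, ?_, ?_⟩
    · intro t ht
      rw [List.mem_singleton] at ht
      subst ht
      exact ⟨hR, hα⟩
    · intro n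
      rw [hmem]
      simp [Ln]

lemma comb_of_slin (hk : 2 ≤ k) (A : Set ((Fin k → ℕ) × (Fin k → ℕ))) (hA : SLin (Per k) A) :
    Comb {n | ∃ m, (m, n) ∈ A ∧ ¬ IsConst m} := by
  obtain ⟨F, h1, h2, rfl⟩ := hA
  induction F, h1 using Set.Finite.induction_on with
  | empty =>
    have : {n : Fin k → ℕ | ∃ m, (m, n) ∈ ⋃₀ (∅ : Set (Set ((Fin k → ℕ) × (Fin k → ℕ)))) ∧
        ¬ IsConst m} = ∅ := by ext n; simp
    rw [this]; exact Comb.empty
  | @insert B F _ _ ih =>
    have e : {n : Fin k → ℕ | ∃ m, (m, n) ∈ ⋃₀ (insert B F) ∧ ¬ IsConst m} =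
        {n | ∃ m, (m, n) ∈ B ∧ ¬ IsConst m} ∪ {n | ∃ m, (m, n) ∈ ⋃₀ F ∧ ¬ IsConst m} := by
      ext n
      rw [Set.sUnion_insert]
      constructor
      · rintro ⟨m, hm | hm, hc⟩
        · left; exact ⟨m, hm, hc⟩
        · right; exact ⟨m, hm, hc⟩
      · rintro (⟨m, hm, hc⟩ | ⟨m, hm, hc⟩)
        · exact ⟨m, Or.inl hm, hc⟩
        · exact ⟨m, Or.inr hm, hc⟩
    rw [e]
    exact (comb_piece hk B (h2 B (Set.mem_insert _ _))).union
      (ih fun C hC => h2 C (Set.mem_insert_of_mem _ hC))

/-- exponent sets of languages in the cone -/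
theorem comb_of_inCone (hk : 2 ≤ k) {X : Type} (L : Language X) (w : Fin k → List X)
    (h : InCone (SNeq k) L) : Comb {n | wpow w n ∈ L} := by
  have : NeZero k := ⟨by omega⟩
  obtain ⟨T1, hT1⟩ := h.exists_tr
  let T2 : Tr X (Fin k) := nivatTr w (fun j : Fin k => [j]) (allDFA (Fin k))
  have hT2 : ∀ (v : List X) (z : List (Fin k)), T2.rel v z ↔ z.flatMap w = v := by
    intro v z
    rw [nivatTr_rel]
    constructor
    · rintro ⟨z', -, h1, h2⟩
      have : z' = z := by
        rw [← h2]; simp
      rw [← this]; exact h1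
    · intro h1
      exact ⟨z, allDFA_accepts _ _, h1, by simp⟩
  have hT : ∀ m n : Fin k → ℕ, (m, n) ∈ PP (T1.comp T2) ↔ T1.rel (word m) (wpow w n) := by
    intro m n
    rw [mem_PP, Tr.comp_rel]
    constructor
    · rintro ⟨v, h1, h2⟩
      rw [hT2, flatMap_word] at h2
      rw [h2]; exact h1
    · intro h1
      exact ⟨_, h1, (hT2 _ _).2 (flatMap_word w n)⟩
  have e : {n | wpow w n ∈ L} = {n | ∃ m, (m, n) ∈ PP (T1.comp T2) ∧ ¬ IsConst m} := by
    ext n
    change wpow w n ∈ L ↔ _
    rw [hT1]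
    constructor
    · rintro ⟨u, hu, hr⟩
      obtain ⟨m, hm, rfl⟩ := (mem_SNeq u).1 hu
      exact ⟨m, (hT m n).2 hr, hm⟩
    · rintro ⟨m, hm, hc⟩
      exact ⟨word m, (mem_SNeq _).2 ⟨m, hc, rfl⟩, (hT m n).1 hm⟩
  rw [e]
  exact comb_of_slin hk _ (PP_slin _)

lemma RecTM.add_mul' {T M : ℕ} {A : Set (Fin k → ℕ)} (h : RecTM T M A) (x : Fin k → ℕ)
    (t : Fin k → ℕ) (hx : ∀ b, t b ≠ 0 → T ≤ x b) : x ∈ A ↔ (fun b => x b + t b * M) ∈ A := by
  have key : ∀ s : Finset (Fin k), x ∈ A ↔ x + ∑ b ∈ s, Pi.single b (t b * M) ∈ A := by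
    intro s
    induction s using Finset.induction_on with
    | empty => simp
    | insert b s hb ih =>
      rw [ih, Finset.sum_insert hb]
      have e2 : x + (Pi.single b (t b * M) + ∑ b ∈ s, Pi.single b (t b * M)) =
        x + ∑ b ∈ s, Pi.single b (t b * M) + Pi.single b (t b * M) := by abel
      rw [e2]
      by_cases h0 : t b = 0
      · rw [h0]; simp
      · have h1 : T ≤ (x + ∑ b ∈ s, Pi.single b (t b * M) : Fin k → ℕ) b := by
          rw [Pi.add_apply]; have := hx b h0; omega
        exact h.iter _ b h1 (t b)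
  have h2 := key Finset.univ
  rw [Finset.univ_sum_single] at h2
  exact h2

/-- sorted words with recognizable counts form a regular language -/
theorem sorted_regular (K : Set (Fin k → ℕ)) (hK : Rec K) :
    Language.IsRegular ({z : List (Fin k) | z.Pairwise (· ≤ ·) ∧ cnt z ∈ K} : Language (Fin k)) := by
  obtain ⟨T', M, hM, hT'⟩ := hK
  obtain ⟨T, hT0, hT⟩ : ∃ T, 0 < T ∧ RecTM T M K :=
    ⟨T' + 1, Nat.succ_pos _, hT'.mono (Nat.le_succ _) (dvd_refl _)⟩
  set L' : Language (Fin k) := {z : List (Fin k) | z.Pairwise (· ≤ ·) ∧ cnt z ∈ K} with hL'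
  apply Language.IsRegular.of_finite_range_leftQuotient
  let red : (Fin k → ℕ) → (Fin k → ℕ) := fun n b => if n b < T then n b else T + (n b - T) % M
  have hred_lt : ∀ n b, red n b < T + M := by
    intro n b
    simp only [red]
    split_ifs with h
    · omega
    · have := Nat.mod_lt (n b - T) hM
      omega
  have hred : ∀ n m : Fin k → ℕ, n + m ∈ K ↔ red n + m ∈ K := by
    intro n m
    rw [hT.add_mul' (red n + m) (fun b => if n b < T then 0 else (n b - T) / M)]
    · have : (fun b => (red n + m) b + (if n b < T then 0 else (n b - T) / M) * M) = n + m := by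
        funext b
        simp only [red, Pi.add_apply]
        split_ifs with h
        · simp
        · have := Nat.mod_add_div (n b - T) M
          have h2 : (n b - T) / M * M = M * ((n b - T) / M) := by ring
          rw [h2]
          omega
      rw [this]
    · intro b hb
      simp only [red, Pi.add_apply]
      split_ifs at hb ⊢ with h
      · exact absurd rfl hb
      · omega
  have hred_pos : ∀ n b, 0 < red n b ↔ 0 < n b := by
    intro n b
    simp only [red]
    split_ifs with h
    · exact Iff.rfl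
    · constructor <;> intro _ <;> omega
  let G : (Fin k → Fin (T + M)) → Language (Fin k) := fun m =>
    {v | v.Pairwise (· ≤ ·) ∧ (∀ b, 0 < (m b : ℕ) → ∀ y ∈ v, b ≤ y) ∧
      (fun b => (m b : ℕ)) + cnt v ∈ K}
  have hsub : Set.range L'.leftQuotient ⊆ {(0 : Language (Fin k))} ∪ Set.range G := by
    rintro Q ⟨u, rfl⟩
    by_cases hu : u.Pairwise (· ≤ ·)
    · right
      refine ⟨fun b => ⟨red (cnt u) b, hred_lt _ _⟩, ?_⟩
      ext v
      rw [Language.mem_leftQuotient]
      change (_ ∧ _ ∧ _) ↔ (_ ∧ _)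
      rw [List.pairwise_append, cnt_append, hred (cnt u) (cnt v)]
      constructor
      · rintro ⟨h1, h2, h3⟩
        refine ⟨⟨hu, h1, ?_⟩, h3⟩
        intro a ha b hb
        apply h2 a _ b hb
        rw [hred_pos]
        exact List.count_pos_iff.2 ha
      · rintro ⟨⟨-, h1, h2⟩, h3⟩
        refine ⟨h1, ?_, h3⟩
        intro b hb y hy
        rw [hred_pos] at hb
        exact h2 b (List.count_pos_iff.1 hb) y hy
    · left
      rw [Set.mem_singleton_iff]
      ext v
      rw [Language.mem_leftQuotient]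
      constructor
      · rintro ⟨h1, -⟩
        rw [List.pairwise_append] at h1
        exact absurd h1.1 hu
      · intro h; exact absurd h (Language.notMem_zero _)
  exact ((Set.finite_singleton _).union (Set.finite_range G)).subset hsub

/-- bounded languages with recognizable exponent sets are regular -/
theorem regular_of_rec {X : Type} (L : Language X) (w : Fin k → List X)
    (hb : ∀ v ∈ L, ∃ n, v = wpow w n) (hK : Rec {n | wpow w n ∈ L}) : L.IsRegular := by
  obtain ⟨σ, hσ, M, hM⟩ := sorted_regular _ hK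
  let T : Tr (Fin k) X := nivatTr (fun j : Fin k => [j]) w M
  have h := T.regular_range
  have e : ({v : List X | ∃ u, T.rel u v} : Set (List X)) = L := by
    ext v
    constructor
    · rintro ⟨u, hr⟩
      obtain ⟨z, hz, -, rfl⟩ := (nivatTr_rel _ _ _ _ _).1 hr
      rw [hM] at hz
      obtain ⟨hz1, hz2⟩ := hz
      rw [eq_word z hz1, flatMap_word]
      exact hz2
    · intro hv
      obtain ⟨n, rfl⟩ := hb v hv
      refine ⟨word n, (nivatTr_rel _ _ _ _ _).2 ⟨word n, ?_, by simp, flatMap_word w n⟩⟩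
      rw [hM]
      exact ⟨word_sorted n, by rw [cnt_word]; exact hv⟩
  rw [e] at h
  exact h

lemma flatten_two {α : Type} (f : Fin (k * 2) → List α) :
    (List.ofFn f).flatten = (List.ofFn fun i : Fin k =>
      f ⟨i * 2 + 0, by omega⟩ ++ f ⟨i * 2 + 1, by omega⟩).flatten := by
  rw [List.ofFn_mul, List.flatten_flatten, List.map_ofFn]
  congr 2
  funext i
  simp [List.ofFn_succ]

/-- recovering the generator -/
theorem sneq_in_cone {X : Type} (L : Language X) (w : Fin k → List X) (x D : Fin k → ℕ)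
    (hxD : ∀ n : Fin k → ℕ, (fun b => x b + n b * D b) ∈ {n | wpow w n ∈ L} ↔ ¬ IsConst n) :
    InCone L (SNeq k) := by
  let KR : Set (Fin (k * 2) → ℕ) := {c | ∀ i : Fin k, c ⟨i * 2 + 0, by omega⟩ = 1}
  have hKR : Rec KR := by
    refine ⟨2, 1, one_pos, fun c b hb => ?_⟩
    constructor
    · intro h i
      have h1 := h i
      have hne : (⟨i * 2 + 0, by omega⟩ : Fin (k * 2)) ≠ b := by
        intro hh
        rw [← hh] at hb
        omega
      rw [Pi.add_apply, Pi.single_eq_of_ne hne, h1]
      rfl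
    · intro h i
      have h1 := h i
      have hne : (⟨i * 2 + 0, by omega⟩ : Fin (k * 2)) ≠ b := by
        intro hh
        rw [← hh] at hb
        rw [Pi.add_apply] at h1
        omega
      rw [Pi.add_apply, Pi.single_eq_of_ne hne] at h1
      exact h1
  let h : Fin (k * 2) → List X := fun b =>
    (List.replicate (if b.1 % 2 = 0 then x ⟨b.1 / 2, by omega⟩ else D ⟨b.1 / 2, by omega⟩)
      (w ⟨b.1 / 2, by omega⟩)).flatten
  let g : Fin (k * 2) → List (Fin k) := fun b => if b.1 % 2 = 0 then [] else [⟨b.1 / 2, by omega⟩]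
  have e0 : ∀ i : Fin k, ((i : ℕ) * 2 + 0) / 2 = i := fun i => by omega
  have e1 : ∀ i : Fin k, ((i : ℕ) * 2 + 1) / 2 = i := fun i => by omega
  have e2 : ∀ i : Fin k, ((i : ℕ) * 2 + 0) % 2 = 0 := fun i => by omega
  have e3 : ∀ i : Fin k, ((i : ℕ) * 2 + 1) % 2 ≠ 0 := fun i => by omega
  have hword : ∀ c : Fin (k * 2) → ℕ, c ∈ KR →
      (word c).flatMap h = wpow w (fun i => x i + c ⟨i * 2 + 1, by omega⟩ * D i) ∧
      (word c).flatMap g = word (fun i => c ⟨i * 2 + 1, by omega⟩) := by
    intro c hc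
    constructor
    · rw [flatMap_word]
      unfold wpow
      rw [flatten_two]
      congr 2
      funext i
      simp only [h, e0, e1, e2, e3, if_true, if_false, hc i, Fin.eta]
      rw [List.replicate_add, List.flatten_append]
      congr 1
      · simp
      · have : ∀ (m d : ℕ) (l : List X), (List.replicate m (List.replicate d l).flatten).flatten =
            (List.replicate (m * d) l).flatten := by
          intro m d l
          induction m with
          | zero => simp
          | succ m ih =>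
            rw [List.replicate_succ, List.flatten_cons, ih, Nat.succ_mul, Nat.add_comm,
              List.replicate_add, List.flatten_append]
        rw [this]
    · rw [flatMap_word, word_eq]
      unfold wpow
      rw [flatten_two]
      congr 2
      funext i
      simp only [g, e0, e1, e2, e3, if_true, if_false, hc i, Fin.eta]
      simp
  refine ⟨Fin (k * 2), inferInstance, h, g, _, sorted_regular KR hKR, ?_⟩
  ext u
  rw [mem_SNeq]
  constructor
  · rintro ⟨n, hn, rfl⟩
    let c : Fin (k * 2) → ℕ := fun b => if b.1 % 2 = 0 then 1 else n ⟨b.1 / 2, by omega⟩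
    have hc : c ∈ KR := by
      intro i
      simp only [c, e2, if_true]
    have hcn : (fun i : Fin k => c ⟨i * 2 + 1, by omega⟩) = n := by
      funext i
      simp only [c, e1, e3, if_false, Fin.eta]
    have hcn' : ∀ i : Fin k, c ⟨i * 2 + 1, by omega⟩ = n i := fun i => congrFun hcn i
    obtain ⟨w1, w2⟩ := hword c hc
    refine ⟨word c, ⟨word_sorted c, by rw [cnt_word]; exact hc⟩, ?_, ?_⟩
    · rw [w1]
      simp only [hcn']
      exact (hxD n).2 hn
    · rw [w2, hcn]
  · rintro ⟨z, ⟨hz1, hz2⟩, hz3, rfl⟩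
    rw [eq_word z hz1] at hz3 ⊢
    obtain ⟨w1, w2⟩ := hword (cnt z) hz2
    rw [w1] at hz3
    refine ⟨_, ?_, w2⟩
    exact (hxD _).1 hz3

/-- Main theorem. -/
theorem main (hk : 2 ≤ k) {X : Type} [Fintype X] (L : Language X)
    (hb : ∃ w : Fin k → List X, ∀ v ∈ L, ∃ n, v = wpow w n) (hL : InCone (SNeq k) L) :
    L.IsRegular ∨ ∀ (Y : Type) [Fintype Y] (N : Language Y), InCone L N ↔ InCone (SNeq k) N := by
  have : NeZero k := ⟨by omega⟩
  obtain ⟨w, hw⟩ := hb
  rcases dichotomy _ (comb_of_inCone hk L w hL) with h | ⟨x, D, -, hxD⟩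
  · left
    exact regular_of_rec L w hw h
  · right
    intro Y _ N
    exact ⟨fun h => hL.trans h, fun h => (sneq_in_cone L w x D hxD).trans h⟩

end Pool.Agent.Helper288.Cone
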