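import Pool.Agent.Helper288.ConeSemi

set_option autoImplicit false

namespace Pool.Agent.Helper288.Cone

variable {k : ℕ}

/-- letter counts -/
def cnt (u : List (Fin k)) : Fin k → ℕ := fun j => u.count j

/-- unit vector of an optional letter -/
def vec (x : Option (Fin k)) : Fin k → ℕ := cnt x.toList

lemma cnt_append (u v : List (Fin k)) : cnt (u ++ v) = cnt u + cnt v := by
  funext j; simp [cnt]

lemma cnt_nil : cnt ([] : List (Fin k)) = 0 := by funext j; simp [cnt]

/-- the graph of phases -/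
def PE (T : Tr (Fin k) (Fin k)) (s : T.σ × Fin k × Fin k) (l : (Fin k → ℕ) × (Fin k → ℕ))
    (t : T.σ × Fin k × Fin k) : Prop :=
  ∃ x y, T.step s.1 x y t.1 ∧ s.2.1 ≤ x.getD s.2.1 ∧ t.2.1 = x.getD s.2.1 ∧
    s.2.2 ≤ y.getD s.2.2 ∧ t.2.2 = y.getD s.2.2 ∧ l = (vec x, vec y)

lemma PE_finite (T : Tr (Fin k) (Fin k)) (s t : T.σ × Fin k × Fin k) :
    {l | PE T s l t}.Finite := by
  have h : (Set.range (fun z : Option (Fin k) × Option (Fin k) =>
    ((vec z.1, vec z.2) : (Fin k → ℕ) × (Fin k → ℕ)))).Finite := Set.finite_range _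
  apply h.subset
  rintro l ⟨x, y, -, -, -, -, -, rfl⟩
  exact ⟨(x, y), rfl⟩

lemma walk_to_run (T : Tr (Fin k) (Fin k)) {s t : T.σ × Fin k × Fin k}
    {l : (Fin k → ℕ) × (Fin k → ℕ)} (h : Wk (PE T) Set.univ s l t) :
    ∃ u v, T.Run s.1 u v t.1 ∧ l = (cnt u, cnt v) ∧
      s.2.1 ≤ t.2.1 ∧ s.2.2 ≤ t.2.2 ∧
      (∀ a ∈ u, s.2.1 ≤ a ∧ a ≤ t.2.1) ∧ u.Pairwise (· ≤ ·) ∧
      (∀ a ∈ v, s.2.2 ≤ a ∧ a ≤ t.2.2) ∧ v.Pairwise (· ≤ ·) := by
  induction h with
  | @edge s t m h =>
    obtain ⟨x, y, hs, h1, h2, h3, h4, rfl⟩ := h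
    refine ⟨x.toList ++ [], y.toList ++ [], Tr.Run.cons hs (Tr.Run.nil _), ?_, ?_, ?_, ?_, ?_,
      ?_, ?_⟩
    · simp [vec]
    · rw [h2]; exact h1
    · rw [h4]; exact h3
    · intro a ha
      cases x with
      | none => simp at ha
      | some x =>
        simp only [Option.toList_some, List.append_nil, List.mem_singleton] at ha
        subst ha
        simp only [Option.getD_some] at h1 h2
        exact ⟨h1, h2.ge⟩
    · cases x <;> simp
    · intro a ha
      cases y with
      | none => simp at ha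
      | some x =>
        simp only [Option.toList_some, List.append_nil, List.mem_singleton] at ha
        subst ha
        simp only [Option.getD_some] at h3 h4
        exact ⟨h3, h4.ge⟩
    · cases y <;> simp
  | @cons s r t m n h _ _ ih =>
    obtain ⟨x, y, hs, h1, h2, h3, h4, rfl⟩ := h
    obtain ⟨u, v, hr, rfl, g1, g2, g3, g4, g5, g6⟩ := ih
    refine ⟨x.toList ++ u, y.toList ++ v, Tr.Run.cons hs hr, ?_, ?_, ?_, ?_, ?_, ?_, ?_⟩
    · rw [cnt_append, cnt_append]; rfl
    · rw [← h2] at h1; exact h1.trans g1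
    · rw [← h4] at h3; exact h3.trans g2
    · intro a ha
      rw [← h2] at h1
      rcases List.mem_append.1 ha with ha | ha
      · cases x with
        | none => simp at ha
        | some x =>
          simp only [Option.toList_some, List.mem_singleton] at ha
          subst ha
          simp only [Option.getD_some] at h2
          rw [h2] at h1 g1
          exact ⟨h1, g1⟩
      · exact ⟨h1.trans (g3 a ha).1, (g3 a ha).2⟩
    · cases x with
      | none => simpa using g4
      | some x =>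
        simp only [Option.getD_some] at h2
        simp only [Option.toList_some, List.singleton_append, List.pairwise_cons]
        exact ⟨fun a ha => by rw [← h2]; exact (g3 a ha).1, g4⟩
    · intro a ha
      rw [← h4] at h3
      rcases List.mem_append.1 ha with ha | ha
      · cases y with
        | none => simp at ha
        | some y =>
          simp only [Option.toList_some, List.mem_singleton] at ha
          subst ha
          simp only [Option.getD_some] at h4
          rw [h4] at h3 g2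
          exact ⟨h3, g2⟩
      · exact ⟨h3.trans (g5 a ha).1, (g5 a ha).2⟩
    · cases y with
      | none => simpa using g6
      | some y =>
        simp only [Option.getD_some] at h4
        simp only [Option.toList_some, List.singleton_append, List.pairwise_cons]
        exact ⟨fun a ha => by rw [← h4]; exact (g5 a ha).1, g6⟩

lemma aux_sorted (i : Fin k) (x : Option (Fin k)) (u : List (Fin k))
    (h1 : ∀ a ∈ x.toList ++ u, i ≤ a) (h2 : (x.toList ++ u).Pairwise (· ≤ ·)) :
    i ≤ x.getD i ∧ (∀ a ∈ u, x.getD i ≤ a) ∧ u.Pairwise (· ≤ ·) := by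
  cases x with
  | none =>
    simp only [Option.toList_none, List.nil_append] at h1 h2
    exact ⟨le_refl _, h1, h2⟩
  | some x =>
    simp only [Option.toList_some, List.singleton_append, List.pairwise_cons] at h2
    refine ⟨h1 x (by simp), h2.1, h2.2⟩

lemma run_to_walk (T : Tr (Fin k) (Fin k)) {p q : T.σ} {u v : List (Fin k)}
    (h : T.Run p u v q) : ∀ i j : Fin k, (∀ a ∈ u, i ≤ a) → u.Pairwise (· ≤ ·) →
      (∀ a ∈ v, j ≤ a) → v.Pairwise (· ≤ ·) → (p = q ∧ u = [] ∧ v = []) ∨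
      ∃ i' j', Wk (PE T) Set.univ (p, i, j) (cnt u, cnt v) (q, i', j') := by
  induction h with
  | nil p => intro i j _ _ _ _; left; exact ⟨rfl, rfl, rfl⟩
  | @cons p q r x y u v hs _ ih =>
    intro i j h1 h2 h3 h4
    right
    obtain ⟨a1, a2, a3⟩ := aux_sorted i x u h1 h2
    obtain ⟨b1, b2, b3⟩ := aux_sorted j y v h3 h4
    have hE : PE T (p, i, j) (vec x, vec y) (q, x.getD i, y.getD j) :=
      ⟨x, y, hs, a1, rfl, b1, rfl, rfl⟩
    rcases ih (x.getD i) (y.getD j) a2 a3 b2 b3 with ⟨rfl, rfl, rfl⟩ | ⟨i', j', hw⟩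
    · refine ⟨x.getD i, y.getD j, ?_⟩
      rw [List.append_nil, List.append_nil]
      exact Wk.edge hE
    · refine ⟨i', j', ?_⟩
      have := Wk.cons hE (Set.mem_univ _) hw
      rw [cnt_append, cnt_append]
      exact this

/-- allowed periods -/
def Per (k : ℕ) : Set ((Fin k → ℕ) × (Fin k → ℕ)) :=
  {l | ∃ (i j : Fin k) (q p : ℕ), l = (Pi.single i q, Pi.single j p)}

lemma cnt_const (u : List (Fin k)) (i : Fin k) (h : ∀ a ∈ u, a = i) :
    cnt u = Pi.single i u.length := by
  funext j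
  unfold cnt
  by_cases hj : j = i
  · subst hj
    rw [Pi.single_eq_same, List.count_eq_length]
    intro b hb; exact (h b hb).symm
  · rw [Pi.single_eq_of_ne hj, List.count_eq_zero]
    intro hm; exact hj (h j hm)

lemma cycle_per (T : Tr (Fin k) (Fin k)) :
    {m | ∃ v, Wk (PE T) Set.univ v m v} ⊆ Per k := by
  rintro m ⟨v, hv⟩
  obtain ⟨u, w, -, rfl, -, -, h3, -, h5, -⟩ := walk_to_run T hv
  refine ⟨v.2.1, v.2.2, u.length, w.length, ?_⟩
  rw [cnt_const u v.2.1 (fun a ha => le_antisymm (h3 a ha).2 (h3 a ha).1),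
    cnt_const w v.2.2 (fun a ha => le_antisymm (h5 a ha).2 (h5 a ha).1)]

/-- pairs of exponent vectors related by a transducer -/
def PP (T : Tr (Fin k) (Fin k)) : Set ((Fin k → ℕ) × (Fin k → ℕ)) :=
  {l | ∃ u v, T.rel u v ∧ u.Pairwise (· ≤ ·) ∧ v.Pairwise (· ≤ ·) ∧ l = (cnt u, cnt v)}

theorem PP_slin [NeZero k] (T : Tr (Fin k) (Fin k)) : SLin (Per k) (PP T) := by
  have := T.fin
  classical
  have e : PP T = (⋃ z ∈ ({z : (T.σ × T.σ) × (Fin k × Fin k) | T.start z.1.1 ∧ T.acc z.1.2}),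
      {m | Wk (PE T) ((Finset.univ : Finset (T.σ × Fin k × Fin k)) : Set _)
        (z.1.1, 0, 0) m (z.1.2, z.2.1, z.2.2)}) ∪
      {m | m = 0 ∧ ∃ p, T.start p ∧ T.acc p} := by
    ext l
    constructor
    · rintro ⟨u, v, ⟨p, q, hp, hq, hr⟩, hu, hv, rfl⟩
      rcases run_to_walk T hr 0 0 (fun a _ => by simp) hu (fun a _ => by simp) hv with
        ⟨rfl, rfl, rfl⟩ | ⟨i', j', hw⟩
      · right
        exact ⟨by rw [cnt_nil]; rfl, p, hp, hq⟩
      · left
        rw [Set.mem_iUnion₂]
        refine ⟨((p, q), (i', j')), ⟨hp, hq⟩, ?_⟩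
        rw [Finset.coe_univ]
        exact hw
    · rintro (h | ⟨rfl, p, hp, hq⟩)
      · rw [Set.mem_iUnion₂] at h
        obtain ⟨⟨⟨p, q⟩, ⟨i', j'⟩⟩, ⟨hp, hq⟩, hw⟩ := h
        rw [Finset.coe_univ] at hw
        obtain ⟨u, v, hr, rfl, -, -, -, hu, -, hv⟩ := walk_to_run T hw
        exact ⟨u, v, ⟨p, q, hp, hq, hr⟩, hu, hv, rfl⟩
      · exact ⟨[], [], ⟨p, p, hp, hq, Tr.Run.nil _⟩, by simp, by simp, by rw [cnt_nil]; rfl⟩
  rw [e]
  apply SLin.union
  · apply SLin.biUnion (Set.toFinite _)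
    intro z _
    exact (Wk.slin (PE_finite T) Finset.univ _ _).mono (cycle_per T)
  · apply SLin.finite
    apply (Set.finite_singleton (0 : (Fin k → ℕ) × (Fin k → ℕ))).subset
    rintro m ⟨rfl, -⟩
    rfl

end Pool.Agent.Helper288.Cone
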