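import Pool.Agent.Helper288.ConeP

set_option autoImplicit false

namespace Pool.Agent.Helper288.Cone

section rec
variable {ι : Type} [DecidableEq ι]

/-- recognizable sets with given threshold and period -/
def RecTM (T M : ℕ) (A : Set (ι → ℕ)) : Prop :=
  ∀ (n : ι → ℕ) (b : ι), T ≤ n b → (n ∈ A ↔ n + Pi.single b M ∈ A)

/-- recognizable sets -/
def Rec (A : Set (ι → ℕ)) : Prop := ∃ T M, 0 < M ∧ RecTM T M A

lemma RecTM.iter {T M : ℕ} {A : Set (ι → ℕ)} (h : RecTM T M A) (n : ι → ℕ) (b : ι)
    (hb : T ≤ n b) (t : ℕ) : n ∈ A ↔ n + Pi.single b (t * M) ∈ A := by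
  induction t with
  | zero => simp
  | succ t ih =>
    have h1 : T ≤ (n + Pi.single b (t * M) : ι → ℕ) b := by
      rw [Pi.add_apply]; omega
    have h2 := h (n + Pi.single b (t * M)) b h1
    have h3 : n + Pi.single b ((t + 1) * M) = n + Pi.single b (t * M) + Pi.single b M := by
      rw [add_assoc, ← Pi.single_add]
      congr 2
      ring
    rw [ih, h2, h3]

lemma RecTM.mono {T M T' M' : ℕ} {A : Set (ι → ℕ)} (h : RecTM T M A) (hT : T ≤ T')
    (hM : M ∣ M') : RecTM T' M' A := by
  obtain ⟨t, rfl⟩ := hM
  intro n b hb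
  rw [mul_comm]
  exact h.iter n b (hT.trans hb) t

lemma Rec.common {A B : Set (ι → ℕ)} (hA : Rec A) (hB : Rec B) :
    ∃ T M, 0 < M ∧ RecTM T M A ∧ RecTM T M B := by
  obtain ⟨T, M, hM, h⟩ := hA
  obtain ⟨T', M', hM', h'⟩ := hB
  exact ⟨max T T', M * M', Nat.mul_pos hM hM', h.mono (le_max_left _ _) (dvd_mul_right _ _),
    h'.mono (le_max_right _ _) (dvd_mul_left _ _)⟩

lemma Rec.union {A B : Set (ι → ℕ)} (hA : Rec A) (hB : Rec B) : Rec (A ∪ B) := by
  obtain ⟨T, M, hM, h1, h2⟩ := hA.common hB
  exact ⟨T, M, hM, fun n b hb => or_congr (h1 n b hb) (h2 n b hb)⟩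

lemma Rec.inter {A B : Set (ι → ℕ)} (hA : Rec A) (hB : Rec B) : Rec (A ∩ B) := by
  obtain ⟨T, M, hM, h1, h2⟩ := hA.common hB
  exact ⟨T, M, hM, fun n b hb => and_congr (h1 n b hb) (h2 n b hb)⟩

lemma Rec.compl {A : Set (ι → ℕ)} (hA : Rec A) : Rec Aᶜ := by
  obtain ⟨T, M, hM, h1⟩ := hA
  exact ⟨T, M, hM, fun n b hb => not_congr (h1 n b hb)⟩

lemma Rec.univ : Rec (Set.univ : Set (ι → ℕ)) := ⟨0, 1, one_pos, fun _ _ _ => by simp⟩

lemma Rec.empty : Rec (∅ : Set (ι → ℕ)) := ⟨0, 1, one_pos, fun _ _ _ => by simp⟩

lemma Rec.singleton [Fintype ι] (x : ι → ℕ) : Rec ({x} : Set (ι → ℕ)) := by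
  refine ⟨∑ i, x i + 1, 1, one_pos, fun n b hb => ?_⟩
  have h1 : x b ≤ ∑ i, x i := Finset.single_le_sum (fun _ _ => Nat.zero_le _) (Finset.mem_univ b)
  constructor
  · intro h
    rw [Set.mem_singleton_iff] at h
    rw [h] at hb; omega
  · intro h
    rw [Set.mem_singleton_iff] at h
    have := congrFun h b
    simp at this
    omega

lemma Rec.finite [Fintype ι] {A : Set (ι → ℕ)} (hA : A.Finite) : Rec A := by
  induction A, hA using Set.Finite.induction_on with
  | empty => exact Rec.empty
  | insert _ _ ih => rw [Set.insert_eq]; exact (Rec.singleton _).union ih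

end rec

section lin
variable {ι : Type} [Fintype ι] [DecidableEq ι] {k : ℕ}

/-- affine map with axis periods -/
def lin (c : Fin k → ℕ) (j : ι → Fin k) (p : ι → ℕ) (x : ι → ℕ) : Fin k → ℕ :=
  fun b => c b + ∑ s, if j s = b then x s * p s else 0

lemma lin_add_single (c : Fin k → ℕ) (j : ι → Fin k) (p : ι → ℕ) (x : ι → ℕ) (s : ι) (m : ℕ) :
    lin c j p (x + Pi.single s m) = lin c j p x + Pi.single (j s) (m * p s) := by
  funext b
  simp only [lin, Pi.add_apply]
  rw [add_assoc]
  congr 1
  have h1 : ∀ r : ι, (if j r = b then (x r + (Pi.single s m : ι → ℕ) r) * p r else 0) =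
      (if j r = b then x r * p r else 0) +
        (if r = s then (if j s = b then m * p s else 0) else 0) := by
    intro r
    by_cases hr : r = s
    · subst hr
      by_cases hb : j r = b
      · simp [hb]; ring
      · simp [hb]
    · simp [hr]
  rw [Finset.sum_congr rfl (fun r _ => h1 r), Finset.sum_add_distrib]
  congr 1
  rw [Finset.sum_ite_eq' Finset.univ s]
  simp only [Finset.mem_univ, if_true]
  by_cases hb : j s = b
  · subst hb; simp
  · rw [if_neg hb, Pi.single_eq_of_ne (Ne.symm hb)]

lemma lin_large (c : Fin k → ℕ) (j : ι → Fin k) (p : ι → ℕ) (x : ι → ℕ) (b : Fin k) (H : ℕ)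
    (h : c b + ∑ s, p s * H < lin c j p x b) : ∃ s, j s = b ∧ 0 < p s ∧ H ≤ x s := by
  by_contra hcon
  push Not at hcon
  have : lin c j p x b ≤ c b + ∑ s, p s * H := by
    unfold lin
    apply Nat.add_le_add_left
    apply Finset.sum_le_sum
    intro s _
    split_ifs with hs
    · rcases Nat.eq_zero_or_pos (p s) with h0 | h0
      · simp [h0]
      · have := hcon s hs h0
        rw [mul_comm]
        exact Nat.mul_le_mul_left _ this.le
    · exact Nat.zero_le _
  omega

lemma single_decomp (x : ι → ℕ) (s : ι) (m : ℕ) (h : m ≤ x s) :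
    ∃ x0 : ι → ℕ, x = x0 + Pi.single s m ∧ x0 s = x s - m := by
  refine ⟨Function.update x s (x s - m), ?_, by simp⟩
  funext r
  by_cases hr : r = s
  · subst hr; simp; omega
  · simp [hr]

lemma Rec.image_lin {B : Set (ι → ℕ)} (hB : Rec B) (c : Fin k → ℕ) (j : ι → Fin k) (p : ι → ℕ) :
    Rec (lin c j p '' B) := by
  obtain ⟨T0, M0, hM0, hR⟩ := hB
  set Pp := ∏ s, (if p s = 0 then 1 else p s) with hPp
  have hPp0 : 0 < Pp := by
    apply Finset.prod_pos
    intro s _
    split_ifs with h <;> omega
  set M := M0 * Pp with hM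
  have hdiv : ∀ s, 0 < p s → ∃ t, M = (t * M0) * p s := by
    intro s hs
    have h1 : (if p s = 0 then 1 else p s) ∣ Pp := Finset.dvd_prod_of_mem _ (Finset.mem_univ s)
    rw [if_neg hs.ne'] at h1
    obtain ⟨t, ht⟩ := h1
    exact ⟨t, by rw [hM, ht]; ring⟩
  refine ⟨∑ b, c b + ∑ s, p s * (T0 + M) + 1, M, Nat.mul_pos hM0 hPp0, ?_⟩
  intro n b hb
  have hcb : c b ≤ ∑ b, c b := Finset.single_le_sum (fun _ _ => Nat.zero_le _) (Finset.mem_univ b)
  constructor
  · rintro ⟨x, hx, rfl⟩
    obtain ⟨s, rfl, hs2, hs3⟩ := lin_large c j p x b (T0 + M) (by omega)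
    obtain ⟨t, ht⟩ := hdiv s hs2
    refine ⟨x + Pi.single s (t * M0), (hR.iter x s (by omega) t).1 hx, ?_⟩
    rw [lin_add_single, ← ht]
  · rintro ⟨x, hx, hxn⟩
    have hlarge : c b + ∑ s, p s * (T0 + M) < lin c j p x b := by
      rw [hxn]; simp; omega
    obtain ⟨s, rfl, hs2, hs3⟩ := lin_large c j p x b (T0 + M) hlarge
    obtain ⟨t, ht⟩ := hdiv s hs2
    have hle : t * M0 ≤ M := by rw [ht]; exact Nat.le_mul_of_pos_right _ hs2
    obtain ⟨x0, hx0, hx0s⟩ := single_decomp x s (t * M0) (by omega)
    refine ⟨x0, ?_, ?_⟩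
    · rw [hR.iter x0 s (by omega) t, ← hx0]; exact hx
    · rw [hx0, lin_add_single, ← ht] at hxn
      exact add_right_cancel hxn

/-- constant vectors -/
def IsConst (m : Fin k → ℕ) : Prop := ∀ a b, m a = m b

variable (hk : 2 ≤ k) (c c' : Fin k → ℕ) (i j : ι → Fin k) (q p : ι → ℕ)

/-- the piece attached to a linear set -/
def KB : Set (Fin k → ℕ) := {n | ∃ x, n = lin c' j p x ∧ ¬ IsConst (lin c i q x)}

/-- triviality of a trade -/
def Triv (s s' : ι) : Prop := q s * p s' = q s' * p s ∧ (i s = i s' ∨ q s * p s' = 0)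

include hk

lemma exists_ne' (a : Fin k) : ∃ b : Fin k, b ≠ a := by
  have : Nontrivial (Fin k) := Fin.nontrivial_iff_two_le.2 hk
  exact exists_ne a

lemma trade (s s' : ι) (hj : j s = j s') (hnt : ¬ Triv i q p s s') (x : ι → ℕ)
    (hx : p s' ≤ x s) (hc : IsConst (lin c i q x)) : lin c' j p x ∈ KB c c' i j q p := by
  obtain ⟨x0, rfl, -⟩ := single_decomp x s (p s') hx
  refine ⟨x0 + Pi.single s' (p s), ?_, ?_⟩
  · rw [lin_add_single, lin_add_single, hj, mul_comm]
  · intro hc'
    rw [lin_add_single] at hc hc'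
    apply hnt
    unfold Triv
    by_cases hi : i s = i s'
    · obtain ⟨b, hb⟩ := exists_ne' hk (i s)
      have h1 := hc b (i s)
      have h2 := hc' b (i s)
      rw [← hi] at h2
      simp only [Pi.add_apply, Pi.single_eq_same, Pi.single_eq_of_ne hb] at h1 h2
      refine ⟨?_, Or.inl hi⟩
      have : p s' * q s = p s * q s' := by omega
      rw [mul_comm (q s), mul_comm (q s')]; exact this
    · have h1 := hc (i s) (i s')
      have h2 := hc' (i s) (i s')
      simp only [Pi.add_apply, Pi.single_eq_same, Pi.single_eq_of_ne hi,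
        Pi.single_eq_of_ne (Ne.symm hi)] at h1 h2
      have h3 : p s' * q s = 0 := by omega
      have h4 : p s * q s' = 0 := by omega
      rw [mul_comm (q s), mul_comm (q s'), h3, h4]
      exact ⟨rfl, Or.inr rfl⟩

lemma bad_large (s s' s2 : ι) (h1 : j s = j s2) (h2 : j s' = j s2) (hp2 : 0 < p s2)
    (hnt : ¬ Triv i q p s s') (x : ι → ℕ) (hx : ∑ r, p r ≤ x s2)
    (hc : IsConst (lin c i q x)) : lin c' j p x ∈ KB c c' i j q p := by
  have hps : p s ≤ ∑ r, p r := Finset.single_le_sum (fun _ _ => Nat.zero_le _) (Finset.mem_univ s)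
  have hps' : p s' ≤ ∑ r, p r :=
    Finset.single_le_sum (fun _ _ => Nat.zero_le _) (Finset.mem_univ s')
  by_cases t1 : Triv i q p s2 s
  · by_cases t2 : Triv i q p s2 s'
    · exfalso
      apply hnt
      obtain ⟨a1, a2⟩ := t1
      obtain ⟨b1, b2⟩ := t2
      have e1 : q s * p s' = q s' * p s := by
        have : (q s * p s') * p s2 = (q s' * p s) * p s2 := by
          calc (q s * p s') * p s2 = (q s * p s2) * p s' := by ring
            _ = (q s2 * p s) * p s' := by rw [a1]
            _ = (q s2 * p s') * p s := by ring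
            _ = (q s' * p s2) * p s := by rw [b1]
            _ = (q s' * p s) * p s2 := by ring
        exact Nat.eq_of_mul_eq_mul_right hp2 this
      refine ⟨e1, ?_⟩
      rcases a2 with a2 | a2
      · rcases b2 with b2 | b2
        · left; rw [← a2, b2]
        · right
          rw [b2] at b1
          have : q s' = 0 := by
            rcases Nat.mul_eq_zero.1 b1.symm with h | h
            · exact h
            · omega
          rw [e1, this]; ring
      · right
        rw [a2] at a1
        have : q s = 0 := by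
          rcases Nat.mul_eq_zero.1 a1.symm with h | h
          · exact h
          · omega
        rw [this]; ring
    · exact trade hk c c' i j q p s2 s' h2.symm t2 x (hps'.trans hx) hc
  · exact trade hk c c' i j q p s2 s h1.symm t1 x (hps.trans hx) hc

theorem KB_cases : Rec (KB c c' i j q p) ∨
    ∃ (R : Set (Fin k → ℕ)) (α β : Fin k → ℚ), Rec R ∧ (∀ b, 0 < α b) ∧
      ∀ n, n ∈ KB c c' i j q p ↔
        n ∈ R ∧ ¬ ∀ b b', α b * n b + β b = α b' * n b' + β b' := by
  classical
  by_cases h : ∃ Bd, ∀ x, IsConst (lin c i q x) → (∃ a, Bd < lin c i q x a) →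
      lin c' j p x ∈ KB c c' i j q p
  · left
    obtain ⟨Bd, hBd⟩ := h
    have e : KB c c' i j q p =
        lin c' j p '' ({x | IsConst (lin c i q x) ∧ ∀ a, lin c i q x a ≤ Bd}ᶜ) := by
      ext n
      constructor
      · rintro ⟨x, rfl, hx⟩
        exact ⟨x, fun h => hx h.1, rfl⟩
      · rintro ⟨x, hx, rfl⟩
        by_cases hc : IsConst (lin c i q x)
        · apply hBd x hc
          by_contra hcon
          push Not at hcon
          exact hx ⟨hc, hcon⟩
        · exact ⟨x, rfl, hc⟩
    rw [e]
    apply Rec.image_lin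
    apply Rec.compl
    refine ⟨Bd + 1, 1, one_pos, fun x s hs => ?_⟩
    rcases Nat.eq_zero_or_pos (q s) with h0 | h0
    · have : lin c i q (x + Pi.single s 1) = lin c i q x := by
        rw [lin_add_single, h0]; simp
      change (_ ∧ _) ↔ (_ ∧ _)
      rw [this]
    · have h1 : Bd < lin c i q x (i s) := by
        unfold lin
        have : (if i s = i s then x s * q s else 0) ≤
            ∑ r, if i r = i s then x r * q r else 0 :=
          Finset.single_le_sum (f := fun r => if i r = i s then x r * q r else 0)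
            (fun _ _ => Nat.zero_le _) (Finset.mem_univ s)
        rw [if_pos rfl] at this
        nlinarith
      have h2 : Bd < lin c i q (x + Pi.single s 1) (i s) := by
        rw [lin_add_single]
        simp only [Pi.add_apply]
        omega
      constructor
      · rintro ⟨-, h3⟩; have := h3 (i s); omega
      · rintro ⟨-, h3⟩; have := h3 (i s); omega
  · right
    push Not at h
    have hqp : ∀ s, 0 < q s → 0 < p s := by
      intro s hs
      by_contra hp
      have hp0 : p s = 0 := by omega
      obtain ⟨x, hc, -, hn⟩ := h 0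
      apply hn
      refine ⟨x + Pi.single s 1, by rw [lin_add_single, hp0]; simp, ?_⟩
      intro hc'
      rw [lin_add_single] at hc'
      obtain ⟨b, hb⟩ := exists_ne' hk (i s)
      have h1 := hc b (i s)
      have h2 := hc' b (i s)
      simp only [Pi.add_apply, Pi.single_eq_same, Pi.single_eq_of_ne hb] at h2
      omega
    obtain ⟨x, hc, ⟨a0, ha0⟩, hn⟩ := h (∑ a, c a + ∑ s, q s * ∑ r, p r)
    have hS : ∀ a, ∃ s, i s = a ∧ 0 < q s ∧ ∑ r, p r ≤ x s := by
      intro a
      apply lin_large c i q x a
      have h1 : lin c i q x a = lin c i q x a0 := hc a a0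
      have h2 : c a ≤ ∑ a, c a :=
        Finset.single_le_sum (fun _ _ => Nat.zero_le _) (Finset.mem_univ a)
      omega
    choose S hS1 hS2 hS3 using hS
    have hinj : Function.Injective (fun a => j (S a)) := by
      intro a b hab
      by_contra hne
      apply hn
      have hnt : ¬ Triv i q p (S a) (S b) := by
        rintro ⟨-, h2⟩
        rcases h2 with h2 | h2
        · rw [hS1, hS1] at h2; exact hne h2
        · have h3 := Nat.mul_pos (hS2 a) (hqp _ (hS2 b))
          omega
      exact bad_large hk c c' i j q p (S a) (S b) (S a) rfl hab.symm (hqp _ (hS2 a)) hnt x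
        (hS3 a) hc
    have hsurj : Function.Surjective (fun a => j (S a)) := Finite.injective_iff_surjective.1 hinj
    have htriv : ∀ s0 s1, j s0 = j s1 → Triv i q p s0 s1 := by
      intro s0 s1 h01
      by_contra hnt
      apply hn
      obtain ⟨a, ha⟩ := hsurj (j s0)
      simp only at ha
      exact bad_large hk c c' i j q p s0 s1 (S a) ha.symm (by rw [ha, h01]) (hqp _ (hS2 a)) hnt x
        (hS3 a) hc
    let e : Fin k ≃ Fin k := Equiv.ofBijective (fun a => j (S a)) ⟨hinj, hsurj⟩
    have he : ∀ a, e a = j (S a) := fun a => rfl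
    let α : Fin k → ℚ := fun b => (q (S (e.symm b)) : ℚ) / p (S (e.symm b))
    let β : Fin k → ℚ := fun b => c (e.symm b) - α b * c' b
    have hα : ∀ b, 0 < α b := by
      intro b
      have h1 := hS2 (e.symm b)
      have h2 := hqp _ h1
      have h1' : (0 : ℚ) < q (S (e.symm b)) := by exact_mod_cast h1
      have h2' : (0 : ℚ) < p (S (e.symm b)) := by exact_mod_cast h2
      exact div_pos h1' h2'
    have hkey : ∀ y a, ((lin c i q y a : ℕ) : ℚ) = α (e a) * (lin c' j p y (e a) : ℕ) + β (e a) := by
      intro y a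
      have hterm : ∀ s, ((if i s = a then y s * q s else 0 : ℕ) : ℚ) =
          α (e a) * ((if j s = e a then y s * p s else 0 : ℕ) : ℚ) := by
        intro s
        have hαe : α (e a) = (q (S a) : ℚ) / p (S a) := by
          simp only [α, Equiv.symm_apply_apply]
        have hpS : 0 < p (S a) := hqp _ (hS2 a)
        have hpS' : (p (S a) : ℚ) ≠ 0 := by exact_mod_cast hpS.ne'
        by_cases hjs : j s = e a
        · rw [if_pos hjs]
          obtain ⟨t1, t2⟩ := htriv s (S a) (by rw [hjs]; rfl)
          have t1' : (q s : ℚ) * p (S a) = q (S a) * p s := by exact_mod_cast t1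
          rcases Nat.eq_zero_or_pos (q s) with h0 | h0
          · have hps : p s = 0 := by
              rw [h0, zero_mul] at t1
              rcases Nat.mul_eq_zero.1 t1.symm with h | h
              · have := hS2 a; omega
              · exact h
            rw [hps, h0]; simp
          · have hia : i s = a := by
              rcases t2 with t2 | t2
              · rw [t2, hS1]
              · have h3 := Nat.mul_pos h0 hpS
                omega
            rw [if_pos hia, hαe]
            push_cast
            field_simp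
            linear_combination (y s : ℚ) * t1'
        · rw [if_neg hjs]
          rcases Nat.eq_zero_or_pos (q s) with h0 | h0
          · simp [h0]
          · have hia : i s ≠ a := by
              intro hia
              obtain ⟨a', ha'⟩ := hsurj (j s)
              simp only at ha'
              obtain ⟨t1, t2⟩ := htriv s (S a') ha'.symm
              have : i s = a' := by
                rcases t2 with t2 | t2
                · rw [t2, hS1]
                · have h3 := Nat.mul_pos h0 (hqp _ (hS2 a'))
                  omega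
              apply hjs
              rw [← ha', ← this, hia]; rfl
            rw [if_neg hia]; simp
      have hβ : β (e a) = c a - α (e a) * c' (e a) := by
        simp only [β, Equiv.symm_apply_apply]
      rw [hβ]
      unfold lin
      push_cast
      have := Finset.sum_congr rfl (fun s (_ : s ∈ (Finset.univ : Finset ι)) => hterm s)
      push_cast at this
      rw [← Finset.mul_sum] at this
      rw [this]
      ring
    refine ⟨lin c' j p '' Set.univ, α, β, Rec.univ.image_lin c' j p, hα, fun n => ?_⟩
    have hline : ∀ y, IsConst (lin c i q y) ↔ ∀ b b', α b * (lin c' j p y b : ℕ) + β b =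
        α b' * (lin c' j p y b' : ℕ) + β b' := by
      intro y
      constructor
      · intro hcy b b'
        have h1 := hkey y (e.symm b)
        have h2 := hkey y (e.symm b')
        rw [Equiv.apply_symm_apply] at h1 h2
        rw [← h1, ← h2, hcy]
      · intro hl a b
        have h1 := hkey y a
        have h2 := hkey y b
        rw [hl (e a) (e b), ← h2] at h1
        exact_mod_cast h1
    constructor
    · rintro ⟨y, rfl, hy⟩
      exact ⟨⟨y, Set.mem_univ _, rfl⟩, fun hl => hy ((hline y).2 hl)⟩
    · rintro ⟨⟨y, -, rfl⟩, hl⟩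
      exact ⟨y, rfl, fun hc => hl ((hline y).1 hc)⟩

end lin

end Pool.Agent.Helper288.Cone
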