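import Pool.Agent.Helper288.ConeTr

set_option autoImplicit false

open scoped Pointwise

namespace Pool.Agent.Helper288.Cone

section semi
variable {M : Type} [AddCommMonoid M]

/-- linear sets with periods in `Q` -/
def Lin (Q : Set M) (A : Set M) : Prop :=
  ∃ (c : M) (Ω : Finset M), (∀ s ∈ Ω, s ∈ Q) ∧
    ∀ x, x ∈ A ↔ ∃ y ∈ AddSubmonoid.closure (Ω : Set M), x = c + y

/-- semilinear sets with periods in `Q` -/
def SLin (Q : Set M) (A : Set M) : Prop :=
  ∃ F : Set (Set M), F.Finite ∧ (∀ B ∈ F, Lin Q B) ∧ A = ⋃₀ F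

lemma SLin.mono {Q Q' A : Set M} (h : Q ⊆ Q') (hA : SLin Q A) : SLin Q' A := by
  obtain ⟨F, h1, h2, h3⟩ := hA
  refine ⟨F, h1, fun B hB => ?_, h3⟩
  obtain ⟨c, Ω, h4, h5⟩ := h2 B hB
  exact ⟨c, Ω, fun s hs => h (h4 s hs), h5⟩

lemma SLin.empty (Q : Set M) : SLin Q ∅ := ⟨∅, Set.finite_empty, by simp, by simp⟩

lemma SLin.of_lin {Q A : Set M} (h : Lin Q A) : SLin Q A :=
  ⟨{A}, Set.finite_singleton _, by simpa using h, by simp⟩

lemma Lin.singleton (Q : Set M) (x : M) : Lin Q {x} := by
  refine ⟨x, ∅, by simp, fun y => ?_⟩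
  simp

lemma SLin.union {Q A B : Set M} (hA : SLin Q A) (hB : SLin Q B) : SLin Q (A ∪ B) := by
  obtain ⟨F, h1, h2, rfl⟩ := hA
  obtain ⟨F', h1', h2', rfl⟩ := hB
  refine ⟨F ∪ F', h1.union h1', ?_, (Set.sUnion_union F F').symm⟩
  rintro C (hC | hC)
  · exact h2 C hC
  · exact h2' C hC

lemma SLin.finite {Q A : Set M} (hA : A.Finite) : SLin Q A := by
  induction A, hA using Set.Finite.induction_on with
  | empty => exact SLin.empty Q
  | insert _ _ ih =>
    rw [Set.insert_eq]
    exact (SLin.of_lin (Lin.singleton Q _)).union ih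

lemma SLin.biUnion {Q : Set M} {ι : Type} {s : Set ι} (hs : s.Finite) {f : ι → Set M}
    (h : ∀ i ∈ s, SLin Q (f i)) : SLin Q (⋃ i ∈ s, f i) := by
  induction s, hs using Set.Finite.induction_on with
  | empty => simpa using SLin.empty Q
  | insert _ _ ih =>
    rw [Set.biUnion_insert]
    exact (h _ (Set.mem_insert _ _)).union (ih fun i hi => h i (Set.mem_insert_of_mem _ hi))

lemma Lin.add {Q A B : Set M} (hA : Lin Q A) (hB : Lin Q B) : Lin Q (A + B) := by
  classical
  obtain ⟨c, Ω, h1, h2⟩ := hA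
  obtain ⟨c', Ω', h1', h2'⟩ := hB
  refine ⟨c + c', Ω ∪ Ω', ?_, fun x => ?_⟩
  · intro s hs
    rcases Finset.mem_union.1 hs with h | h
    · exact h1 s h
    · exact h1' s h
  · rw [Finset.coe_union, AddSubmonoid.closure_union]
    constructor
    · rintro ⟨a, ha, b, hb, rfl⟩
      obtain ⟨y, hy, rfl⟩ := (h2 a).1 ha
      obtain ⟨z, hz, rfl⟩ := (h2' b).1 hb
      refine ⟨y + z, AddSubmonoid.mem_sup.2 ⟨y, hy, z, hz, rfl⟩, ?_⟩
      simp only
      abel
    · rintro ⟨w, hw, rfl⟩
      obtain ⟨y, hy, z, hz, rfl⟩ := AddSubmonoid.mem_sup.1 hw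
      refine ⟨c + y, (h2 _).2 ⟨y, hy, rfl⟩, c' + z, (h2' _).2 ⟨z, hz, rfl⟩, ?_⟩
      simp only
      abel

lemma SLin.add {Q A B : Set M} (hA : SLin Q A) (hB : SLin Q B) : SLin Q (A + B) := by
  obtain ⟨F, h1, h2, rfl⟩ := hA
  obtain ⟨F', h1', h2', rfl⟩ := hB
  refine ⟨Set.image2 (· + ·) F F', h1.image2 _ h1', ?_, ?_⟩
  · rintro C ⟨A, hA, B, hB, rfl⟩
    exact (h2 A hA).add (h2' B hB)
  · ext x
    constructor
    · rintro ⟨a, ⟨A, hA, ha⟩, b, ⟨B, hB, hb⟩, rfl⟩
      exact ⟨A + B, ⟨A, hA, B, hB, rfl⟩, ⟨a, ha, b, hb, rfl⟩⟩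
    · rintro ⟨_, ⟨A, hA, B, hB, rfl⟩, ⟨a, ha, b, hb, rfl⟩⟩
      exact ⟨a, ⟨A, hA, ha⟩, b, ⟨B, hB, hb⟩, rfl⟩

lemma Lin.star {Q A : Set M} (hA : Lin Q A) (hQ : A ⊆ Q) :
    SLin Q (AddSubmonoid.closure A : Set M) := by
  classical
  obtain ⟨c, Ω, h1, h2⟩ := hA
  have hc : c ∈ A := (h2 c).2 ⟨0, zero_mem _, by simp⟩
  have hlin : Lin Q {x | ∃ y ∈ AddSubmonoid.closure ((insert c Ω : Finset M) : Set M), x = c + y} := by
    refine ⟨c, insert c Ω, ?_, fun x => Iff.rfl⟩
    intro s hs
    rcases Finset.mem_insert.1 hs with rfl | h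
    · exact hQ hc
    · exact h1 s h
  have e : (AddSubmonoid.closure A : Set M) =
      {0} ∪ {x | ∃ y ∈ AddSubmonoid.closure ((insert c Ω : Finset M) : Set M), x = c + y} := by
    ext x
    constructor
    · intro hx0
      have hx' : x ∈ AddSubmonoid.closure A := hx0
      clear hx0
      induction hx' using AddSubmonoid.closure_induction with
      | mem x hx =>
        right
        obtain ⟨y, hy, rfl⟩ := (h2 x).1 hx
        exact ⟨y, AddSubmonoid.closure_mono (by simp) hy, rfl⟩
      | zero => left; rfl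
      | add x y hx hy ihx ihy =>
        rcases ihx with h | ⟨a, ha, h⟩
        · rw [Set.mem_singleton_iff.1 h, zero_add]; exact ihy
        · rcases ihy with h' | ⟨b, hb, h'⟩
          · rw [Set.mem_singleton_iff.1 h', add_zero]; right; exact ⟨a, ha, h⟩
          · right
            refine ⟨a + (c + b), ?_, by rw [h, h']; abel⟩
            refine add_mem ha (add_mem ?_ hb)
            exact AddSubmonoid.subset_closure (by simp)
    · rintro (h | ⟨y, hy, rfl⟩)
      · rw [Set.mem_singleton_iff.1 h]; exact zero_mem _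
      · rw [Finset.coe_insert, Set.insert_eq, AddSubmonoid.closure_union] at hy
        obtain ⟨a, ha, b, hb, rfl⟩ := AddSubmonoid.mem_sup.1 hy
        have h3 : a ∈ AddSubmonoid.closure A :=
          AddSubmonoid.closure_mono (by simpa using hc) ha
        have h4 : c + b ∈ AddSubmonoid.closure A :=
          AddSubmonoid.subset_closure ((h2 _).2 ⟨b, hb, rfl⟩)
        have : c + (a + b) = a + (c + b) := by abel
        rw [this]
        exact add_mem h3 h4
  rw [e]
  exact (SLin.of_lin (Lin.singleton Q 0)).union (SLin.of_lin hlin)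

lemma SLin.star {Q A : Set M} (hA : SLin Q A) (hQ : A ⊆ Q) :
    SLin Q (AddSubmonoid.closure A : Set M) := by
  obtain ⟨F, h1, h2, rfl⟩ := hA
  induction F, h1 using Set.Finite.induction_on with
  | empty =>
    simp only [Set.sUnion_empty, AddSubmonoid.closure_empty]
    exact SLin.finite (Set.finite_singleton _)
  | @insert B F _ _ ih =>
    rw [Set.sUnion_insert, AddSubmonoid.closure_union]
    have hB : SLin Q (AddSubmonoid.closure B : Set M) :=
      (h2 B (Set.mem_insert _ _)).star
        (fun x hx => hQ ⟨B, Set.mem_insert _ _, hx⟩)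
    have hF := ih (fun C hC => h2 C (Set.mem_insert_of_mem _ hC))
      (fun x hx => hQ (by
        obtain ⟨C, hC, hx⟩ := hx
        exact ⟨C, Set.mem_insert_of_mem _ hC, hx⟩))
    have e : ((AddSubmonoid.closure B ⊔ AddSubmonoid.closure (⋃₀ F) : AddSubmonoid M) : Set M) =
        (AddSubmonoid.closure B : Set M) + (AddSubmonoid.closure (⋃₀ F) : Set M) := by
      ext x
      rw [SetLike.mem_coe, AddSubmonoid.mem_sup, Set.mem_add]
      rfl
    rw [e]
    exact hB.add hF

/-- nonempty walks with intermediate vertices in `U` -/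
inductive Wk {V : Type} (E : V → M → V → Prop) (U : Set V) : V → M → V → Prop
  | edge {s t : V} {m : M} : E s m t → Wk E U s m t
  | cons {s r t : V} {m n : M} : E s m r → r ∈ U → Wk E U r n t → Wk E U s (m + n) t

variable {V : Type} {E : V → M → V → Prop}

lemma Wk.mono {U U' : Set V} (h : U ⊆ U') {s t : V} {m : M} (hw : Wk E U s m t) :
    Wk E U' s m t := by
  induction hw with
  | edge h1 => exact Wk.edge h1
  | cons h1 h2 _ ih => exact Wk.cons h1 (h h2) ih

lemma Wk.trans {U : Set V} {s r t : V} {m n : M} (h1 : Wk E U s m r) (hr : r ∈ U)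
    (h2 : Wk E U r n t) : Wk E U s (m + n) t := by
  induction h1 with
  | edge h => exact Wk.cons h hr h2
  | cons h h' _ ih =>
    have := Wk.cons h h' (ih hr h2)
    rwa [← add_assoc] at this

lemma Wk.star {U : Set V} {r t : V} {x n : M} (hr : r ∈ U)
    (hx : x ∈ AddSubmonoid.closure {m | Wk E U r m r}) (h2 : Wk E U r n t) :
    Wk E U r (x + n) t := by
  induction hx using AddSubmonoid.closure_induction generalizing n with
  | mem x hx => exact Wk.trans hx hr h2
  | zero => rwa [zero_add]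
  | add x y hx hy ihx ihy => rw [add_assoc]; exact ihx (ihy h2)

lemma Wk.insert_iff (U : Set V) (r s t : V) (m : M) :
    Wk E (insert r U) s m t ↔ Wk E U s m t ∨ ∃ x y z, Wk E U s x r ∧
      y ∈ AddSubmonoid.closure {m | Wk E U r m r} ∧ Wk E U r z t ∧ m = x + y + z := by
  constructor
  · intro h
    induction h with
    | edge h => left; exact Wk.edge h
    | @cons s s1 t m n h h' _ ih =>
      rcases ih with ih | ⟨x, y, z, hx, hy, hz, rfl⟩
      · rcases h' with rfl | h'
        · right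
          exact ⟨m, 0, n, Wk.edge h, zero_mem _, ih, by simp⟩
        · left; exact Wk.cons h h' ih
      · right
        rcases h' with rfl | h'
        · exact ⟨m, x + y, z, Wk.edge h, add_mem (AddSubmonoid.subset_closure hx) hy, hz, by abel⟩
        · exact ⟨m + x, y, z, Wk.cons h h' hx, hy, hz, by abel⟩
  · rintro (h | ⟨x, y, z, hx, hy, hz, rfl⟩)
    · exact h.mono (Set.subset_insert _ _)
    · have hsub := Set.subset_insert r U
      have h1 : y ∈ AddSubmonoid.closure {m | Wk E (insert r U) r m r} :=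
        AddSubmonoid.closure_mono (fun m hm => hm.mono hsub) hy
      have h2 := Wk.star (Set.mem_insert r U) h1 (hz.mono hsub)
      have h3 := Wk.trans (hx.mono hsub) (Set.mem_insert r U) h2
      rwa [← add_assoc] at h3

theorem Wk.slin [Fintype V] (hE : ∀ s t, {m | E s m t}.Finite) (U : Finset V) (s t : V) :
    SLin {m | ∃ v, Wk E Set.univ v m v} {m | Wk E (U : Set V) s m t} := by
  classical
  induction U using Finset.induction_on generalizing s t with
  | empty =>
    apply SLin.finite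
    apply (hE s t).subset
    intro m hm
    have hm' : Wk E ((∅ : Finset V) : Set V) s m t := hm
    cases hm' with
    | edge h => exact h
    | cons _ h _ => simp at h
  | insert r U _ ih =>
    have e : {m | Wk E ((insert r U : Finset V) : Set V) s m t} =
        {m | Wk E (U : Set V) s m t} ∪ ({m | Wk E (U : Set V) s m r} +
          (AddSubmonoid.closure {m | Wk E (U : Set V) r m r} : Set M) +
          {m | Wk E (U : Set V) r m t}) := by
      ext m
      rw [Finset.coe_insert, Set.mem_ofPred_eq, Wk.insert_iff, Set.mem_union]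
      apply or_congr Iff.rfl
      constructor
      · rintro ⟨x, y, z, hx, hy, hz, rfl⟩
        exact ⟨x + y, ⟨x, hx, y, hy, rfl⟩, z, hz, rfl⟩
      · rintro ⟨_, ⟨x, hx, y, hy, rfl⟩, z, hz, rfl⟩
        exact ⟨x, y, z, hx, hy, hz, rfl⟩
    rw [e]
    refine (ih s t).union (((ih s r).add ((ih r r).star ?_)).add (ih r t))
    intro m hm
    exact ⟨r, hm.mono (Set.subset_univ _)⟩

end semi

end Pool.Agent.Helper288.Cone
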