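import Pool.Agent.Helper288.ConeDefs

set_option autoImplicit false

namespace Pool.Agent.Helper288.Cone

/-- letter transducers -/
structure Tr (X Y : Type) where
  σ : Type
  fin : Fintype σ
  step : σ → Option X → Option Y → σ → Prop
  start : σ → Prop
  acc : σ → Prop

variable {X Y Z : Type}

/-- runs -/
inductive Tr.Run (T : Tr X Y) : T.σ → List X → List Y → T.σ → Prop
  | nil (p : T.σ) : Tr.Run T p [] [] p
  | cons {p q r : T.σ} {x : Option X} {y : Option Y} {u : List X} {v : List Y} :
      T.step p x y q → Tr.Run T q u v r → Tr.Run T p (x.toList ++ u) (y.toList ++ v) r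

/-- relation of a transducer -/
def Tr.rel (T : Tr X Y) (u : List X) (v : List Y) : Prop :=
  ∃ p q, T.start p ∧ T.acc q ∧ T.Run p u v q

lemma Tr.Run.trans {T : Tr X Y} {p q r : T.σ} {u u' : List X} {v v' : List Y}
    (h1 : T.Run p u v q) (h2 : T.Run q u' v' r) : T.Run p (u ++ u') (v ++ v') r := by
  induction h1 with
  | nil p => simpa using h2
  | cons hs _ ih =>
    have := Tr.Run.cons hs (ih h2)
    simpa [List.append_assoc] using this

/-- composition -/
def Tr.comp (T : Tr X Y) (S : Tr Y Z) : Tr X Z where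
  σ := T.σ × S.σ
  fin := by
    haveI := T.fin
    haveI := S.fin
    infer_instance
  step := fun p x z q =>
    (∃ y : Y, T.step p.1 x (some y) q.1 ∧ S.step p.2 (some y) z q.2) ∨
    (T.step p.1 x none q.1 ∧ q.2 = p.2 ∧ z = none) ∨
    (S.step p.2 none z q.2 ∧ q.1 = p.1 ∧ x = none)
  start := fun p => T.start p.1 ∧ S.start p.2
  acc := fun p => T.acc p.1 ∧ S.acc p.2

lemma Tr.comp_run_of (T : Tr X Y) (S : Tr Y Z) {p1 q1 : T.σ} {u : List X} {v : List Y}
    (h1 : T.Run p1 u v q1) : ∀ {p2 q2 : S.σ} {w : List Z}, S.Run p2 v w q2 →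
      (T.comp S).Run (p1, p2) u w (q1, q2) := by
  induction h1 with
  | nil p =>
    intro p2 q2 w h2
    -- only empty input steps
    generalize hv : ([] : List Y) = v at h2
    induction h2 with
    | nil q => exact Tr.Run.nil _
    | @cons a b c y z v' w' hs _ ih =>
      cases y with
      | some y => simp at hv
      | none =>
        have hv' : [] = v' := by simpa using hv
        have := ih hv'
        have h3 : (T.comp S).step (p, a) none z (p, b) := Or.inr (Or.inr ⟨hs, rfl, rfl⟩)
        exact Tr.Run.cons h3 this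
  | @cons p q r x y u v hs hr ih =>
    intro p2 q2 w h2
    cases y with
    | none =>
      have h3 : (T.comp S).step (p, p2) x none (q, p2) := Or.inr (Or.inl ⟨hs, rfl, rfl⟩)
      have h4 := ih (by simpa using h2)
      exact Tr.Run.cons h3 h4
    | some y =>
      have h2' : S.Run p2 (y :: v) w q2 := by simpa using h2
      clear h2
      generalize hv : y :: v = v0 at h2'
      induction h2' with
      | nil q => simp at hv
      | @cons a b c y' z v' w' hs' hr' ih' =>
        cases y' with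
        | none =>
          have hv' : y :: v = v' := by simpa using hv
          have := ih' hv'
          have h3 : (T.comp S).step (p, a) none z (p, b) := Or.inr (Or.inr ⟨hs', rfl, rfl⟩)
          have h5 := Tr.Run.cons h3 this
          simpa using h5
        | some y' =>
          have hv' : y :: v = y' :: v' := by simpa using hv
          obtain ⟨rfl, rfl⟩ := List.cons.inj hv'
          have h3 : (T.comp S).step (p, a) x z (q, b) := Or.inl ⟨y, hs, hs'⟩
          exact Tr.Run.cons h3 (ih hr')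

lemma Tr.of_comp_run (T : Tr X Y) (S : Tr Y Z) {p q : (T.comp S).σ} {u : List X} {w : List Z}
    (h : (T.comp S).Run p u w q) : ∃ v, T.Run p.1 u v q.1 ∧ S.Run p.2 v w q.2 := by
  induction h with
  | nil p => exact ⟨[], Tr.Run.nil _, Tr.Run.nil _⟩
  | @cons p q r x z u w hs hr ih =>
    obtain ⟨v, h1, h2⟩ := ih
    rcases hs with ⟨y, hy1, hy2⟩ | ⟨hy1, hy2, rfl⟩ | ⟨hy1, hy2, rfl⟩
    · refine ⟨y :: v, ?_, ?_⟩
      · exact Tr.Run.cons hy1 h1
      · exact Tr.Run.cons hy2 h2
    · refine ⟨v, ?_, ?_⟩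
      · exact Tr.Run.cons (y := none) hy1 h1
      · rw [hy2] at h2; simpa using h2
    · refine ⟨v, ?_, ?_⟩
      · rw [hy2] at h1; simpa using h1
      · exact Tr.Run.cons (x := none) hy1 h2

lemma Tr.comp_rel (T : Tr X Y) (S : Tr Y Z) (u : List X) (w : List Z) :
    (T.comp S).rel u w ↔ ∃ v, T.rel u v ∧ S.rel v w := by
  constructor
  · rintro ⟨p, q, hp, hq, h⟩
    obtain ⟨v, h1, h2⟩ := Tr.of_comp_run T S h
    exact ⟨v, ⟨p.1, q.1, hp.1, hq.1, h1⟩, ⟨p.2, q.2, hp.2, hq.2, h2⟩⟩
  · rintro ⟨v, ⟨p1, q1, hp1, hq1, h1⟩, ⟨p2, q2, hp2, hq2, h2⟩⟩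
    exact ⟨(p1, p2), (q1, q2), ⟨hp1, hp2⟩, ⟨hq1, hq2⟩, Tr.comp_run_of T S h1 h2⟩

/-- the transducer of a Nivat triple -/
noncomputable def nivatTr {W : Type} [Fintype W] (h : W → List X) (g : W → List Y) {σ : Type} [Fintype σ]
    (M : DFA W σ) : Tr X Y where
  σ := {s : σ × List X × List Y //
    s.2.1 ∈ ({[]} ∪ ⋃ z : W, {a | a <:+ h z} : Set (List X)) ∧
    s.2.2 ∈ ({[]} ∪ ⋃ z : W, {b | b <:+ g z} : Set (List Y))}
  fin := by
    have h1 : ({[]} ∪ ⋃ z : W, {a | a <:+ h z} : Set (List X)).Finite := by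
      apply (Set.finite_singleton _).union
      apply Set.finite_iUnion
      intro z
      have : {a | a <:+ h z} = {a | a ∈ (h z).tails} := by ext a; simp
      rw [this]
      exact List.finite_toSet _
    have h2 : ({[]} ∪ ⋃ z : W, {b | b <:+ g z} : Set (List Y)).Finite := by
      apply (Set.finite_singleton _).union
      apply Set.finite_iUnion
      intro z
      have : {a | a <:+ g z} = {a | a ∈ (g z).tails} := by ext a; simp
      rw [this]
      exact List.finite_toSet _
    have h3 : {s : σ × List X × List Y |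
        s.2.1 ∈ ({[]} ∪ ⋃ z : W, {a | a <:+ h z} : Set (List X)) ∧
        s.2.2 ∈ ({[]} ∪ ⋃ z : W, {b | b <:+ g z} : Set (List Y))}.Finite := by
      refine ((Set.finite_univ (α := σ)).prod (h1.prod h2)).subset ?_
      rintro ⟨a, b, c⟩ ⟨hb, hc⟩
      exact ⟨Set.mem_univ _, hb, hc⟩
    exact h3.fintype
  step := fun p x y q =>
    (p.1.2.1 = [] ∧ p.1.2.2 = [] ∧ x = none ∧ y = none ∧
      ∃ z : W, q.1 = (M.step p.1.1 z, h z, g z)) ∨
    (∃ x0, x = some x0 ∧ y = none ∧ p.1.1 = q.1.1 ∧ p.1.2.1 = x0 :: q.1.2.1 ∧ p.1.2.2 = q.1.2.2) ∨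
    (∃ y0, y = some y0 ∧ x = none ∧ p.1.1 = q.1.1 ∧ p.1.2.1 = q.1.2.1 ∧ p.1.2.2 = y0 :: q.1.2.2)
  start := fun p => p.1 = (M.start, [], [])
  acc := fun p => p.1.1 ∈ M.accept ∧ p.1.2.1 = [] ∧ p.1.2.2 = []

lemma nivatTr_rel {W : Type} [Fintype W] (h : W → List X) (g : W → List Y) {σ : Type} [Fintype σ]
    (M : DFA W σ) (u : List X) (v : List Y) :
    (nivatTr h g M).rel u v ↔ ∃ z ∈ M.accepts, z.flatMap h = u ∧ z.flatMap g = v := by
  constructor
  · rintro ⟨p, q, hp, hq, hr⟩
    have key : ∀ {p q : (nivatTr h g M).σ} {u : List X} {v : List Y},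
        (nivatTr h g M).Run p u v q → (nivatTr h g M).acc q →
        ∃ z, M.evalFrom p.1.1 z ∈ M.accept ∧ p.1.2.1 ++ z.flatMap h = u ∧
          p.1.2.2 ++ z.flatMap g = v := by
      intro p q u v hr hq
      induction hr with
      | nil p =>
        refine ⟨[], ?_, ?_, ?_⟩
        · simpa using hq.1
        · simpa using hq.2.1
        · simpa using hq.2.2
      | @cons p q r x y u v hs hr ih =>
        obtain ⟨z, h1, h2, h3⟩ := ih hq
        rcases hs with ⟨e1, e2, rfl, rfl, z0, hz0⟩ | ⟨x0, rfl, rfl, e1, e2, e3⟩ |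
          ⟨y0, rfl, rfl, e1, e2, e3⟩
        · refine ⟨z0 :: z, ?_, ?_, ?_⟩
          · rw [hz0] at h1
            simpa [DFA.evalFrom] using h1
          · rw [e1]; rw [hz0] at h2; simpa using h2
          · rw [e2]; rw [hz0] at h3; simpa using h3
        · refine ⟨z, ?_, ?_, ?_⟩
          · rw [e1]; exact h1
          · rw [e2]; simp [h2]
          · rw [e3]; simpa using h3
        · refine ⟨z, ?_, ?_, ?_⟩
          · rw [e1]; exact h1
          · rw [e2]; simpa using h2
          · rw [e3]; simp [h3]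
    obtain ⟨z, h1, h2, h3⟩ := key hr hq
    have hp' : p.1 = (M.start, [], []) := hp
    rw [hp'] at h1 h2 h3
    refine ⟨z, ?_, by simpa using h2, by simpa using h3⟩
    rw [DFA.mem_accepts]; exact h1
  · rintro ⟨z, hz, rfl, rfl⟩
    have key : ∀ (z : List W) (s : σ), ∃ (p q : (nivatTr h g M).σ), p.1 = (s, [], []) ∧
        q.1 = (M.evalFrom s z, [], []) ∧ (nivatTr h g M).Run p (z.flatMap h) (z.flatMap g) q := by
      intro z
      induction z with
      | nil =>
        intro s
        refine ⟨⟨(s, [], []), by simp, by simp⟩, ⟨(s, [], []), by simp, by simp⟩, rfl, rfl, ?_⟩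
        exact Tr.Run.nil _
      | cons z0 z ih =>
        intro s
        obtain ⟨p, q, hp, hq, hr⟩ := ih (M.step s z0)
        -- read out the second word, then the first
        have r2 : ∀ (b : List Y) (hb : b <:+ g z0),
            (nivatTr h g M).Run ⟨(M.step s z0, [], b), by simp,
              Or.inr (Set.mem_iUnion.2 ⟨z0, hb⟩)⟩ [] b p := by
          intro b
          induction b with
          | nil =>
            intro hb
            have : (⟨(M.step s z0, [], []), by simp,
              Or.inr (Set.mem_iUnion.2 ⟨z0, hb⟩)⟩ : (nivatTr h g M).σ) = p := Subtype.ext hp.symm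
            rw [this]; exact Tr.Run.nil _
          | cons y0 b ihb =>
            intro hb
            have hb' : b <:+ g z0 := (List.suffix_cons y0 b).trans hb
            have h9 := ihb hb'
            have hst : (nivatTr h g M).step ⟨(M.step s z0, [], y0 :: b), by simp,
              Or.inr (Set.mem_iUnion.2 ⟨z0, hb⟩)⟩ none (some y0) ⟨(M.step s z0, [], b), by simp,
              Or.inr (Set.mem_iUnion.2 ⟨z0, hb'⟩)⟩ :=
              Or.inr (Or.inr ⟨y0, rfl, rfl, rfl, rfl, rfl⟩)
            exact Tr.Run.cons hst h9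
        have r1 : ∀ (a : List X) (ha : a <:+ h z0),
            (nivatTr h g M).Run ⟨(M.step s z0, a, g z0),
              Or.inr (Set.mem_iUnion.2 ⟨z0, ha⟩),
              Or.inr (Set.mem_iUnion.2 ⟨z0, List.suffix_refl _⟩)⟩ a (g z0) p := by
          intro a
          induction a with
          | nil => intro ha; exact r2 _ (List.suffix_refl _)
          | cons x0 a iha =>
            intro ha
            have ha' : a <:+ h z0 := (List.suffix_cons x0 a).trans ha
            have h9 := iha ha'
            have hst : (nivatTr h g M).step ⟨(M.step s z0, x0 :: a, g z0),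
              Or.inr (Set.mem_iUnion.2 ⟨z0, ha⟩),
              Or.inr (Set.mem_iUnion.2 ⟨z0, List.suffix_refl _⟩)⟩ (some x0) none
              ⟨(M.step s z0, a, g z0),
              Or.inr (Set.mem_iUnion.2 ⟨z0, ha'⟩),
              Or.inr (Set.mem_iUnion.2 ⟨z0, List.suffix_refl _⟩)⟩ :=
              Or.inr (Or.inl ⟨x0, rfl, rfl, rfl, rfl, rfl⟩)
            exact Tr.Run.cons hst h9
        refine ⟨⟨(s, [], []), by simp, by simp⟩, q, rfl, ?_, ?_⟩
        · rw [hq]; simp [DFA.evalFrom]
        · have h1 := (r1 _ (List.suffix_refl _)).trans hr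
          have h2 := Tr.Run.cons (T := nivatTr h g M) (p := ⟨(s, [], []), by simp, by simp⟩)
            (x := none) (y := none) (Or.inl ⟨rfl, rfl, rfl, rfl, z0, rfl⟩) h1
          simpa using h2
    obtain ⟨p, q, hp, hq, hr⟩ := key z M.start
    refine ⟨p, q, hp, ?_, hr⟩
    refine ⟨?_, by rw [hq], by rw [hq]⟩
    rw [hq]; exact hz

lemma InCone.exists_tr {L : Language X} {N : Language Y} (h : InCone L N) :
    ∃ T : Tr X Y, ∀ v, v ∈ N ↔ ∃ u ∈ L, T.rel u v := by
  obtain ⟨Z, hZ, h, g, R, ⟨σ, hσ, M, hM⟩, rfl⟩ := h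
  refine ⟨nivatTr h g M, fun v => ?_⟩
  constructor
  · rintro ⟨z, hz, hz1, hz2⟩
    exact ⟨_, hz1, (nivatTr_rel h g M _ _).2 ⟨z, by rw [hM]; exact hz, rfl, hz2⟩⟩
  · rintro ⟨u, hu, hr⟩
    obtain ⟨z, hz, hz1, hz2⟩ := (nivatTr_rel h g M _ _).1 hr
    refine ⟨z, by rw [← hM]; exact hz, ?_, hz2⟩
    rw [hz1]; exact hu

/-- output projection of a transducer is regular -/
lemma Tr.regular_range (T : Tr X Y) : Language.IsRegular {v : List Y | ∃ u, T.rel u v} := by
  have := T.fin
  let M : εNFA Y T.σ :=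
    { step := fun p y => {q | ∃ x, T.step p x y q}
      start := {p | T.start p}
      accept := {p | T.acc p} }
  have h1 : M.accepts = {v : List Y | ∃ u, T.rel u v} := by
    ext v
    rw [εNFA.mem_accepts_iff_exists_path]
    constructor
    · rintro ⟨s, t, x', hs, ht, rfl, hp⟩
      have key : ∀ {s t : T.σ} {x' : List (Option Y)}, M.IsPath s t x' →
          ∃ u, T.Run s u x'.reduceOption t := by
        intro s t x' hp
        induction hp with
        | nil s => exact ⟨[], Tr.Run.nil _⟩
        | cons t' s' u' a x hs hp ih =>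
          obtain ⟨u, hu⟩ := ih
          obtain ⟨x0, hx0⟩ := hs
          refine ⟨x0.toList ++ u, ?_⟩
          have := Tr.Run.cons hx0 hu
          cases a <;> simpa using this
      obtain ⟨u, hu⟩ := key hp
      exact ⟨u, s, t, hs, ht, hu⟩
    · rintro ⟨u, p, q, hp, hq, hr⟩
      have key : ∀ {s t : T.σ} {u : List X} {v : List Y}, T.Run s u v t →
          ∃ x' : List (Option Y), x'.reduceOption = v ∧ M.IsPath s t x' := by
        intro s t u v hr
        induction hr with
        | nil s => exact ⟨[], rfl, εNFA.IsPath.nil _⟩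
        | @cons p q r x y u v hs _ ih =>
          obtain ⟨x', h1, h2⟩ := ih
          refine ⟨y :: x', ?_, εNFA.IsPath.cons _ _ _ _ _ ⟨x, hs⟩ h2⟩
          cases y <;> simp [h1]
      obtain ⟨x', h1, h2⟩ := key hr
      exact ⟨p, q, x', hp, hq, h1, h2⟩
  rw [← h1, ← εNFA.toNFA_correct, ← NFA.toDFA_correct]
  classical
  exact ⟨_, inferInstance, _, rfl⟩

/-- identity transducer restricted to a regular language -/
lemma InCone_of_tr [Fintype X] [Fintype Y] (L : Language X) (T : Tr X Y) (N : Language Y)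
    (hN : ∀ v, v ∈ N ↔ ∃ u ∈ L, T.rel u v) : InCone L N := by
  have := T.fin
  classical
  -- alphabet of transitions
  let W := T.σ × Option X × Option Y × T.σ
  -- transducer outputting the transition words
  let S : Tr Unit W :=
    { σ := T.σ
      fin := T.fin
      step := fun p _ w q => ∃ x y, w = some (p, x, y, q) ∧ T.step p x y q
      start := T.start
      acc := T.acc }
  have hreg := S.regular_range
  refine ⟨W, inferInstance, fun w => w.2.1.toList, fun w => w.2.2.1.toList, _, hreg, ?_⟩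
  ext v
  rw [hN]
  constructor
  · rintro ⟨u, hu, p, q, hp, hq, hr⟩
    have key : ∀ {p q : T.σ} {u : List X} {v : List Y}, T.Run p u v q →
        ∃ (z : List W) (o : List Unit), S.Run p o z q ∧ z.flatMap (fun w => w.2.1.toList) = u ∧
          z.flatMap (fun w => w.2.2.1.toList) = v := by
      intro p q u v hr
      induction hr with
      | nil p => exact ⟨[], [], Tr.Run.nil _, rfl, rfl⟩
      | @cons p q r x y u v hs _ ih =>
        obtain ⟨z, o, h1, h2, h3⟩ := ih
        refine ⟨(p, x, y, q) :: z, o, ?_, by simp [h2], by simp [h3]⟩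
        exact Tr.Run.cons (T := S) (x := none) (y := some (p, x, y, q)) ⟨x, y, rfl, hs⟩ h1
    obtain ⟨z, o, h1, h2, h3⟩ := key hr
    refine ⟨z, ⟨o, p, q, hp, hq, h1⟩, ?_, h3⟩
    rw [h2]; exact hu
  · rintro ⟨z, ⟨o, p, q, hp, hq, hr⟩, hz1, hz2⟩
    have key : ∀ {p q : S.σ} {o : List Unit} {z : List W}, S.Run p o z q →
        T.Run p (z.flatMap (fun w => w.2.1.toList)) (z.flatMap (fun w => w.2.2.1.toList)) q := by
      intro p q o z hr
      induction hr with
      | nil p => exact Tr.Run.nil (T := T) p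
      | @cons p q r x y u v hs _ ih =>
        obtain ⟨x0, y0, rfl, hs⟩ := hs
        have := Tr.Run.cons hs ih
        simpa using this
    have := key hr
    rw [hz2] at this
    exact ⟨_, hz1, p, q, hp, hq, this⟩

lemma InCone.trans [Fintype X] [Fintype Z] {L : Language X} {M : Language Y} {N : Language Z}
    (h1 : InCone L M) (h2 : InCone M N) : InCone L N := by
  obtain ⟨T, hT⟩ := h1.exists_tr
  obtain ⟨S, hS⟩ := h2.exists_tr
  apply InCone_of_tr L (T.comp S)
  intro v
  rw [hS]
  constructor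
  · rintro ⟨u, hu, hr⟩
    obtain ⟨w, hw, hr'⟩ := (hT u).1 hu
    exact ⟨w, hw, (Tr.comp_rel T S w v).2 ⟨u, hr', hr⟩⟩
  · rintro ⟨w, hw, hr⟩
    obtain ⟨u, h3, h4⟩ := (Tr.comp_rel T S w v).1 hr
    exact ⟨u, (hT u).2 ⟨w, hw, h3⟩, h4⟩

end Pool.Agent.Helper288.Cone
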