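import Mathlib

set_option autoImplicit false

namespace Pool.Agent.Helper288.Cp

open Set Filter Topology

/-- a countable subset whose image is dense in the range -/
theorem dense_lift {K Z : Type*} [TopologicalSpace Z] [SecondCountableTopology Z] (Ψ : K → Z) :
    ∃ D : Set K, D.Countable ∧ ∀ y, Ψ y ∈ closure (Ψ '' D) := by
  obtain ⟨c, hc, hd⟩ := TopologicalSpace.exists_countable_dense (Set.range Ψ)
  choose g hg using fun r : Set.range Ψ => r.2
  refine ⟨g '' c, hc.image g, fun y => ?_⟩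
  have h1 : (⟨Ψ y, y, rfl⟩ : Set.range Ψ) ∈ closure c := hd _
  have h2 := image_closure_subset_closure_image (continuous_subtype_val (p := fun z => z ∈ Set.range Ψ))
    (Set.mem_image_of_mem _ h1)
  have h3 : (Subtype.val '' c : Set Z) = Ψ '' (g '' c) := by
    ext z
    constructor
    · rintro ⟨r, hr, rfl⟩
      exact ⟨g r, ⟨r, hr, rfl⟩, hg r⟩
    · rintro ⟨_, ⟨r, hr, rfl⟩, rfl⟩
      exact ⟨r, hr, (hg r).symm⟩
  rw [h3] at h2
  exact h2

theorem skolem {F K : Type*} (e : F → K → ℝ) (E : Finset K) :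
    ∃ A : Set F, A.Countable ∧ ∀ x, ∀ δ : ℝ, 0 < δ → ∃ a ∈ A, ∀ y ∈ E, |e a y - e x y| < δ := by
  obtain ⟨D, hD, h⟩ := dense_lift (fun x : F => (fun y : E => e x y))
  refine ⟨D, hD, fun x δ hδ => ?_⟩
  have := h x
  rw [Metric.mem_closure_iff] at this
  obtain ⟨_, ⟨a, ha, rfl⟩, h2⟩ := this δ hδ
  refine ⟨a, ha, fun y hy => ?_⟩
  rw [dist_pi_lt_iff hδ] at h2
  have := h2 ⟨y, hy⟩
  rw [dist_comm, Real.dist_eq] at this
  exact this

structure Pairing (F K : Type) [TopologicalSpace F] [TopologicalSpace K] where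
  e : F → K → ℝ
  c1 : ∀ y, Continuous (fun x => e x y)
  c2 : ∀ x, Continuous (fun y => e x y)
  b : ∀ x y, |e x y| ≤ 1
  s1 : ∀ x x', (∀ y, e x y = e x' y) → x = x'
  s2 : ∀ y y', (∀ x, e x y = e x y') → y = y'

namespace Pairing

variable {F K : Type} [TopologicalSpace F] [TopologicalSpace K] (p : Pairing F K)

noncomputable def σ (E : Finset K) : Set F := (skolem p.e E).choose

noncomputable def ρ (E : Finset F) : Set K := (skolem (fun y x => p.e x y) E).choose

theorem σ_c (E : Finset K) : (p.σ E).Countable := (skolem p.e E).choose_spec.1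

theorem σ_d (E : Finset K) : ∀ x, ∀ δ : ℝ, 0 < δ → ∃ a ∈ p.σ E, ∀ y ∈ E, |p.e a y - p.e x y| < δ :=
  (skolem p.e E).choose_spec.2

theorem ρ_c (E : Finset F) : (p.ρ E).Countable := (skolem (fun y x => p.e x y) E).choose_spec.1

theorem ρ_d (E : Finset F) : ∀ y, ∀ δ : ℝ, 0 < δ → ∃ b ∈ p.ρ E, ∀ a ∈ E, |p.e a b - p.e a y| < δ :=
  (skolem (fun y x => p.e x y) E).choose_spec.2

inductive H (S : Set F) : F ⊕ K → Prop
  | base (a : F) : a ∈ S → H S (Sum.inl a)
  | fst (E : Finset K) (a : F) : (∀ y ∈ E, H S (Sum.inr y)) → a ∈ p.σ E → H S (Sum.inl a)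
  | snd (E : Finset F) (b : K) : (∀ a ∈ E, H S (Sum.inl a)) → b ∈ p.ρ E → H S (Sum.inr b)

def HA (S : Set F) : Set F := {a | p.H S (Sum.inl a)}

def HB (S : Set F) : Set K := {b | p.H S (Sum.inr b)}

theorem H_mono {S S' : Set F} (h : S ⊆ S') {z : F ⊕ K} (hz : p.H S z) : p.H S' z := by
  induction hz with
  | base a ha => exact H.base a (h ha)
  | fst E a _ ha ih => exact H.fst E a ih ha
  | snd E b _ hb ih => exact H.snd E b ih hb

theorem H_iUnion {ι : Type*} [Nonempty ι] (S : ι → Set F) (hd : Directed (· ⊆ ·) S) {z : F ⊕ K}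
    (hz : p.H (⋃ i, S i) z) : ∃ i, p.H (S i) z := by
  induction hz with
  | base a ha =>
    obtain ⟨i, hi⟩ := Set.mem_iUnion.mp ha
    exact ⟨i, H.base a hi⟩
  | fst E a _ ha ih =>
    classical
    have : ∃ f : K → ι, ∀ y ∈ E, p.H (S (f y)) (Sum.inr y) := by
      choose! f hf using ih
      exact ⟨f, hf⟩
    obtain ⟨f, hf⟩ := this
    obtain ⟨i, hi⟩ := hd.finset_le (E.image f)
    exact ⟨i, H.fst E a (fun y hy => p.H_mono (hi _ (Finset.mem_image_of_mem f hy)) (hf y hy)) ha⟩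
  | snd E b _ hb ih =>
    classical
    have : ∃ f : F → ι, ∀ y ∈ E, p.H (S (f y)) (Sum.inl y) := by
      choose! f hf using ih
      exact ⟨f, hf⟩
    obtain ⟨f, hf⟩ := this
    obtain ⟨i, hi⟩ := hd.finset_le (E.image f)
    exact ⟨i, H.snd E b (fun y hy => p.H_mono (hi _ (Finset.mem_image_of_mem f hy)) (hf y hy)) hb⟩

theorem finsets_countable {α : Type*} {s : Set α} (hs : s.Countable) :
    {E : Finset α | (E : Set α) ⊆ s}.Countable := by
  have h := Set.countable_setOf_finite_subset hs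
  have : {E : Finset α | (E : Set α) ⊆ s} = (fun E : Finset α => (E : Set α)) ⁻¹'
      {t | t.Finite ∧ t ⊆ s} := by
    ext E
    simp
  rw [this]
  exact h.preimage_of_injOn (Finset.coe_injective.injOn)

noncomputable def Z (S : Set F) : ℕ → Set (F ⊕ K)
  | 0 => Sum.inl '' S
  | n + 1 => Z S n ∪ (⋃ E ∈ {E : Finset K | (E : Set K) ⊆ Sum.inr ⁻¹' (Z S n)}, Sum.inl '' p.σ E) ∪
      (⋃ E ∈ {E : Finset F | (E : Set F) ⊆ Sum.inl ⁻¹' (Z S n)}, Sum.inr '' p.ρ E)

theorem Z_countable {S : Set F} (hS : S.Countable) (n : ℕ) : (p.Z S n).Countable := by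
  induction n with
  | zero => exact hS.image _
  | succ n ih =>
    rw [Z]
    refine (ih.union (Set.Countable.biUnion (finsets_countable
      (ih.preimage_of_injOn Sum.inr_injective.injOn)) fun E _ => (p.σ_c E).image _)).union
      (Set.Countable.biUnion (finsets_countable
      (ih.preimage_of_injOn Sum.inl_injective.injOn)) fun E _ => (p.ρ_c E).image _)

theorem Z_mono (S : Set F) : Monotone (p.Z S) := by
  refine monotone_nat_of_le_succ fun n => ?_
  rw [Z]
  intro z hz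
  exact Or.inl (Or.inl hz)

theorem H_Z {S : Set F} {z : F ⊕ K} (hz : p.H S z) : ∃ n, z ∈ p.Z S n := by
  induction hz with
  | base a ha => exact ⟨0, a, ha, rfl⟩
  | fst E a _ ha ih =>
    choose! f hf using ih
    refine ⟨E.sup f + 1, ?_⟩
    rw [Z]
    refine Or.inl (Or.inr ?_)
    refine Set.mem_biUnion (x := E) ?_ ⟨a, ha, rfl⟩
    intro y hy
    exact p.Z_mono S (Finset.le_sup (f := f) hy) (hf y hy)
  | snd E b _ hb ih =>
    choose! f hf using ih
    refine ⟨E.sup f + 1, ?_⟩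
    rw [Z]
    refine Or.inr ?_
    refine Set.mem_biUnion (x := E) ?_ ⟨b, hb, rfl⟩
    intro y hy
    exact p.Z_mono S (Finset.le_sup (f := f) hy) (hf y hy)

theorem HB_countable {S : Set F} (hS : S.Countable) : (p.HB S).Countable := by
  have h1 : (⋃ n, p.Z S n).Countable := Set.countable_iUnion fun n => p.Z_countable hS n
  refine (h1.preimage_of_injOn (f := (Sum.inr : K → F ⊕ K)) Sum.inr_injective.injOn).mono ?_
  intro b hb
  obtain ⟨n, hn⟩ := p.H_Z hb
  exact Set.mem_iUnion.mpr ⟨n, hn⟩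

/-- mutually dense pair -/
structure MD (A : Set F) (B : Set K) : Prop where
  a : ∀ x, ∀ E : Finset K, (E : Set K) ⊆ B → ∀ δ : ℝ, 0 < δ → ∃ a ∈ A, ∀ y ∈ E, |p.e a y - p.e x y| < δ
  b : ∀ y, ∀ E : Finset F, (E : Set F) ⊆ A → ∀ δ : ℝ, 0 < δ → ∃ b ∈ B, ∀ a ∈ E, |p.e a b - p.e a y| < δ

theorem md (S : Set F) : p.MD (p.HA S) (p.HB S) where
  a := by
    intro x E hE δ hδ
    obtain ⟨a, ha, h⟩ := p.σ_d E x δ hδ
    exact ⟨a, H.fst E a (fun y hy => hE hy) ha, h⟩
  b := by
    intro y E hE δ hδ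
    obtain ⟨b, hb, h⟩ := p.ρ_d E y δ hδ
    exact ⟨b, H.snd E b (fun a ha => hE ha) hb, h⟩

/-- membership in the closure of an image in a product of lines -/
theorem mem_closure_pi {ι : Type*} {T : Set (ι → ℝ)} {g : ι → ℝ} :
    g ∈ closure T ↔ ∀ E : Finset ι, ∀ δ : ℝ, 0 < δ → ∃ t ∈ T, ∀ i ∈ E, |t i - g i| < δ := by
  constructor
  · intro hg E δ hδ
    have hopen : IsOpen {t : ι → ℝ | ∀ i ∈ E, |t i - g i| < δ} := by
      have : {t : ι → ℝ | ∀ i ∈ E, |t i - g i| < δ} = ⋂ i ∈ E, {t : ι → ℝ | |t i - g i| < δ} := by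
        ext t
        simp
      rw [this]
      exact isOpen_biInter_finset fun i _ => isOpen_lt (by fun_prop) (by fun_prop)
    obtain ⟨t, h1, h2⟩ := mem_closure_iff.mp hg _ hopen (fun i _ => by simpa using hδ)
    exact ⟨t, h2, h1⟩
  · intro h
    rw [mem_closure_iff]
    intro o ho hgo
    rw [isOpen_pi_iff] at ho
    obtain ⟨I, u, hu, hsub⟩ := ho g hgo
    have h1 : ∀ i ∈ I, ∃ δ : ℝ, 0 < δ ∧ Metric.ball (g i) δ ⊆ u i := fun i hi =>
      Metric.isOpen_iff.mp (hu i hi).1 _ (hu i hi).2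
    choose! d hd using h1
    obtain ⟨δ, hδ, hδ2⟩ : ∃ δ : ℝ, 0 < δ ∧ ∀ i ∈ I, δ ≤ d i := by
      by_cases hI : I.Nonempty
      · refine ⟨I.inf' hI d, ?_, fun i hi => Finset.inf'_le _ hi⟩
        rw [Finset.lt_inf'_iff]
        exact fun i hi => (hd i hi).1
      · exact ⟨1, one_pos, fun i hi => absurd ⟨i, hi⟩ hI⟩
    obtain ⟨t, ht, h2⟩ := h I δ hδ
    refine ⟨t, hsub ?_, ht⟩
    intro i hi
    refine (hd i hi).2 ?_
    rw [Metric.mem_ball, Real.dist_eq]
    exact (h2 i hi).trans_le (hδ2 i hi)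

/-- agreement on a set passes to its closure -/
theorem agree_closure2 {B : Set K} {x x' : F} (h : ∀ y ∈ B, p.e x y = p.e x' y) {y : K}
    (hy : y ∈ closure B) : p.e x y = p.e x' y := by
  have hc : IsClosed {y | p.e x y = p.e x' y} := isClosed_eq (p.c2 x) (p.c2 x')
  exact closure_minimal (t := {y | p.e x y = p.e x' y}) h hc hy

theorem agree_closure1 {A : Set F} {y y' : K} (h : ∀ x ∈ A, p.e x y = p.e x y') {x : F}
    (hx : x ∈ closure A) : p.e x y = p.e x y' := by
  have hc : IsClosed {x | p.e x y = p.e x y'} := isClosed_eq (p.c1 y) (p.c1 y')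
  exact closure_minimal (t := {x | p.e x y = p.e x y'}) h hc hx

variable [CompactSpace F] [CompactSpace K]

theorem exists_P {A : Set F} {B : Set K} (h : p.MD A B) (x : F) :
    ∃ x' ∈ closure A, ∀ y ∈ B, p.e x' y = p.e x y := by
  let Φ : F → (B → ℝ) := fun x y => p.e x y
  have hΦ : Continuous Φ := continuous_pi fun y => p.c1 y
  have hcl : IsClosed (Φ '' closure A) := (isClosed_closure.isCompact.image hΦ).isClosed
  have hmem : Φ x ∈ closure (Φ '' A) := by
    rw [mem_closure_pi]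
    intro E δ hδ
    classical
    obtain ⟨a, ha, h2⟩ := h.a x (E.image Subtype.val) (by
      intro y hy
      simp only [Finset.coe_image, Set.mem_image] at hy
      obtain ⟨z, _, rfl⟩ := hy
      exact z.2) δ hδ
    refine ⟨Φ a, ⟨a, ha, rfl⟩, fun i hi => h2 i (Finset.mem_image_of_mem _ hi)⟩
  have h3 : Φ x ∈ Φ '' closure A :=
    closure_minimal (Set.image_mono subset_closure) hcl hmem
  obtain ⟨x', hx', he⟩ := h3
  exact ⟨x', hx', fun y hy => congrFun he ⟨y, hy⟩⟩

/-- the dual pairing -/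
def dual : Pairing K F where
  e := fun y x => p.e x y
  c1 := p.c2
  c2 := p.c1
  b := fun y x => p.b x y
  s1 := p.s2
  s2 := p.s1

theorem MD.dual {A : Set F} {B : Set K} (h : p.MD A B) : p.dual.MD B A := ⟨h.b, h.a⟩

theorem exists_Q {A : Set F} {B : Set K} (h : p.MD A B) (y : K) :
    ∃ y' ∈ closure B, ∀ x ∈ A, p.e x y' = p.e x y := p.dual.exists_P h.dual y

theorem uniqueP {A : Set F} {B : Set K} (h : p.MD A B) {x x' : F} (hx : x ∈ closure A)
    (hx' : x' ∈ closure A) (he : ∀ y ∈ B, p.e x y = p.e x' y) : x = x' := by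
  apply p.s1
  intro y
  obtain ⟨y', hy', h1⟩ := p.exists_Q h y
  rw [← p.agree_closure1 h1 hx, ← p.agree_closure1 h1 hx']
  exact p.agree_closure2 he hy'

theorem uniqueQ {A : Set F} {B : Set K} (h : p.MD A B) {y y' : K} (hx : y ∈ closure B)
    (hx' : y' ∈ closure B) (he : ∀ x ∈ A, p.e x y = p.e x y') : y = y' :=
  p.dual.uniqueP h.dual hx hx' he

theorem retr {A : Set F} {B : Set K} (h : p.MD A B) :
    ∃ (P : F → F) (Q : K → K), (∀ x, P x ∈ closure A) ∧ (∀ y, Q y ∈ closure B) ∧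
      (∀ x, ∀ y ∈ B, p.e (P x) y = p.e x y) ∧ (∀ y, ∀ a ∈ A, p.e a (Q y) = p.e a y) ∧
      ∀ x y, p.e (P x) y = p.e x (Q y) := by
  choose P hP1 hP2 using p.exists_P h
  choose Q hQ1 hQ2 using p.exists_Q h
  refine ⟨P, Q, hP1, hQ1, hP2, hQ2, fun x y => ?_⟩
  rw [← p.agree_closure1 (hQ2 y) (hP1 x)]
  exact p.agree_closure2 (hP2 x) (hQ1 y)

/-- the topology of a compact space is determined by the pairing -/
theorem embF : IsClosedEmbedding p.e := by
  refine Continuous.isClosedEmbedding ?_ ?_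
  · exact continuous_pi p.c1
  · intro x x' h
    exact p.s1 x x' fun y => congrFun h y

end Pairing

end Pool.Agent.Helper288.Cp
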