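import Pool.Agent.Helper288.CpAL

set_option autoImplicit false
set_option linter.unusedSectionVars false

namespace Pool.Agent.Helper288.Cp

open Set Filter Topology

namespace Pairing

variable {F K : Type} [TopologicalSpace F] [TopologicalSpace K] (p : Pairing F K)
  [CompactSpace F] [CompactSpace K]

/-- good family of coordinates for a set `S` -/
def Good (S : Set F) (Γ : Type) (T : F → Γ → ℝ) : Prop :=
  (∀ γ, Continuous fun x => T x γ) ∧
  (∀ x x' : F, ∀ C : ℝ, (∀ y, |p.e x y - p.e x' y| ≤ C) → ∀ γ, |T x γ - T x' γ| ≤ C) ∧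
  (∀ x, ∀ ε : ℝ, 0 < ε → {γ | ε ≤ |T x γ|}.Finite) ∧
  (∀ x x', (∀ γ, T x γ = T x' γ) → ∀ y ∈ p.HB S, p.e x y = p.e x' y)

theorem good_countable {S : Set F} (hS : S.Countable) : ∃ (Γ : Type) (T : F → Γ → ℝ), p.Good S Γ T := by
  have hB := p.HB_countable hS
  obtain ⟨ι, hι⟩ : ∃ ι : p.HB S → ℕ, Function.Injective ι := by
    have := hB.to_subtype
    exact ⟨_, Countable.exists_injective_nat (p.HB S) |>.choose_spec⟩
  refine ⟨p.HB S, fun x y => (1 / ((ι y : ℝ) + 1)) * p.e x y, ?_, ?_, ?_, ?_⟩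
  · intro γ
    exact continuous_const.mul (p.c1 _)
  · intro x x' C hC γ
    have h1 : (1 / ((ι γ : ℝ) + 1)) * p.e x γ - (1 / ((ι γ : ℝ) + 1)) * p.e x' γ =
        (1 / ((ι γ : ℝ) + 1)) * (p.e x γ - p.e x' γ) := by ring
    rw [h1, abs_mul]
    have h2 : |1 / ((ι γ : ℝ) + 1)| ≤ 1 := by
      rw [abs_of_pos (by positivity)]
      rw [div_le_one (by positivity)]
      have : (0:ℝ) ≤ ι γ := by positivity
      linarith
    calc |1 / ((ι γ : ℝ) + 1)| * |p.e x γ - p.e x' γ| ≤ 1 * |p.e x γ - p.e x' γ| := by gcongr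
      _ = |p.e x γ - p.e x' γ| := one_mul _
      _ ≤ C := hC γ
  · intro x ε hε
    have hfin : {n : ℕ | (n : ℝ) ≤ 1 / ε}.Finite := by
      refine (Set.finite_Iic ⌊1 / ε⌋₊).subset ?_
      intro n hn
      exact Nat.le_floor hn
    refine (hfin.preimage (hι.injOn (s := Set.univ) |>.mono (Set.subset_univ _))).subset ?_
    intro γ hγ
    simp only [Set.mem_ofPred_eq, Set.mem_preimage] at hγ ⊢
    rw [abs_mul, abs_of_pos (by positivity)] at hγ
    have h1 : (1 / ((ι γ : ℝ) + 1)) * |p.e x γ| ≤ (1 / ((ι γ : ℝ) + 1)) * 1 := by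
      gcongr
      exact p.b _ _
    have h2 : ε ≤ 1 / ((ι γ : ℝ) + 1) := by linarith
    rw [le_div_iff₀ (by positivity)] at h2 ⊢
    nlinarith
  · intro x x' h y hy
    have := h ⟨y, hy⟩
    have hpos : (1 / ((ι ⟨y, hy⟩ : ℝ) + 1)) ≠ 0 := by positivity
    exact mul_left_cancel₀ hpos this

/-- finiteness of the set of jumps along an increasing family -/
theorem jumps {I : Type} [LinearOrder I] [WellFoundedLT I] (Sm Sp : I → Set F)
    (h1 : ∀ i, Sm i ⊆ Sp i) (h2 : ∀ i j, i < j → Sp i ⊆ Sm j)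
    (Pm Pp : I → F → F) (Qm Qp : I → K → K)
    (hQm : ∀ i y, Qm i y ∈ closure (p.HB (Sm i))) (hQp : ∀ i y, Qp i y ∈ closure (p.HB (Sp i)))
    (hm : ∀ i y, ∀ a ∈ p.HA (Sm i), p.e a (Qm i y) = p.e a y)
    (hp : ∀ i y, ∀ a ∈ p.HA (Sp i), p.e a (Qp i y) = p.e a y)
    (hPm : ∀ i x y, p.e (Pm i x) y = p.e x (Qm i y))
    (hPp : ∀ i x y, p.e (Pp i x) y = p.e x (Qp i y))
    (x : F) {ε : ℝ} (hε : 0 < ε) :
    {i : I | ∃ y, ε < |p.e (Pp i x) y - p.e (Pm i x) y|}.Finite := by
  by_contra hinf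
  have hinf : {i : I | ∃ y, ε < |p.e (Pp i x) y - p.e (Pm i x) y|}.Infinite := hinf
  -- a strictly increasing sequence of jumps
  obtain ⟨s, hs1, hs2⟩ : ∃ s : ℕ → I, StrictMono s ∧
      ∀ n, ∃ y, ε < |p.e (Pp (s n) x) y - p.e (Pm (s n) x) y| := by
    have := hinf.to_subtype
    set u : ℕ → I := fun n => ((Infinite.natEmbedding
      {i : I | ∃ y, ε < |p.e (Pp i x) y - p.e (Pm i x) y|}) n : I) with hu
    have huinj : Function.Injective u := fun m n h =>
      (Infinite.natEmbedding _).injective (Subtype.ext h)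
    have humem : ∀ n, ∃ y, ε < |p.e (Pp (u n) x) y - p.e (Pm (u n) x) y| := fun n =>
      ((Infinite.natEmbedding {i : I | ∃ y, ε < |p.e (Pp i x) y - p.e (Pm i x) y|}) n).2
    obtain ⟨g, hg | hg⟩ := exists_increasing_or_nonincreasing_subseq (· < ·) u
    · exact ⟨fun n => u (g n), fun m n hmn => hg m n hmn, fun n => humem (g n)⟩
    · exfalso
      have hlt : ∀ m n : ℕ, m < n → u (g n) < u (g m) := by
        intro m n hmn
        refine lt_of_le_of_ne (not_lt.mp (hg m n hmn)) ?_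
        intro he
        exact absurd (g.injective (huinj he)) hmn.ne'
      have hwf : WellFounded ((· < ·) : I → I → Prop) := wellFounded_lt
      rw [wellFounded_iff_isEmpty_descending_chain] at hwf
      exact hwf.elim ⟨fun n => u (g n), fun n => hlt n (n+1) (Nat.lt_succ_self n)⟩
  choose y hy using hs2
  -- the union
  let S : Set F := ⋃ n, Sm (s n)
  have hmono : ∀ {m n : ℕ}, m ≤ n → Sm (s m) ⊆ Sm (s n) := by
    intro m n hmn
    rcases hmn.lt_or_eq with h | rfl
    · exact (h1 _).trans (h2 _ _ (hs1 h))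
    · exact le_rfl
  have hdir : Directed (· ⊆ ·) (fun n => Sm (s n)) := fun m n =>
    ⟨max m n, hmono (le_max_left _ _), hmono (le_max_right _ _)⟩
  have hSm : ∀ n, Sm (s n) ⊆ S := fun n => Set.subset_iUnion (fun n => Sm (s n)) n
  have hSp : ∀ n, Sp (s n) ⊆ S := fun n => (h2 _ _ (hs1 (Nat.lt_succ_self n))).trans (hSm (n+1))
  obtain ⟨U, hU⟩ : ∃ U : Ultrafilter ℕ, (U : Filter ℕ) ≤ atTop := Ultrafilter.exists_le atTop
  -- limits
  have lim : ∀ q : ℕ → K, ∃ z, Tendsto q U (𝓝 z) := by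
    intro q
    exact ⟨_, (U.map q).le_nhds_lim⟩
  obtain ⟨zp, hzp⟩ := lim fun n => Qp (s n) (y n)
  obtain ⟨zm, hzm⟩ := lim fun n => Qm (s n) (y n)
  have hzpc : zp ∈ closure (p.HB S) := by
    refine isClosed_closure.mem_of_tendsto hzp (Eventually.of_forall fun n => ?_)
    exact closure_mono (fun b hb => p.H_mono (hSp n) hb) (hQp _ _)
  have hzmc : zm ∈ closure (p.HB S) := by
    refine isClosed_closure.mem_of_tendsto hzm (Eventually.of_forall fun n => ?_)
    exact closure_mono (fun b hb => p.H_mono (hSm n) hb) (hQm _ _)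
  have hagree : ∀ a ∈ p.HA S, p.e a zp = p.e a zm := by
    intro a ha
    obtain ⟨m, hm'⟩ := p.H_iUnion (fun n => Sm (s n)) hdir ha
    have t1 : Tendsto (fun n => p.e a (Qp (s n) (y n))) U (𝓝 (p.e a zp)) :=
      ((p.c2 a).tendsto zp).comp hzp
    have t2 : Tendsto (fun n => p.e a (Qm (s n) (y n))) U (𝓝 (p.e a zm)) :=
      ((p.c2 a).tendsto zm).comp hzm
    refine tendsto_nhds_unique_of_eventuallyEq t1 t2 ?_
    have hev : ∀ᶠ n in (U : Filter ℕ), m ≤ n := hU (eventually_ge_atTop m)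
    filter_upwards [hev] with n hn
    rw [hp _ _ a (p.H_mono ((hmono hn).trans (h1 _)) hm'), hm _ _ a (p.H_mono (hmono hn) hm')]
  have hz : zp = zm := p.uniqueQ (p.md S) hzpc hzmc hagree
  have t1 : Tendsto (fun n => p.e x (Qp (s n) (y n))) U (𝓝 (p.e x zp)) :=
    ((p.c2 x).tendsto zp).comp hzp
  have t2 : Tendsto (fun n => p.e x (Qm (s n) (y n))) U (𝓝 (p.e x zm)) :=
    ((p.c2 x).tendsto zm).comp hzm
  have t3 := (t1.sub t2).abs
  rw [hz, sub_self, abs_zero] at t3
  have := ge_of_tendsto t3 (Eventually.of_forall fun n => (by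
    have := hy n
    rw [hPp, hPm] at this
    exact this.le : ε ≤ |p.e x (Qp (s n) (y n)) - p.e x (Qm (s n) (y n))|))
  linarith

theorem good_exists (c : Cardinal.{0}) : ∀ S : Set F, Cardinal.mk S = c →
    ∃ (Γ : Type) (T : F → Γ → ℝ), p.Good S Γ T := by
  induction c using WellFoundedLT.induction with
  | ind c ih =>
  intro S hS
  by_cases hcount : S.Countable
  · exact p.good_countable hcount
  have hinf : Cardinal.aleph0 ≤ Cardinal.mk S := by
    rw [← not_lt]
    intro h
    exact hcount (Set.countable_coe_iff.mp (Cardinal.mk_le_aleph0_iff.mp h.le))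
  obtain ⟨inst, inst2, hord⟩ := Cardinal.exists_ord_eq_type_lt S
  -- minus and plus initial segments
  let Sm : S → Set F := fun i => Subtype.val '' (Set.Iio i)
  let Sp : S → Set F := fun i => Subtype.val '' (Set.Iic i)
  have h1 : ∀ i, Sm i ⊆ Sp i := fun i => Set.image_mono Set.Iio_subset_Iic_self
  have h2 : ∀ i j, i < j → Sp i ⊆ Sm j := fun i j h => Set.image_mono fun k hk => lt_of_le_of_lt hk h
  have hcard : ∀ i, Cardinal.mk (Sp i) < c := by
    intro i
    rw [← hS]
    exact Cardinal.mk_image_le.trans_lt (Cardinal.mk_Iic_lt i hord hinf)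
  choose Γ T hT using fun i => ih _ (hcard i) (Sp i) rfl
  obtain ⟨Γ0, T0, hT0⟩ := p.good_countable (S := (∅ : Set F)) Set.countable_empty
  choose Pm Qm hPm1 hQm1 hPm2 hQm2 hPQm using fun i => p.retr (p.md (Sm i))
  choose Pp Qp hPp1 hQp1 hPp2 hQp2 hPQp using fun i => p.retr (p.md (Sp i))
  have contP : ∀ (P : F → F) (Q : K → K), (∀ x y, p.e (P x) y = p.e x (Q y)) → Continuous P := by
    intro P Q h
    rw [p.embF.toIsEmbedding.continuous_iff]
    refine continuous_pi fun y => ?_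
    have : (fun x => (p.e ∘ P) x y) = fun x => p.e x (Q y) := by
      funext x
      exact h x y
    rw [this]
    exact p.c1 _
  refine ⟨Γ0 ⊕ (Σ i : S, Γ i), fun x γ => Sum.elim (fun g => T0 x g)
    (fun g => (1/2) * (T g.1 (Pp g.1 x) g.2 - T g.1 (Pm g.1 x) g.2)) γ, ?_, ?_, ?_, ?_⟩
  · rintro (g | ⟨i, g⟩)
    · exact hT0.1 g
    · exact continuous_const.mul ((((hT i).1 g).comp (contP _ _ (hPQp i))).sub
        (((hT i).1 g).comp (contP _ _ (hPQm i))))
  · rintro x x' C hC (g | ⟨i, g⟩)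
    · exact hT0.2.1 x x' C hC g
    · have e1 := (hT i).2.1 (Pp i x) (Pp i x') C (fun y => by
        rw [hPQp, hPQp]
        exact hC _) g
      have e2 := (hT i).2.1 (Pm i x) (Pm i x') C (fun y => by
        rw [hPQm, hPQm]
        exact hC _) g
      simp only [Sum.elim_inr]
      rw [abs_le] at e1 e2 ⊢
      constructor <;> linarith [e1.1, e1.2, e2.1, e2.2]
  · intro x ε hε
    have hj := p.jumps Sm Sp h1 h2 Pm Pp Qm Qp hQm1 hQp1 hQm2 hQp2 hPQm hPQp x hε
    have hsub : {γ : Γ0 ⊕ (Σ i : S, Γ i) | ε ≤ |Sum.elim (fun g => T0 x g)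
        (fun g : (Σ i : S, Γ i) => (1/2) * (T g.1 (Pp g.1 x) g.2 - T g.1 (Pm g.1 x) g.2)) γ|} ⊆
        (Sum.inl '' {g | ε ≤ |T0 x g|}) ∪
        (⋃ i ∈ {i : S | ∃ y, ε < |p.e (Pp i x) y - p.e (Pm i x) y|},
          (fun g => Sum.inr ⟨i, g⟩) '' ({g | ε ≤ |T i (Pp i x) g|} ∪ {g | ε ≤ |T i (Pm i x) g|})) := by
      rintro (g | ⟨i, g⟩) hg
      · exact Or.inl ⟨g, hg, rfl⟩
      · right
        have hg : ε ≤ |(1/2) * (T i (Pp i x) g - T i (Pm i x) g)| := hg
        have hi : ∃ y, ε < |p.e (Pp i x) y - p.e (Pm i x) y| := by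
          by_contra hcon
          push Not at hcon
          have e1 := (hT i).2.1 (Pp i x) (Pm i x) ε hcon g
          rw [abs_mul, abs_of_pos (by norm_num : (0:ℝ) < 1/2)] at hg
          linarith
        refine Set.mem_biUnion (x := i) hi ⟨g, ?_, rfl⟩
        by_contra hcon
        simp only [Set.mem_union, Set.mem_ofPred_eq, not_or, not_le] at hcon
        have e1 := abs_sub (T i (Pp i x) g) (T i (Pm i x) g)
        rw [abs_mul, abs_of_pos (by norm_num : (0:ℝ) < 1/2)] at hg
        have e3 : |T i (Pp i x) g - T i (Pm i x) g| ≤ |T i (Pp i x) g| + |T i (Pm i x) g| := abs_sub _ _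
        linarith [hcon.1, hcon.2]
    refine Set.Finite.subset ?_ hsub
    refine ((hT0.2.2.1 x ε hε).image _).union (hj.biUnion fun i _ => Set.Finite.image _ ?_)
    exact ((hT i).2.2.1 _ ε hε).union ((hT i).2.2.1 _ ε hε)
  · intro x x' hxx
    have hx0 : ∀ y ∈ p.HB ∅, p.e x y = p.e x' y := hT0.2.2.2 x x' fun γ => hxx (Sum.inl γ)
    have key : ∀ i : S, ∀ y ∈ p.HB (Sp i), p.e x y = p.e x' y := by
      intro i
      induction i using WellFoundedLT.induction with
      | ind i IH =>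
      have hminus : ∀ y ∈ p.HB (Sm i), p.e x y = p.e x' y := by
        by_cases hne : Nonempty (Set.Iio i)
        · have hU : Sm i = ⋃ j : Set.Iio i, Sp j := by
            ext a
            constructor
            · rintro ⟨j, hj, rfl⟩
              exact Set.mem_iUnion.mpr ⟨⟨j, hj⟩, j, le_rfl, rfl⟩
            · intro ha
              obtain ⟨⟨j, hj⟩, k, hk, rfl⟩ := Set.mem_iUnion.mp ha
              exact ⟨k, lt_of_le_of_lt hk hj, rfl⟩
          intro y hy
          rw [hU] at hy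
          have hdir : Directed (· ⊆ ·) (fun j : Set.Iio i => Sp j) := by
            intro j k
            rcases le_total (j : S) k with h | h
            · exact ⟨k, Set.image_mono (Set.Iic_subset_Iic.mpr h), le_rfl⟩
            · exact ⟨j, le_rfl, Set.image_mono (Set.Iic_subset_Iic.mpr h)⟩
          obtain ⟨j, hj⟩ := p.H_iUnion (fun j : Set.Iio i => Sp j) hdir hy
          exact IH j j.2 y hj
        · have : Sm i = ∅ := by
            ext a
            constructor
            · rintro ⟨j, hj, rfl⟩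
              exact absurd ⟨j, hj⟩ hne
            · intro h
              exact absurd h (Set.notMem_empty _)
          rw [this]
          exact hx0
      have hPeq : Pm i x = Pm i x' := by
        refine p.uniqueP (p.md (Sm i)) (hPm1 i x) (hPm1 i x') fun y hy => ?_
        rw [hPm2 i x y hy, hPm2 i x' y hy]
        exact hminus y hy
      have hTeq : ∀ γ, T i (Pp i x) γ = T i (Pp i x') γ := by
        intro γ
        have h := hxx (Sum.inr ⟨i, γ⟩)
        simp only [Sum.elim_inr] at h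
        rw [hPeq] at h
        linarith
      intro y hy
      have := (hT i).2.2.2 _ _ hTeq y hy
      rw [hPp2 i x y hy, hPp2 i x' y hy] at this
      exact this
    intro y hy
    have hSne : Nonempty S := by
      by_contra hne
      rw [not_nonempty_iff] at hne
      have : Cardinal.mk S = 0 := Cardinal.mk_eq_zero_iff.mpr hne
      rw [this] at hinf
      exact absurd hinf (not_le.mpr Cardinal.aleph0_pos)
    have hU : S = ⋃ j : S, Sp j := by
      ext a
      constructor
      · intro ha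
        exact Set.mem_iUnion.mpr ⟨⟨a, ha⟩, ⟨a, ha⟩, le_rfl, rfl⟩
      · intro ha
        obtain ⟨j, k, hk, rfl⟩ := Set.mem_iUnion.mp ha
        exact k.2
    have hdir : Directed (· ⊆ ·) (fun j : S => Sp j) := by
      intro j k
      rcases le_total (j : S) k with h | h
      · exact ⟨k, Set.image_mono (Set.Iic_subset_Iic.mpr h), le_rfl⟩
      · exact ⟨j, le_rfl, Set.image_mono (Set.Iic_subset_Iic.mpr h)⟩
    have hy' : p.H (⋃ j : S, Sp j) (Sum.inr y) := by
      rw [← hU]
      exact hy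
    obtain ⟨j, hj⟩ := p.H_iUnion (fun j : S => Sp j) hdir hy'
    exact key j y hj

include p in
/-- Amir-Lindenstrauss in topological form -/
theorem al : ∃ (Γ : Type) (T : F → Γ → ℝ), Topology.IsEmbedding T ∧
    ∀ x, ∀ ε : ℝ, 0 < ε → {γ | ε ≤ |T x γ|}.Finite := by
  obtain ⟨Γ, T, hT⟩ := p.good_exists _ (Set.univ : Set F) rfl
  refine ⟨Γ, T, ?_, hT.2.2.1⟩
  have hc : Continuous T := continuous_pi hT.1
  refine (hc.isClosedEmbedding ?_).toIsEmbedding
  intro x x' h
  refine p.uniqueP (p.md Set.univ) (subset_closure (H.base x (Set.mem_univ _)))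
    (subset_closure (H.base x' (Set.mem_univ _))) (hT.2.2.2 x x' fun γ => congrFun h γ)

end Pairing

end Pool.Agent.Helper288.Cp
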