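import Pool.Agent.Helper288.CpAL2

set_option autoImplicit false
set_option linter.unusedSectionVars false

namespace Pool.Agent.Helper288.Cp

open Set Filter Topology

/-- every sequence has a cluster point -/
def SCP (F : Type*) [TopologicalSpace F] : Prop :=
  ∀ u : ℕ → F, ∃ f, ∃ U : Ultrafilter ℕ, (U : Filter ℕ) ≤ atTop ∧ Tendsto u U (𝓝 f)

theorem scp_of_compact (K : Type*) [TopologicalSpace K] [CompactSpace K] : SCP K := by
  intro u
  obtain ⟨U, hU⟩ : ∃ U : Ultrafilter ℕ, (U : Filter ℕ) ≤ atTop := Ultrafilter.exists_le atTop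
  exact ⟨_, U, hU, (U.map u).le_nhds_lim⟩

theorem scp_bounded {F : Type*} [TopologicalSpace F] (hF : SCP F) (q : F → ℝ) (hq : Continuous q) :
    ∃ C : ℝ, ∀ f, |q f| ≤ C := by
  by_contra hcon
  push Not at hcon
  choose u hu using fun n : ℕ => hcon n
  obtain ⟨f, U, hU, hf⟩ := hF u
  have t1 : Tendsto (fun n => |q (u n)|) U (𝓝 |q f|) := ((hq.tendsto f).comp hf).abs
  have e1 : ∀ᶠ n in (U : Filter ℕ), |q (u n)| < |q f| + 1 :=
    t1.eventually_lt_const (by linarith)
  have e2 : ∀ᶠ n : ℕ in (U : Filter ℕ), |q f| + 1 ≤ (n : ℝ) := by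
    refine hU ?_
    filter_upwards [eventually_ge_atTop ⌈|q f| + 1⌉₊] with n hn
    exact Nat.ceil_le.mp hn
  obtain ⟨n, h1, h2⟩ := (e1.and e2).exists
  linarith [hu n]

theorem scp_of_cover {Y : Type*} [TopologicalSpace Y] (K : Set Y)
    (hK : ∀ U : ℕ → Set Y, (∀ n, IsOpen (U n)) → K ⊆ ⋃ n, U n →
      ∃ N : ℕ, K ⊆ ⋃ n ∈ Finset.range N, U n) : SCP K := by
  intro u
  have h : ∃ f : K, ∀ N : ℕ, (f : Y) ∈ closure ((fun n => (u n : Y)) '' Set.Ici N) := by
    by_contra hcon
    push Not at hcon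
    obtain ⟨N, hN⟩ := hK (fun N => (closure ((fun n => (u n : Y)) '' Set.Ici N))ᶜ)
      (fun N => isClosed_closure.isOpen_compl) (by
        intro f hf
        obtain ⟨N, hN⟩ := hcon ⟨f, hf⟩
        exact Set.mem_iUnion.mpr ⟨N, hN⟩)
    have := hN (u N).2
    simp only [Finset.mem_range, Set.mem_iUnion, Set.mem_compl_iff, exists_prop] at this
    obtain ⟨i, hi, h2⟩ := this
    exact h2 (subset_closure ⟨N, Set.mem_Ici.mpr hi.le, rfl⟩)
  obtain ⟨f, hf⟩ := h
  refine ⟨f, ?_⟩
  have hcl : MapClusterPt f atTop u := by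
    rw [mapClusterPt_iff_frequently]
    intro s hs
    rw [mem_nhds_subtype] at hs
    obtain ⟨t, ht, hts⟩ := hs
    rw [frequently_atTop]
    intro N
    obtain ⟨_, hy, ⟨n, hn, rfl⟩⟩ := mem_closure_iff_nhds.mp (hf N) t ht
    exact ⟨n, hn, hts hy⟩
  rw [mapClusterPt_iff_ultrafilter] at hcl
  exact hcl

theorem GR {F X : Type*} [TopologicalSpace F] [TopologicalSpace X] (hF : SCP F)
    (e : F → X → ℝ) (h1 : ∀ f, Continuous (e f)) (h2 : ∀ x, Continuous (fun f => e f x))
    (A : Set X) (hA : ∀ q : X → ℝ, Continuous q → ∃ C : ℝ, ∀ x ∈ A, |q x| ≤ C)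
    (g : F → ℝ) (hg : g ∈ closure ((fun a f => e f a) '' A)) : Continuous g := by
  by_contra hcont
  rw [continuous_iff_continuousAt] at hcont
  push Not at hcont
  obtain ⟨f0, hf0⟩ := hcont
  rw [ContinuousAt, Metric.tendsto_nhds] at hf0
  push Not at hf0
  obtain ⟨ε, hε, hfreq⟩ := hf0
  rw [Pairing.mem_closure_pi] at hg
  -- the double sequence
  obtain ⟨u, hu1, hu2⟩ := exists_seq_of_forall_finset_exists
    (α := ℕ × X × F)
    (fun z => |e f0 z.2.1 - g f0| < 1 / ((z.1 : ℝ) + 1) ∧ z.2.1 ∈ A ∧ ε ≤ |g z.2.2 - g f0|)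
    (fun z w => z.1 < w.1 ∧ |e z.2.2 w.2.1 - g z.2.2| < 1 / ((w.1 : ℝ) + 1) ∧
      |e w.2.2 z.2.1 - e f0 z.2.1| < 1 / ((w.1 : ℝ) + 1)) (by
    intro s hs
    classical
    set n := s.sup (fun z => z.1) + 1 with hn
    have hnpos : (0:ℝ) < 1 / ((n : ℝ) + 1) := by positivity
    obtain ⟨_, ⟨a, ha, rfl⟩, hat⟩ := hg (insert f0 (s.image fun z => z.2.2)) _ hnpos
    have hopen : ∀ᶠ f in 𝓝 f0, ∀ z ∈ s, |e f z.2.1 - e f0 z.2.1| < 1 / ((n : ℝ) + 1) := by
      rw [Filter.eventually_all_finset]
      intro z _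
      have hc : Continuous fun f => |e f z.2.1 - e f0 z.2.1| :=
        ((h2 z.2.1).sub continuous_const).abs
      exact (hc.tendsto f0).eventually_lt_const (by simpa using hnpos)
    obtain ⟨f, hf1, hf2⟩ := (hfreq.and_eventually hopen).exists
    rw [Real.dist_eq] at hf1
    refine ⟨(n, a, f), ⟨hat f0 (Finset.mem_insert_self _ _), ha, hf1⟩, fun z hz => ⟨?_, ?_, ?_⟩⟩
    · have := Finset.le_sup (f := fun z : ℕ × X × F => z.1) hz
      exact Nat.lt_succ_of_le this
    · exact hat z.2.2 (Finset.mem_insert_of_mem (Finset.mem_image_of_mem _ hz))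
    · exact hf2 z hz)
  set k : ℕ → ℕ := fun n => (u n).1 with hk
  set a : ℕ → X := fun n => (u n).2.1 with ha
  set v : ℕ → F := fun n => (u n).2.2 with hv
  have hkmono : StrictMono k := fun m n hmn => (hu2 m n hmn).1
  have hkn : ∀ n, n ≤ k n := hkmono.id_le
  have hsmall : ∀ n : ℕ, 1 / ((k n : ℝ) + 1) ≤ 1 / ((n : ℝ) + 1) := by
    intro n
    have : (n : ℝ) ≤ k n := by exact_mod_cast hkn n
    exact one_div_le_one_div_of_le (by positivity) (by linarith)
  have hzero : Tendsto (fun n : ℕ => 1 / ((n : ℝ) + 1)) atTop (𝓝 0) :=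
    tendsto_one_div_add_atTop_nhds_zero_nat
  obtain ⟨f, U, hU, hf⟩ := hF v
  have fact1 : ∀ n, e f (a n) = e f0 (a n) := by
    intro n
    have t1 : Tendsto (fun i => e (v i) (a n)) U (𝓝 (e f (a n))) := ((h2 (a n)).tendsto f).comp hf
    have t2 : Tendsto (fun i => e (v i) (a n)) atTop (𝓝 (e f0 (a n))) := by
      rw [tendsto_iff_dist_tendsto_zero]
      refine squeeze_zero' (Eventually.of_forall fun _ => dist_nonneg) ?_ hzero
      filter_upwards [eventually_gt_atTop n] with i hi
      rw [Real.dist_eq]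
      exact (hu2 n i hi).2.2.le.trans (hsmall i)
    exact tendsto_nhds_unique t1 (t2.mono_left hU)
  -- limits along the sequence of points
  have lim0 : Tendsto (fun n => |e f0 (a n) - g f0|) atTop (𝓝 0) := by
    refine squeeze_zero (fun _ => abs_nonneg _) (fun n => ?_) hzero
    exact (hu1 n).1.le.trans (hsmall n)
  have limi : ∀ i, Tendsto (fun n => |e (v i) (a n) - g (v i)|) atTop (𝓝 0) := by
    intro i
    refine squeeze_zero' (Eventually.of_forall fun _ => abs_nonneg _) ?_ hzero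
    filter_upwards [eventually_gt_atTop i] with n hn
    exact (hu2 i n hn).2.1.le.trans (hsmall n)
  let t : ℕ → X → ℝ := fun i x => (1/2:ℝ)^i * min 1 |e (v i) x - g (v i)|
  have ht0 : ∀ i x, 0 ≤ t i x := fun i x => by positivity
  have htb : ∀ i x, ‖t i x‖ ≤ (1/2:ℝ)^i := by
    intro i x
    rw [Real.norm_of_nonneg (ht0 i x)]
    calc (1/2:ℝ)^i * min 1 |e (v i) x - g (v i)| ≤ (1/2:ℝ)^i * 1 := by
          gcongr
          exact min_le_left _ _
      _ = (1/2:ℝ)^i := mul_one _
  have hsum : Summable (fun i : ℕ => (1/2:ℝ)^i) := summable_geometric_two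
  have htsum : ∀ x, Summable fun i => t i x := fun x => Summable.of_norm_bounded hsum fun i => htb i x
  let h : X → ℝ := fun x => |e f0 x - g f0| + |e f x - g f0| + ∑' i, t i x
  have hcont : Continuous h := by
    refine ((((h1 f0).sub continuous_const).abs).add (((h1 f).sub continuous_const).abs)).add ?_
    refine continuous_tsum (fun i => ?_) hsum htb
    exact continuous_const.mul (continuous_const.min (((h1 (v i)).sub continuous_const).abs))
  have hnn : ∀ x, 0 ≤ ∑' i, t i x := fun x => tsum_nonneg fun i => ht0 i x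
  have hlim : Tendsto (fun n => h (a n)) atTop (𝓝 0) := by
    have l2 : Tendsto (fun n => |e f (a n) - g f0|) atTop (𝓝 0) := by
      simp only [fact1]
      exact lim0
    have l3 : Tendsto (fun n => ∑' i, t i (a n)) atTop (𝓝 (∑' _ : ℕ, (0:ℝ))) := by
      refine tendsto_tsum_of_dominated_convergence hsum (fun i => ?_)
        (Eventually.of_forall fun n i => htb i _)
      have l4 : Tendsto (fun n => min 1 |e (v i) (a n) - g (v i)|) atTop (𝓝 (min 1 0)) :=
        tendsto_const_nhds.min (limi i)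
      have l5 : Tendsto (fun n => t i (a n)) atTop (𝓝 ((1/2:ℝ)^i * min 1 0)) :=
        l4.const_mul ((1/2:ℝ)^i)
      have l6 : (1/2:ℝ)^i * min 1 0 = 0 := by simp
      rw [l6] at l5
      exact l5
    have := (lim0.add l2).add l3
    simpa using this
  have hne : ∃ x, h x = 0 := by
    by_contra hcon
    push Not at hcon
    obtain ⟨C, hC⟩ := hA (fun x => (h x)⁻¹) (hcont.inv₀ hcon)
    have h5 : ∀ n, 1 ≤ C * |h (a n)| := by
      intro n
      have h6 := hC (a n) (hu1 n).2.1
      rw [abs_inv] at h6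
      have h7 : 0 < |h (a n)| := abs_pos.mpr (hcon _)
      calc (1:ℝ) = |h (a n)|⁻¹ * |h (a n)| := by field_simp
        _ ≤ C * |h (a n)| := by gcongr
    have h8 : Tendsto (fun n => C * |h (a n)|) atTop (𝓝 (C * |0|)) := hlim.abs.const_mul C
    rw [abs_zero, mul_zero] at h8
    have := ge_of_tendsto h8 (Eventually.of_forall h5)
    linarith
  obtain ⟨x, hx⟩ := hne
  have hx1 : |e f0 x - g f0| = 0 := by
    have a1 := abs_nonneg (e f0 x - g f0)
    have a2 := abs_nonneg (e f x - g f0)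
    have a3 := hnn x
    have : |e f0 x - g f0| + |e f x - g f0| + ∑' i, t i x = 0 := hx
    linarith
  have hx2 : |e f x - g f0| = 0 := by
    have a1 := abs_nonneg (e f0 x - g f0)
    have a2 := abs_nonneg (e f x - g f0)
    have a3 := hnn x
    have : |e f0 x - g f0| + |e f x - g f0| + ∑' i, t i x = 0 := hx
    linarith
  have hx3 : ∑' i, t i x = 0 := by
    have a1 := abs_nonneg (e f0 x - g f0)
    have a2 := abs_nonneg (e f x - g f0)
    have a3 := hnn x
    have : |e f0 x - g f0| + |e f x - g f0| + ∑' i, t i x = 0 := hx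
    linarith
  have hx4 : ∀ i, e (v i) x = g (v i) := by
    intro i
    have h6 : t i x = 0 := by
      have h9 := (htsum x).hasSum
      rw [hx3, hasSum_zero_iff_of_nonneg (fun i => ht0 i x)] at h9
      exact congrFun h9 i
    have h7 : min 1 |e (v i) x - g (v i)| = 0 := by
      rcases mul_eq_zero.mp h6 with h | h
      · exact absurd h (by positivity)
      · exact h
    have h8 : |e (v i) x - g (v i)| = 0 := by
      rcases min_choice 1 |e (v i) x - g (v i)| with h | h
      · rw [h] at h7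
        norm_num at h7
      · rw [h] at h7
        exact h7
    linarith [abs_eq_zero.mp h8]
  have t1 : Tendsto (fun i => e (v i) x) U (𝓝 (e f x)) := ((h2 x).tendsto f).comp hf
  have t2 : Tendsto (fun i => |e (v i) x - g f0|) U (𝓝 |e f x - g f0|) :=
    (t1.sub_const _).abs
  rw [hx2] at t2
  have t3 : ∀ i, ε ≤ |e (v i) x - g f0| := by
    intro i
    rw [hx4 i]
    exact (hu1 i).2.2
  have := ge_of_tendsto t2 (Eventually.of_forall t3)
  linarith

section closed

variable {F K : Type*} [TopologicalSpace F] [TopologicalSpace K] [CompactSpace K]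

theorem closed_image (hF : SCP F) (e : F → K → ℝ) (h1 : ∀ f, Continuous (e f))
    (h2 : ∀ y, Continuous (fun f => e f y)) (C : Set F) (hC : IsClosed C) : IsClosed (e '' C) := by
  rw [← closure_subset_iff_isClosed]
  intro h hh
  -- continuity
  have hcont : Continuous h := by
    refine GR (scp_of_compact K) (fun y f => e f y) h2 h1 C (fun q hq => ?_) h ?_
    · obtain ⟨c, hc⟩ := scp_bounded hF q hq
      exact ⟨c, fun x _ => hc x⟩
    · exact hh
  rw [Pairing.mem_closure_pi] at hh
  -- tightness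
  have tight : ∀ n k : ℕ, ∃ S : Finset F, (∀ f ∈ S, f ∈ C) ∧ ∀ y : Fin n → K, ∃ f ∈ S,
      ∀ i, |e f (y i) - h (y i)| < 1 / ((k : ℝ) + 1) := by
    intro n k
    have hk : (0:ℝ) < 1 / ((k : ℝ) + 1) := by positivity
    obtain ⟨t, ht⟩ := isCompact_univ.elim_finite_subcover
      (fun f : C => {y : Fin n → K | ∀ i, |e f (y i) - h (y i)| < 1 / ((k : ℝ) + 1)}) (by
        intro f
        have : {y : Fin n → K | ∀ i, |e f (y i) - h (y i)| < 1 / ((k : ℝ) + 1)} =
            ⋂ i, {y : Fin n → K | |e f (y i) - h (y i)| < 1 / ((k : ℝ) + 1)} := by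
          ext y
          simp
        rw [this]
        refine isOpen_iInter_of_finite fun i => isOpen_lt ?_ continuous_const
        exact (((h1 f).comp (continuous_apply i)).sub (hcont.comp (continuous_apply i))).abs) (by
        intro y _
        classical
        obtain ⟨_, ⟨f, hf, rfl⟩, hfy⟩ := hh (Finset.univ.image y) _ hk
        exact Set.mem_iUnion.mpr ⟨⟨f, hf⟩, fun i => hfy (y i)
          (Finset.mem_image_of_mem _ (Finset.mem_univ i))⟩)
    classical
    refine ⟨t.image Subtype.val, ?_, ?_⟩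
    · intro f hf
      obtain ⟨g, _, rfl⟩ := Finset.mem_image.mp hf
      exact g.2
    · intro y
      have := ht (Set.mem_univ y)
      simp only [Set.mem_iUnion] at this
      obtain ⟨f, hf, h3⟩ := this
      exact ⟨f, Finset.mem_image_of_mem _ hf, h3⟩
  choose S hSC hS using tight
  let S' : Set F := ⋃ n, ⋃ k, (S n k : Set F)
  have hS'c : S'.Countable := Set.countable_iUnion fun n => Set.countable_iUnion fun k =>
    (S n k).countable_toSet
  have hS'C : ∀ f ∈ S', f ∈ C := by
    intro f hf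
    simp only [S', Set.mem_iUnion] at hf
    obtain ⟨n, k, hf⟩ := hf
    exact hSC n k f hf
  have hS' : ∀ E : Finset K, ∀ δ : ℝ, 0 < δ → ∃ f ∈ S', ∀ y ∈ E, |e f y - h y| < δ := by
    intro E δ hδ
    obtain ⟨k, hk⟩ := exists_nat_one_div_lt hδ
    obtain ⟨f, hf, hf2⟩ := hS E.card k (fun i => (E.equivFin.symm i : K))
    refine ⟨f, Set.mem_iUnion.mpr ⟨E.card, Set.mem_iUnion.mpr ⟨k, hf⟩⟩, fun y hy => ?_⟩
    have := hf2 (E.equivFin ⟨y, hy⟩)
    simp only [Equiv.symm_apply_apply] at this
    exact this.trans hk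
  rcases isEmpty_or_nonempty K with hKe | hKne
  · obtain ⟨f, hf, _⟩ := hS' ∅ 1 one_pos
    exact ⟨f, hS'C f hf, Subsingleton.elim _ _⟩
  have hSne : S'.Nonempty := by
    obtain ⟨f, hf, _⟩ := hS' ∅ 1 one_pos
    exact ⟨f, hf⟩
  obtain ⟨s, hs⟩ := hS'c.exists_eq_range hSne
  -- dense lift
  let Ψ : K → (ℕ → ℝ) × ℝ := fun y => (fun j => e (s j) y, h y)
  have hΨ : Continuous Ψ := (continuous_pi fun j => h1 (s j)).prodMk hcont
  obtain ⟨D, hDc, hD⟩ := dense_lift Ψ
  have hDne : D.Nonempty := by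
    by_contra hcon
    rw [Set.not_nonempty_iff_eq_empty] at hcon
    have := hD (Classical.arbitrary K)
    rw [hcon, Set.image_empty, closure_empty] at this
    exact this
  obtain ⟨d, hd⟩ := hDc.exists_eq_range hDne
  have lift : ∀ y, ∃ y' ∈ closure D, Ψ y' = Ψ y := by
    intro y
    have hcl : IsClosed (Ψ '' closure D) := (isClosed_closure.isCompact.image hΨ).isClosed
    exact closure_minimal (Set.image_mono subset_closure) hcl (hD y)
  -- the sequence
  classical
  choose t ht1 ht2 using fun i : ℕ => hS' ((Finset.range (i+1)).image d) (1 / ((i:ℝ) + 1))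
    (by positivity)
  obtain ⟨f, U, hU, hf⟩ := hF t
  have hfC : f ∈ C := hC.mem_of_tendsto hf (Eventually.of_forall fun i => hS'C _ (ht1 i))
  have hzero : Tendsto (fun n : ℕ => 1 / ((n : ℝ) + 1)) atTop (𝓝 0) :=
    tendsto_one_div_add_atTop_nhds_zero_nat
  have hfD : ∀ y ∈ D, e f y = h y := by
    intro y hy
    rw [hd] at hy
    obtain ⟨j, rfl⟩ := hy
    have t1 : Tendsto (fun i => e (t i) (d j)) U (𝓝 (e f (d j))) := ((h2 _).tendsto f).comp hf
    have t2 : Tendsto (fun i => e (t i) (d j)) atTop (𝓝 (h (d j))) := by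
      rw [tendsto_iff_dist_tendsto_zero]
      refine squeeze_zero' (Eventually.of_forall fun _ => dist_nonneg) ?_ hzero
      filter_upwards [eventually_ge_atTop j] with i hi
      rw [Real.dist_eq]
      exact (ht2 i (d j) (Finset.mem_image_of_mem _ (Finset.mem_range.mpr (by omega)))).le
    exact tendsto_nhds_unique t1 (t2.mono_left hU)
  have hfcl : ∀ y ∈ closure D, e f y = h y := by
    intro y hy
    exact closure_minimal (t := {y | e f y = h y}) hfD (isClosed_eq (h1 f) hcont) hy
  refine ⟨f, hfC, ?_⟩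
  funext y
  obtain ⟨y', hy', hΨy⟩ := lift y
  have hh' : h y' = h y := congrArg Prod.snd hΨy
  have hts : ∀ i, e (t i) y' = e (t i) y := by
    intro i
    have := ht1 i
    rw [hs] at this
    obtain ⟨j, hj⟩ := this
    rw [← hj]
    exact congrFun (congrArg Prod.fst hΨy) j
  have t1 : Tendsto (fun i => e (t i) y) U (𝓝 (e f y)) := ((h2 _).tendsto f).comp hf
  have t2 : Tendsto (fun i => e (t i) y') U (𝓝 (e f y')) := ((h2 _).tendsto f).comp hf
  simp only [hts] at t2
  rw [tendsto_nhds_unique t1 t2, hfcl y' hy', hh']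

theorem closed_emb (hF : SCP F) (e : F → K → ℝ) (h1 : ∀ f, Continuous (e f))
    (h2 : ∀ y, Continuous (fun f => e f y)) (hs : ∀ f f', (∀ y, e f y = e f' y) → f = f') :
    Topology.IsClosedEmbedding e := by
  refine Topology.IsClosedEmbedding.of_continuous_injective_isClosedMap (continuous_pi h2) ?_ ?_
  · intro f f' h
    exact hs f f' fun y => congrFun h y
  · intro C hC
    exact closed_image hF e h1 h2 C hC

theorem compact_of_scp (hF : SCP F) (e : F → K → ℝ) (h1 : ∀ f, Continuous (e f))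
    (h2 : ∀ y, Continuous (fun f => e f y)) (hs : ∀ f f', (∀ y, e f y = e f' y) → f = f')
    (hb : ∀ f y, |e f y| ≤ 1) : CompactSpace F := by
  have hemb := closed_emb hF e h1 h2 hs
  constructor
  rw [hemb.toIsInducing.isCompact_iff, Set.image_univ]
  have hc : IsCompact (Set.pi (Set.univ : Set K) fun _ => Set.Icc (-1:ℝ) 1) :=
    isCompact_univ_pi fun _ => isCompact_Icc
  refine hc.of_isClosed_subset hemb.isClosed_range ?_
  rintro _ ⟨f, rfl⟩ y _
  exact abs_le.mp (hb f y)

end closed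

end Pool.Agent.Helper288.Cp
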