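import Pool.Agent.Helper288.CpGR

set_option autoImplicit false
set_option linter.unusedSectionVars false

namespace Pool.Agent.Helper288.Cp

open Set Filter Topology

noncomputable def τ (t : ℝ) : ℝ := t / (1 + |t|)

theorem τ_cont : Continuous τ := by
  unfold τ
  refine continuous_id.div (continuous_const.add continuous_abs) fun t => ?_
  positivity

theorem τ_le (t : ℝ) : |τ t| ≤ 1 := by
  unfold τ
  rw [abs_div, abs_of_pos (by positivity : 0 < 1 + |t|), div_le_one (by positivity)]
  linarith

theorem τ_inj : Function.Injective τ := by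
  intro s t h
  unfold τ at h
  have hs : 0 < 1 + |s| := by positivity
  have ht : 0 < 1 + |t| := by positivity
  rw [div_eq_div_iff hs.ne' ht.ne'] at h
  rcases le_total 0 s with h1 | h1 <;> rcases le_total 0 t with h2 | h2
  · rw [abs_of_nonneg h1, abs_of_nonneg h2] at h
    linarith
  · rw [abs_of_nonneg h1, abs_of_nonpos h2] at h
    nlinarith
  · rw [abs_of_nonpos h1, abs_of_nonneg h2] at h
    nlinarith
  · rw [abs_of_nonpos h1, abs_of_nonpos h2] at h
    linarith

theorem main (X : Type) [TopologicalSpace X] (A : ℕ → Set X)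
    (hA : ∀ n, ∀ f : X → ℝ, Continuous f → ∃ C : ℝ, ∀ x ∈ A n, |f x| ≤ C)
    (hD : Dense (⋃ n, A n)) (K : Set (X → ℝ)) (hK : ∀ f ∈ K, Continuous f)
    (hcc : ∀ U : ℕ → Set (X → ℝ), (∀ n, IsOpen (U n)) → K ⊆ ⋃ n, U n →
            ∃ N : ℕ, K ⊆ ⋃ n ∈ Finset.range N, U n) :
    IsCompact K ∧
      ∃ (Γ : Type) (e : K → (Γ → ℝ)), Topology.IsEmbedding e ∧
        ∀ k : K, ∀ ε : ℝ, 0 < ε → {γ : Γ | ε ≤ |e k γ|}.Finite := by
  have hF : SCP K := scp_of_cover K hcc
  let s : ℕ → X → (K → ℝ) := fun n a f => τ ((f : X → ℝ) a) / ((n : ℝ) + 1)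
  let G : ℕ → Set (K → ℝ) := fun n => s n '' A n
  let L : Set (K → ℝ) := closure (⋃ n, G n)
  have hsb : ∀ n a f, |s n a f| ≤ 1 / ((n : ℝ) + 1) := by
    intro n a f
    simp only [s]
    rw [abs_div, abs_of_pos (by positivity : (0:ℝ) < (n:ℝ) + 1)]
    gcongr
    exact τ_le _
  have h1n : ∀ n : ℕ, 1 / ((n : ℝ) + 1) ≤ 1 := by
    intro n
    rw [div_le_one (by positivity)]
    have : (0:ℝ) ≤ n := by positivity
    linarith
  have hGcont : ∀ n, ∀ g ∈ closure (G n), Continuous g := by
    intro n g hg
    refine GR hF (fun f x => s n x f) (fun f => ?_) (fun x => ?_) (A n) (hA n) g hg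
    · exact (τ_cont.comp (hK f f.2)).div_const _
    · exact (τ_cont.comp ((continuous_apply x).comp continuous_subtype_val)).div_const _
  have hbclosed : ∀ c : ℝ, IsClosed {g : K → ℝ | ∀ f, |g f| ≤ c} := by
    intro c
    have : {g : K → ℝ | ∀ f, |g f| ≤ c} = ⋂ f, {g : K → ℝ | |g f| ≤ c} := by
      ext g
      simp
    rw [this]
    exact isClosed_iInter fun f => isClosed_le (continuous_apply f).abs continuous_const
  have hLcont : ∀ g ∈ L, Continuous g := by
    intro g hg
    by_cases hex : ∃ n, g ∈ closure (G n)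
    · obtain ⟨n, hn⟩ := hex
      exact hGcont n g hn
    push Not at hex
    have hall : ∀ N : ℕ, ∀ f, |g f| ≤ 1 / ((N : ℝ) + 1) := by
      intro N
      have hsplit : (⋃ n, G n) ⊆ (⋃ n ∈ Finset.range N, G n) ∪
          {g : K → ℝ | ∀ f, |g f| ≤ 1 / ((N : ℝ) + 1)} := by
        intro g hg
        obtain ⟨n, a, ha, rfl⟩ := Set.mem_iUnion.mp hg
        by_cases hn : n < N
        · exact Or.inl (Set.mem_biUnion (Finset.mem_coe.mpr (Finset.mem_range.mpr hn)) ⟨a, ha, rfl⟩)
        · right
          intro f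
          refine (hsb n a f).trans (one_div_le_one_div_of_le (by positivity) ?_)
          have : (N : ℝ) ≤ n := by exact_mod_cast not_lt.mp hn
          linarith
      have h2 := closure_mono hsplit hg
      rw [closure_union, (hbclosed _).closure_eq] at h2
      rcases h2 with h2 | h2
      · exfalso
        have h3 : closure (⋃ n ∈ Finset.range N, G n) = ⋃ n ∈ Finset.range N, closure (G n) := by
          have := (Finset.range N).finite_toSet.closure_biUnion G
          simpa using this
        rw [h3] at h2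
        simp only [Set.mem_iUnion] at h2
        obtain ⟨n, _, h4⟩ := h2
        exact hex n h4
      · exact h2
    have hzero : g = fun _ => 0 := by
      funext f
      have hlim : Tendsto (fun n : ℕ => 1 / ((n : ℝ) + 1)) atTop (𝓝 0) :=
        tendsto_one_div_add_atTop_nhds_zero_nat
      have := ge_of_tendsto hlim (Eventually.of_forall fun n => hall n f)
      exact abs_eq_zero.mp (le_antisymm this (abs_nonneg _))
    rw [hzero]
    exact continuous_const
  have hLb : ∀ g ∈ L, ∀ f, |g f| ≤ 1 := by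
    intro g hg
    refine closure_minimal (t := {g : K → ℝ | ∀ f, |g f| ≤ 1}) ?_ (hbclosed 1) hg
    intro g hg
    obtain ⟨n, a, ha, rfl⟩ := Set.mem_iUnion.mp hg
    exact fun f => (hsb n a f).trans (h1n n)
  have hLcpt : IsCompact L := by
    have hc : IsCompact (Set.pi (Set.univ : Set K) fun _ => Set.Icc (-1:ℝ) 1) :=
      isCompact_univ_pi fun _ => isCompact_Icc
    refine hc.of_isClosed_subset isClosed_closure ?_
    intro g hg f _
    exact abs_le.mp (hLb g hg f)
  have hLsep : ∀ f f' : K, (∀ g : L, g.1 f = g.1 f') → f = f' := by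
    intro f f' h
    apply Subtype.ext
    have : Set.EqOn (f : X → ℝ) (f' : X → ℝ) (⋃ n, A n) := by
      intro x hx
      obtain ⟨n, hn⟩ := Set.mem_iUnion.mp hx
      have h2 := h ⟨s n x, subset_closure (Set.mem_iUnion.mpr ⟨n, x, hn, rfl⟩)⟩
      have h3 : (n : ℝ) + 1 ≠ 0 := by positivity
      have h4 : τ ((f : X → ℝ) x) = τ ((f' : X → ℝ) x) := by
        have h5 : τ ((f : X → ℝ) x) / ((n : ℝ) + 1) = τ ((f' : X → ℝ) x) / ((n : ℝ) + 1) := h2
        field_simp at h5
        exact h5
      exact τ_inj h4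
    exact Continuous.ext_on hD (hK f f.2) (hK f' f'.2) this
  haveI : CompactSpace L := isCompact_iff_compactSpace.mp hLcpt
  have hc2 : ∀ f : K, Continuous fun g : L => g.1 f := fun f =>
    (continuous_apply f).comp continuous_subtype_val
  have hc1 : ∀ g : L, Continuous fun f : K => g.1 f := fun g => hLcont g.1 g.2
  haveI hKc : CompactSpace K := compact_of_scp hF (fun f (g : L) => g.1 f) hc2 hc1 hLsep
    (fun f g => hLb g.1 g.2 f)
  refine ⟨isCompact_iff_compactSpace.mpr hKc, ?_⟩
  let p : Pairing K L :=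
    { e := fun f g => g.1 f
      c1 := hc1
      c2 := hc2
      b := fun f g => hLb g.1 g.2 f
      s1 := hLsep
      s2 := fun g g' h => Subtype.ext (funext h) }
  exact p.al

end Pool.Agent.Helper288.Cp
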