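import Mathlib

set_option autoImplicit false

/-!
# Factorizations of a periodic bi-infinite word over a code are periodic
-/

namespace Pool.Agent.Helper288.KMPeriodic

variable {α : Type*}

/-- the word `w[s, s+l)` -/
def seg (w : ℤ → α) (s : ℤ) (l : ℕ) : List α := (List.range l).map (fun j : ℕ => w (s + (j : ℤ)))

lemma seg_append (w : ℤ → α) (s : ℤ) (l m : ℕ) :
    seg w s (l + m) = seg w s l ++ seg w (s + l) m := by
  unfold seg
  rw [List.range_add, List.map_append, List.map_map]
  congr 1
  apply List.map_congr_left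
  intro j _
  simp [add_assoc]

lemma seg_zero (w : ℤ → α) (s : ℤ) : seg w s 0 = [] := rfl

/-- factor number `n` -/
def fac (w : ℤ → α) (c : ℤ → ℤ) (n : ℤ) : List α := seg w (c n) (c (n + 1) - c n).toNat

lemma per_mul {w : ℤ → α} {p : ℤ} (hw : ∀ t, w (t + p) = w t) (e : ℤ) (t : ℤ) :
    w (t + p * e) = w t := by
  have h1 : ∀ (n : ℕ) (t : ℤ), w (t + p * (n : ℤ)) = w t := by
    intro n
    induction n with
    | zero => intro t; simp
    | succ n ih =>
      intro t
      have : t + p * ((n + 1 : ℕ) : ℤ) = (t + p * (n : ℤ)) + p := by push_cast; ring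
      rw [this, hw, ih]
  obtain ⟨n, rfl | rfl⟩ := e.eq_nat_or_neg
  · exact h1 n t
  · have := h1 n (t + p * -(n : ℤ))
    rw [← this]; congr 1; ring

lemma seg_per {w : ℤ → α} {p : ℤ} (hw : ∀ t, w (t + p) = w t) (e : ℤ) (s : ℤ) (l : ℕ) :
    seg w (s + p * e) l = seg w s l := by
  unfold seg
  apply List.map_congr_left
  intro j _
  have : s + p * e + (j : ℤ) = (s + j) + p * e := by ring
  rw [this, per_mul hw]

lemma flatten_facs (w : ℤ → α) {c : ℤ → ℤ} (hc : StrictMono c) (a : ℤ) (m : ℕ) :
    ((List.range m).map (fun i : ℕ => fac w c (a + i))).flatten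
      = seg w (c a) (c (a + m) - c a).toNat := by
  induction m with
  | zero => simp [seg_zero]
  | succ m ih =>
    rw [List.range_succ, List.map_append, List.flatten_append, ih]
    have h1 : c a ≤ c (a + m) := hc.monotone (by omega)
    have h2 : c (a + m) < c (a + (m + 1 : ℕ)) := hc (by push_cast; omega)
    have h3 : (c (a + (m + 1 : ℕ)) - c a).toNat
        = (c (a + m) - c a).toNat + (c (a + (m + 1 : ℕ)) - c (a + m)).toNat := by omega
    rw [h3, seg_append]
    congr 1
    have h4 : c a + ((c (a + m) - c a).toNat : ℤ) = c (a + m) := by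
      rw [Int.toNat_of_nonneg (by omega)]; ring
    rw [h4]
    simp only [List.map_cons, List.map_nil, List.flatten_cons, List.flatten_nil, List.append_nil,
      fac]
    have h5 : a + ((m + 1 : ℕ) : ℤ) = a + m + 1 := by push_cast; ring
    rw [h5]

/-- `e` times the block `[a, a+D)` -/
lemma flatten_rep (w : ℤ → α) {p : ℤ} (hw : ∀ t, w (t + p) = w t)
    {c : ℤ → ℤ} (hc : StrictMono c) (a : ℤ) (D : ℕ) (k : ℤ)
    (hD : c (a + D) = c a + p * k) (e : ℕ) :
    ((List.range (e * D)).map (fun i : ℕ => fac w c (a + (i % D : ℕ)))).flatten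
      = seg w (c a) (e * (c (a + D) - c a).toNat) := by
  induction e with
  | zero => simp [seg_zero]
  | succ e ih =>
    rw [Nat.succ_mul, Nat.succ_mul, List.range_add, List.map_append, List.flatten_append, ih,
      seg_append]
    congr 1
    rw [List.map_map]
    have h1 : (List.range D).map ((fun i : ℕ => fac w c (a + (i % D : ℕ))) ∘ fun x => e * D + x)
        = (List.range D).map (fun i : ℕ => fac w c (a + i)) := by
      apply List.map_congr_left
      intro j hj
      simp only [Function.comp]
      rw [List.mem_range] at hj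
      have : (e * D + j) % D = j := by
        rw [Nat.add_comm, Nat.add_mul_mod_self_right]; exact Nat.mod_eq_of_lt hj
      rw [this]
    rw [h1, flatten_facs w hc]
    have h0 : c a ≤ c (a + D) := hc.monotone (by omega)
    have h2 : c a + ((e * (c (a + D) - c a).toNat : ℕ) : ℤ) = c a + p * (e * k) := by
      push_cast
      rw [Int.toNat_of_nonneg (by omega), hD]; ring
    rw [h2, seg_per hw]

/-- pigeonhole: among the cuts `n, …, n+p` there are two congruent ones. -/
lemma exists_cong (p : ℕ) (hp : 0 < p) (c : ℤ → ℤ) (n : ℤ) :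
    ∃ a : ℤ, ∃ D : ℕ, ∃ k : ℤ, n ≤ a ∧ a ≤ n + p ∧ 0 < D ∧ D ≤ p ∧ c (a + D) = c a + p * k := by
  have hcard : (Finset.Ico (0:ℤ) p).card < (Finset.range (p + 1)).card := by simp
  obtain ⟨i, hi, j, hj, hij, hcij⟩ := Finset.exists_ne_map_eq_of_card_lt_of_maps_to hcard
    (f := fun i : ℕ => c (n + i) % (p : ℤ)) (by
      intro i _
      have : (0 : ℤ) < p := by exact_mod_cast hp
      simp only [Finset.coe_Ico, Set.mem_Ico]
      exact ⟨Int.emod_nonneg _ (by omega), Int.emod_lt_of_pos _ this⟩)
  simp only [Finset.mem_range] at hi hj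
  wlog hlt : i < j generalizing i j
  · exact this j i hij.symm hcij.symm hj hi (by omega)
  have hdvd : (p : ℤ) ∣ c (n + j) - c (n + i) := Int.ModEq.dvd hcij
  obtain ⟨k, hk⟩ := hdvd
  refine ⟨n + i, j - i, k, by omega, by omega, by omega, by omega, ?_⟩
  have : n + (i : ℤ) + ((j - i : ℕ) : ℤ) = n + j := by
    rw [Nat.cast_sub hlt.le]; ring
  rw [this]; linarith

/-- the main combinatorial step -/
lemma eventually_periodic (X : Finset (List α))
    (hcode : ∀ u v : List (List α), (∀ x ∈ u, x ∈ X) → (∀ x ∈ v, x ∈ X) →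
      u.flatten = v.flatten → u = v)
    (w : ℤ → α) (p : ℕ) (hp : 0 < p) (hw : ∀ t, w (t + p) = w t) (c : ℤ → ℤ) (hc : StrictMono c)
    (hX : ∀ n, fac w c n ∈ X) (a : ℤ) (D : ℕ) (hD0 : 0 < D) (k : ℤ)
    (hD : c (a + D) = c a + p * k) (m : ℕ) :
    fac w c (a + m) = fac w c (a + (m % D : ℕ)) := by
  obtain ⟨r, D', k', hr1, -, hD'0, -, hD'⟩ := exists_cong p hp c (a + m + 1)
  obtain ⟨R, hR⟩ : ∃ R : ℕ, r = a + R := ⟨(r - a).toNat, by omega⟩
  subst hR
  have hmR : m < R := by omega
  have hp' : (0 : ℤ) < p := by exact_mod_cast hp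
  have hlt1 : c a < c (a + D) := hc (by omega)
  have hlt2 : c (a + R) < c (a + R + D') := hc (by omega)
  have hkpos : 0 < k := by
    have : 0 < (p : ℤ) * k := by linarith
    exact pos_of_mul_pos_right this hp'.le
  have hk'pos : 0 < k' := by
    have : 0 < (p : ℤ) * k' := by linarith
    exact pos_of_mul_pos_right this hp'.le
  -- lengths
  have hL1 : (c (a + D) - c a).toNat = p * k.toNat := by
    zify; rw [Int.toNat_of_nonneg (by omega), Int.toNat_of_nonneg (by omega)]; linarith
  have hL2 : (c (a + R + D') - c (a + R)).toNat = p * k'.toNat := by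
    zify; rw [Int.toNat_of_nonneg (by omega), Int.toNat_of_nonneg (by omega)]; linarith
  set u : List (List α) :=
    (List.range (k'.toNat * D)).map (fun i : ℕ => fac w c (a + (i % D : ℕ))) ++
      (List.range R).map (fun i : ℕ => fac w c (a + i)) with hu
  set v : List (List α) :=
    (List.range R).map (fun i : ℕ => fac w c (a + i)) ++
      (List.range (k.toNat * D')).map (fun i : ℕ => fac w c (a + R + (i % D' : ℕ))) with hv
  have huv : u = v := by
    apply hcode
    · intro x hx
      simp only [hu, List.mem_append, List.mem_map] at hx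
      rcases hx with ⟨i, -, rfl⟩ | ⟨i, -, rfl⟩ <;> exact hX _
    · intro x hx
      simp only [hv, List.mem_append, List.mem_map] at hx
      rcases hx with ⟨i, -, rfl⟩ | ⟨i, -, rfl⟩ <;> exact hX _
    · rw [hu, hv, List.flatten_append, List.flatten_append, flatten_rep w hw hc a D k hD,
        flatten_facs w hc, flatten_rep w hw hc (a + R) D' k' hD', hL1, hL2]
      have h1 : seg w (c a) (c (a + R) - c a).toNat
          = seg w (c a + ((k'.toNat * (p * k.toNat) : ℕ) : ℤ)) (c (a + R) - c a).toNat := by
        have : c a + ((k'.toNat * (p * k.toNat) : ℕ) : ℤ) = c a + p * (k'.toNat * k.toNat) := by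
          push_cast; ring
        rw [this, seg_per hw]
      have h2 : c (a + R) = c a + ((c (a + R) - c a).toNat : ℤ) := by
        have : c a ≤ c (a + R) := hc.monotone (by omega)
        rw [Int.toNat_of_nonneg (by omega)]; ring
      conv_lhs => rw [h1]
      rw [← seg_append]
      conv_rhs => rw [h2]
      have h3 : (c a + ((c (a + R) - c a).toNat : ℤ) - c a).toNat = (c (a + R) - c a).toNat := by
        congr 1; rw [← h2]
      rw [h3, ← seg_append]
      congr 1
      ring
  -- read off
  have key : ∀ i : ℕ, i < R → fac w c (a + i) = fac w c (a + (i % D : ℕ)) := by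
    intro i
    induction i using Nat.strong_induction_on with
    | _ i ih =>
      intro hi
      have hvi : v[i]? = some (fac w c (a + i)) := by
        rw [hv, List.getElem?_append_left (by simpa using hi)]
        simp [hi]
      by_cases hlt : i < k'.toNat * D
      · have hui : u[i]? = some (fac w c (a + (i % D : ℕ))) := by
          rw [hu, List.getElem?_append_left (by simpa using hlt)]
          simp [hlt]
        rw [huv, hvi] at hui
        exact Option.some.inj hui
      · push Not at hlt
        have hpos : 0 < k'.toNat * D := Nat.mul_pos (by omega) hD0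
        have hui : u[i]? = some (fac w c (a + (i - k'.toNat * D : ℕ))) := by
          rw [hu, List.getElem?_append_right (by simpa using hlt)]
          simp only [List.length_map, List.length_range, List.getElem?_map]
          rw [List.getElem?_range (by omega)]
          simp
        rw [huv, hvi] at hui
        rw [Option.some.inj hui, ih _ (by omega) (by omega)]
        congr 3
        conv_rhs => rw [← Nat.sub_add_cancel hlt]
        rw [Nat.add_mul_mod_self_right]
  exact key m hmR

theorem periodic_of_code (X : Finset (List α))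
    (hcode : ∀ u v : List (List α), (∀ x ∈ u, x ∈ X) → (∀ x ∈ v, x ∈ X) →
      u.flatten = v.flatten → u = v)
    (w : ℤ → α) (p : ℤ) (hp : 0 < p) (hw : ∀ t, w (t + p) = w t) (c : ℤ → ℤ) (hc : StrictMono c)
    (hX : ∀ n, (List.range (c (n + 1) - c n).toNat).map (fun j : ℕ => w (c n + (j : ℤ))) ∈ X) :
    ∃ P : ℤ, 0 < P ∧ ∀ n : ℤ,
      (List.range (c (n + P + 1) - c (n + P)).toNat).map
          (fun j : ℕ => w (c (n + P) + (j : ℤ))) =
        (List.range (c (n + 1) - c n).toNat).map (fun j : ℕ => w (c n + (j : ℤ))) := by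
  obtain ⟨q, rfl⟩ : ∃ q : ℕ, p = q := ⟨p.toNat, by omega⟩
  have hq : 0 < q := by exact_mod_cast hp
  refine ⟨(q.factorial : ℤ), by exact_mod_cast q.factorial_pos, ?_⟩
  intro n
  change fac w c (n + q.factorial) = fac w c n
  obtain ⟨a, D, k, h1, h2, h3, h4, h5⟩ := exists_cong q hq c (n - q)
  obtain ⟨m, hm⟩ : ∃ m : ℕ, n = a + m := ⟨(n - a).toNat, by omega⟩
  subst hm
  have hX' : ∀ n, fac w c n ∈ X := hX
  have e1 := eventually_periodic X hcode w q hq hw c hc hX' a D h3 k h5 m
  have e2 := eventually_periodic X hcode w q hq hw c hc hX' a D h3 k h5 (m + q.factorial)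
  have e3 : a + (m : ℤ) + (q.factorial : ℤ) = a + ((m + q.factorial : ℕ) : ℤ) := by
    push_cast; ring
  rw [e3, e2, e1]
  obtain ⟨z, hz⟩ := Nat.dvd_factorial h3 h4
  congr 3
  rw [hz, Nat.add_mul_mod_self_left]

end Pool.Agent.Helper288.KMPeriodic
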